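import Pool.Agent.W_MP_bd7f91_h12.Base

set_option autoImplicit false

open Finset
open scoped Classical

namespace KSat

variable {n k m : ℕ}

/-- A connected set has a spanning tree given by a parent function.
Proof.  Take `r ∈ K`.  Consider the subsets `A ⊆ K` with `r ∈ A` for which there are `p`, `h` with
`h b ≤ |A|` for all `b ∈ A` and the property on `A`; take one of maximal size.  If `A ≠ K` there
are `a ∈ A`, `b ∈ K \ A` adjacent; put `p b = a`, `h b = |A| + 1` (with `Function.update`). -/
theorem conn_tree (G : Fin m → Fin k → Fin n) (K : Finset (Fin m)) (hK : Conn G K) :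
    ∃ r ∈ K, ∃ p : Fin m → Fin m, ∃ h : Fin m → ℕ,
      ∀ b ∈ K, b ≠ r → p b ∈ K ∧ h (p b) < h b ∧ Adj G b (p b) := by
  obtain ⟨⟨r, hr⟩, hC⟩ := hK
  obtain ⟨Pr, hPr⟩ : ∃ Pr : Finset (Fin m) → Prop, ∀ A, Pr A ↔ (r ∈ A ∧
      ∃ p : Fin m → Fin m, ∃ h : Fin m → ℕ, (∀ b ∈ A, h b ≤ A.card) ∧
        ∀ b ∈ A, b ≠ r → p b ∈ A ∧ h (p b) < h b ∧ Adj G b (p b)) := ⟨_, fun _ => Iff.rfl⟩
  have hne : (K.powerset.filter Pr).Nonempty := by
    refine ⟨{r}, ?_⟩
    rw [Finset.mem_filter, Finset.mem_powerset, hPr]
    refine ⟨Finset.singleton_subset_iff.2 hr, Finset.mem_singleton_self r, id, fun _ => 0,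
      fun b _ => Nat.zero_le _, fun b hb hbr => ?_⟩
    exact absurd (Finset.mem_singleton.1 hb) hbr
  obtain ⟨A, hA, hmax⟩ := Finset.exists_max_image _ Finset.card hne
  rw [Finset.mem_filter, Finset.mem_powerset, hPr] at hA
  obtain ⟨hAK, hrA, p, h, hh, hp⟩ := hA
  by_cases hAe : A = K
  · subst hAe
    exact ⟨r, hr, p, h, hp⟩
  · exfalso
    obtain ⟨a, ha, b, hb, hab⟩ := hC A hAK ⟨r, hrA⟩ hAe
    rw [Finset.mem_sdiff] at hb
    obtain ⟨hbK, hbA⟩ := hb
    have hab' : a ≠ b := fun e => hbA (e ▸ ha)
    have hmem : insert b A ∈ K.powerset.filter Pr := by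
      rw [Finset.mem_filter, Finset.mem_powerset, hPr]
      refine ⟨Finset.insert_subset hbK hAK, Finset.mem_insert_of_mem hrA,
        Function.update p b a, Function.update h b (A.card + 1), ?_, ?_⟩
      · intro c hc
        rw [Finset.card_insert_of_notMem hbA]
        rcases Finset.mem_insert.1 hc with rfl | hc
        · rw [Function.update_self]
        · have hcb : c ≠ b := fun e => hbA (e ▸ hc)
          rw [Function.update_of_ne hcb]
          exact (hh c hc).trans (Nat.le_succ _)
      · intro c hc hcr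
        rcases Finset.mem_insert.1 hc with rfl | hc
        · rw [Function.update_self, Function.update_self, Function.update_of_ne hab']
          refine ⟨Finset.mem_insert_of_mem ha, Nat.lt_succ_of_le (hh a ha), ?_⟩
          rcases hab with h1 | h1
          · exact Or.inr h1
          · exact Or.inl h1
        · have hcb : c ≠ b := fun e => hbA (e ▸ hc)
          obtain ⟨h1, h2, h3⟩ := hp c hc hcr
          have hpb : p c ≠ b := fun e => hbA (e ▸ h1)
          rw [Function.update_of_ne hcb, Function.update_of_ne hcb, Function.update_of_ne hpb]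
          exact ⟨Finset.mem_insert_of_mem h1, h2, h3⟩
    have := hmax _ hmem
    rw [Finset.card_insert_of_notMem hbA] at this
    omega

end KSat
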