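import Pool.Agent.W_MP_bd7f91_h12.Peel
import Pool.Agent.W_MP_bd7f91_h12.TreeC

set_option autoImplicit false

open Finset
open scoped Classical

namespace KSat

variable {n k m : ℕ}

theorem Enum_des (G : Fin m → Emb n k) (b b' : Fin m) (j : Fin k) :
    fn G b j ∈ des (fn G) b' ↔ ∃ j' : Fin k, j'.val < 3 ∧ (G b) j = (G b') j' := by
  unfold des fn
  rw [Finset.mem_image]
  constructor
  · rintro ⟨j', hj', h⟩
    exact ⟨j', (Finset.mem_filter.1 hj').2, h.symm⟩
  · rintro ⟨j', hj', h⟩
    exact ⟨j', Finset.mem_filter.2 ⟨Finset.mem_univ _, hj'⟩, h.symm⟩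

/-- `Adj` in terms of `AdjE`. -/
theorem adj_iff (G : Fin m → Emb n k) (b b' : Fin m) : Adj (fn G) b b' ↔ AdjE (G b) (G b') := by
  unfold Adj AdjE
  simp only [Enum_des]

/-- extension of a function by the identity -/
noncomputable def Enum_ext (K : Finset (Fin m)) (p : K → K) : Fin m → Fin m :=
  fun b => if hb : b ∈ K then (p ⟨b, hb⟩).1 else b

/-- admissible pairs -/
def Enum_ok (K : Finset (Fin m)) (r : Fin m) (p : K → K) : Prop :=
  ∃ h : Fin m → ℕ, ∀ b ∈ K, b ≠ r → Enum_ext K p b ∈ K ∧ h (Enum_ext K p b) < h b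

theorem Enum_point (t : Fin n) (K : Finset (Fin m)) (G : Fin m → Emb n k) :
    (if Conn (fn G) K then 4 ^ (exc (fn G) t K) else 0) ≤
      ∑ r ∈ K, ∑ p : K → K, if Enum_ok K r p then
        (if (∀ b ∈ K, b ≠ r → AdjE (G b) (G (Enum_ext K p b))) then
          4 ^ (exc (fn G) t K) else 0) else 0 := by
  split_ifs with hc
  · obtain ⟨r, hr, p, h, hp⟩ := conn_tree (fn G) K hc
    let p' : K → K := fun b => if hb : b.1 = r then b else ⟨p b.1, (hp b.1 b.2 hb).1⟩
    have hext : ∀ b ∈ K, b ≠ r → Enum_ext K p' b = p b := by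
      intro b hb hbr
      unfold Enum_ext
      rw [dif_pos hb]
      show (if hb : b = r then (⟨b, _⟩ : K) else ⟨p b, _⟩ : K).1 = p b
      rw [dif_neg hbr]
    have hok : Enum_ok K r p' := ⟨h, fun b hb hbr => by
      rw [hext b hb hbr]
      exact ⟨(hp b hb hbr).1, (hp b hb hbr).2.1⟩⟩
    have hadj : ∀ b ∈ K, b ≠ r → AdjE (G b) (G (Enum_ext K p' b)) := by
      intro b hb hbr
      rw [hext b hb hbr]
      exact (adj_iff G b (p b)).1 (hp b hb hbr).2.2
    have h1 : (if Enum_ok K r p' then
        (if (∀ b ∈ K, b ≠ r → AdjE (G b) (G (Enum_ext K p' b))) then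
          4 ^ (exc (fn G) t K) else 0) else 0) = 4 ^ (exc (fn G) t K) := by
      rw [if_pos hok, if_pos hadj]
    calc 4 ^ (exc (fn G) t K) = (if Enum_ok K r p' then
        (if (∀ b ∈ K, b ≠ r → AdjE (G b) (G (Enum_ext K p' b))) then
          4 ^ (exc (fn G) t K) else 0) else 0) := h1.symm
      _ ≤ ∑ p : K → K, (if Enum_ok K r p then
        (if (∀ b ∈ K, b ≠ r → AdjE (G b) (G (Enum_ext K p b))) then
          4 ^ (exc (fn G) t K) else 0) else 0) :=
        Finset.single_le_sum (f := fun p : K → K => (if Enum_ok K r p then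
          (if (∀ b ∈ K, b ≠ r → AdjE (G b) (G (Enum_ext K p b))) then
            4 ^ (exc (fn G) t K) else 0) else 0)) (fun _ _ => Nat.zero_le _) (mem_univ p')
      _ ≤ _ := Finset.single_le_sum (f := fun r => ∑ p : K → K, (if Enum_ok K r p then
          (if (∀ b ∈ K, b ≠ r → AdjE (G b) (G (Enum_ext K p b))) then
            4 ^ (exc (fn G) t K) else 0) else 0)) (fun _ _ => Nat.zero_le _) hr
  · exact Nat.zero_le _

theorem Enum_key (t : Fin n) (K : Finset (Fin m)) :
    (∑ G : Fin m → Emb n k, if Conn (fn G) K then 4 ^ (exc (fn G) t K) else 0) *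
      Fintype.card (Emb n k) ^ K.card ≤
      (K.card * K.card ^ K.card) *
        ((24 * k * (n + 3 * (k * K.card + 1)) ^ (k - 1)) ^ (K.card - 1) * (n + 3) ^ k *
          Fintype.card (Emb n k) ^ m) := by
  have h1 : ∀ r ∈ K, ∀ p : K → K,
      (∑ G : Fin m → Emb n k, if Enum_ok K r p then
        (if (∀ b ∈ K, b ≠ r → AdjE (G b) (G (Enum_ext K p b))) then
          4 ^ (exc (fn G) t K) else 0) else 0) * Fintype.card (Emb n k) ^ K.card ≤
      (24 * k * (n + 3 * (k * K.card + 1)) ^ (k - 1)) ^ (K.card - 1) * (n + 3) ^ k *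
          Fintype.card (Emb n k) ^ m := by
    intro r hr p
    by_cases hok : Enum_ok K r p
    · simp only [if_pos hok]
      obtain ⟨h, hh⟩ := hok
      exact tree_exp t K r hr (Enum_ext K p) h hh
    · simp only [if_neg hok, Finset.sum_const_zero, zero_mul]
      exact Nat.zero_le _
  calc (∑ G : Fin m → Emb n k, if Conn (fn G) K then 4 ^ (exc (fn G) t K) else 0) *
      Fintype.card (Emb n k) ^ K.card
      ≤ (∑ G : Fin m → Emb n k, ∑ r ∈ K, ∑ p : K → K, if Enum_ok K r p then
        (if (∀ b ∈ K, b ≠ r → AdjE (G b) (G (Enum_ext K p b))) then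
          4 ^ (exc (fn G) t K) else 0) else 0) * Fintype.card (Emb n k) ^ K.card :=
        Nat.mul_le_mul_right _ (Finset.sum_le_sum fun G _ => Enum_point t K G)
    _ = ∑ r ∈ K, ∑ p : K → K, (∑ G : Fin m → Emb n k, if Enum_ok K r p then
        (if (∀ b ∈ K, b ≠ r → AdjE (G b) (G (Enum_ext K p b))) then
          4 ^ (exc (fn G) t K) else 0) else 0) * Fintype.card (Emb n k) ^ K.card := by
        rw [Finset.sum_comm, Finset.sum_mul]
        refine Finset.sum_congr rfl fun r _ => ?_
        rw [Finset.sum_comm, Finset.sum_mul]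
    _ ≤ ∑ _r ∈ K, ∑ _p : K → K,
        ((24 * k * (n + 3 * (k * K.card + 1)) ^ (k - 1)) ^ (K.card - 1) * (n + 3) ^ k *
          Fintype.card (Emb n k) ^ m) :=
        Finset.sum_le_sum fun r hr => Finset.sum_le_sum fun p _ => h1 r hr p
    _ = _ := by
        rw [Finset.sum_const, Finset.sum_const, Finset.card_univ, Fintype.card_fun,
          Fintype.card_coe, smul_eq_mul, smul_eq_mul]
        simp only [mul_assoc]

/-- Expectation of the sum of the weights `4 ^ exc` over the connected sets of size `l`.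
Proof.  Exchange the sums.  For `|K| = l`, by `conn_tree`, the indicator of `Conn (fn G) K` is at most
the sum over `r ∈ K` and the functions `p : K → K` (extended by the identity outside `K`) for which
there is an `h` as in `tree_exp`, of the indicator of `∀ b ∈ K, b ≠ r → AdjE (G b) (G (p b))`.
There are `l * l ^ l` pairs `(r, p)`; use `tree_exp` for each. -/
theorem enum_bound (t : Fin n) (l : ℕ) :
    (∑ G : Fin m → Emb n k, ∑ K ∈ (univ : Finset (Fin m)).powersetCard l,
        if Conn (fn G) K then 4 ^ (exc (fn G) t K) else 0) * Fintype.card (Emb n k) ^ l ≤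
      (m.choose l * (l * l ^ l)) *
        ((24 * k * (n + 3 * (k * l + 1)) ^ (k - 1)) ^ (l - 1) * (n + 3) ^ k *
          Fintype.card (Emb n k) ^ m) := by
  rw [Finset.sum_comm, Finset.sum_mul]
  calc ∑ K ∈ (univ : Finset (Fin m)).powersetCard l,
        (∑ G : Fin m → Emb n k, if Conn (fn G) K then 4 ^ (exc (fn G) t K) else 0) *
          Fintype.card (Emb n k) ^ l
      ≤ ∑ _K ∈ (univ : Finset (Fin m)).powersetCard l, (l * l ^ l) *
        ((24 * k * (n + 3 * (k * l + 1)) ^ (k - 1)) ^ (l - 1) * (n + 3) ^ k *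
          Fintype.card (Emb n k) ^ m) := by
        refine Finset.sum_le_sum fun K hK => ?_
        have hl : K.card = l := (Finset.mem_powersetCard.1 hK).2
        have h := Enum_key (k := k) t K
        rw [hl] at h
        exact h
    _ = _ := by
        rw [Finset.sum_const, Finset.card_powersetCard, Finset.card_univ, Fintype.card_fin,
          smul_eq_mul]
        simp only [mul_assoc]

end KSat
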