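import Pool.Agent.W_MP_bd7f91_h12.Num

set_option autoImplicit false

open Finset
open scoped Classical

namespace KSat

/-- The number of injections whose first three values lie in `S`: at most `|S| ^ 3 n ^ (k - 3)`. -/
theorem card_first_three (n k : ℕ) (hk : 3 ≤ k) (S : Finset (Fin n)) :
    (univ.filter (fun e : Emb n k => ∀ j : Fin k, j.val < 3 → e j ∈ S)).card ≤
      S.card ^ 3 * n ^ (k - 3) := by
  have h1 : (univ.filter (fun e : Emb n k => ∀ j : Fin k, j.val < 3 → e j ∈ S)).card ≤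
      (Fintype.piFinset (fun j : Fin k => if j.val < 3 then S else (univ : Finset (Fin n)))).card := by
    refine Finset.card_le_card_of_injOn (fun e : Emb n k => (e : Fin k → Fin n)) ?_ ?_
    · intro e he
      rw [Finset.mem_coe, Finset.mem_filter] at he
      rw [Finset.mem_coe, Fintype.mem_piFinset]
      intro j
      by_cases hj : j.val < 3
      · rw [if_pos hj]
        exact he.2 j hj
      · rw [if_neg hj]
        exact Finset.mem_univ _
    · intro e _ e' _ h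
      exact DFunLike.coe_injective h
  refine h1.trans ?_
  rw [Fintype.card_piFinset]
  have h2 : ∀ j : Fin k, (if j.val < 3 then S else (univ : Finset (Fin n))).card =
      if j.val < 3 then S.card else n := by
    intro j
    split_ifs
    · rfl
    · simp
  rw [Finset.prod_congr rfl fun j _ => h2 j, Finset.prod_ite, Finset.prod_const, Finset.prod_const]
  have h3 : (univ.filter (fun j : Fin k => j.val < 3)).card = 3 := by
    have h4 : (univ.filter (fun j : Fin k => j.val < 3)) =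
        (univ : Finset (Fin 3)).image (fun i => (⟨i.val, by omega⟩ : Fin k)) := by
      ext j
      simp only [Finset.mem_filter, Finset.mem_univ, true_and, Finset.mem_image]
      constructor
      · intro hj
        exact ⟨⟨j.val, hj⟩, rfl⟩
      · rintro ⟨i, hi⟩
        rw [← hi]
        exact i.2
    rw [h4, Finset.card_image_of_injective]
    · simp
    · intro a b hab
      have h5 := congrArg Fin.val hab
      exact Fin.ext h5
  have h6 : (univ.filter (fun j : Fin k => ¬ j.val < 3)).card = k - 3 := by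
    have h7 := Finset.card_filter_add_card_filter_not (s := (univ : Finset (Fin k)))
      (fun j => j.val < 3)
    rw [h3, Finset.card_univ, Fintype.card_fin] at h7
    omega
  rw [h3, h6]

/-- The number of the sequences of injections whose members of index in `K` have their first three
values in `S`. -/
theorem HallQ_card_A (n k m : ℕ) (hk : 3 ≤ k) (K : Finset (Fin m)) (S : Finset (Fin n)) (l : ℕ)
    (hK : K.card = l) (hS : S.card ≤ l) :
    (univ.filter (fun G : Fin m → Emb n k =>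
      ∀ i ∈ K, ∀ j : Fin k, j.val < 3 → G i j ∈ S)).card ≤
      (l ^ 3 * n ^ (k - 3)) ^ l * (Fintype.card (Emb n k)) ^ (m - l) := by
  have h1 : (univ.filter (fun G : Fin m → Emb n k =>
      ∀ i ∈ K, ∀ j : Fin k, j.val < 3 → G i j ∈ S)) =
      Fintype.piFinset (fun i : Fin m => if i ∈ K then
        univ.filter (fun e : Emb n k => ∀ j : Fin k, j.val < 3 → e j ∈ S) else univ) := by
    ext G
    rw [Finset.mem_filter, Fintype.mem_piFinset]
    constructor
    · rintro ⟨-, h⟩ i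
      by_cases hi : i ∈ K
      · rw [if_pos hi, Finset.mem_filter]
        exact ⟨Finset.mem_univ _, h i hi⟩
      · rw [if_neg hi]
        exact Finset.mem_univ _
    · intro h
      refine ⟨Finset.mem_univ _, fun i hi => ?_⟩
      have h2 := h i
      rw [if_pos hi, Finset.mem_filter] at h2
      exact h2.2
  rw [h1, Fintype.card_piFinset]
  have h2 : ∀ i : Fin m, (if i ∈ K then
        univ.filter (fun e : Emb n k => ∀ j : Fin k, j.val < 3 → e j ∈ S) else univ).card ≤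
      if i ∈ K then l ^ 3 * n ^ (k - 3) else Fintype.card (Emb n k) := by
    intro i
    split_ifs
    · exact (card_first_three n k hk S).trans (Nat.mul_le_mul_right _ (Nat.pow_le_pow_left hS 3))
    · rw [Finset.card_univ]
  refine (Finset.prod_le_prod' fun i _ => h2 i).trans ?_
  rw [Finset.prod_ite, Finset.prod_const, Finset.prod_const]
  have h3 : (univ.filter (fun i : Fin m => i ∈ K)).card = l := by
    rw [← hK]
    congr 1
    ext i
    simp
  have h4 : (univ.filter (fun i : Fin m => ¬ i ∈ K)).card = m - l := by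
    have h7 := Finset.card_filter_add_card_filter_not (s := (univ : Finset (Fin m)))
      (fun i => i ∈ K)
    rw [h3, Finset.card_univ, Fintype.card_fin] at h7
    omega
  rw [h3, h4]

/-- The union bound. -/
theorem HallQ_union (n k m N : ℕ) (hk : 3 ≤ k) (hn : 1 ≤ n) :
    (univ.filter (fun G : Fin m → Emb n k => ¬ HallP (fn G) N)).card ≤
      ∑ l ∈ Finset.Icc 1 N, m.choose l * (n ^ l *
        ((l ^ 3 * n ^ (k - 3)) ^ l * (Fintype.card (Emb n k)) ^ (m - l))) := by
  have hsub : (univ.filter (fun G : Fin m → Emb n k => ¬ HallP (fn G) N)) ⊆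
      (Finset.Icc 1 N).biUnion fun l => (Finset.powersetCard l (univ : Finset (Fin m))).biUnion
        fun K => (univ : Finset (Fin l → Fin n)).biUnion fun g =>
          univ.filter (fun G : Fin m → Emb n k =>
            ∀ i ∈ K, ∀ j : Fin k, j.val < 3 → G i j ∈ univ.image g) := by
    intro G hG
    rw [Finset.mem_filter] at hG
    have h1 := hG.2
    unfold HallP at h1
    push Not at h1
    obtain ⟨K, hK, hK2⟩ := h1
    have hpos : 1 ≤ K.card := by omega
    -- a function whose range contains the designated variables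
    have hg : ∃ g : Fin K.card → Fin n, desU (fn G) K ⊆ univ.image g := by
      let e := (desU (fn G) K).equivFin
      refine ⟨fun i => if h : i.val < (desU (fn G) K).card then (e.symm ⟨i.val, h⟩ : Fin n)
        else ⟨0, by omega⟩, ?_⟩
      intro u hu
      rw [Finset.mem_image]
      refine ⟨⟨(e ⟨u, hu⟩).val, (e ⟨u, hu⟩).2.trans hK2⟩, Finset.mem_univ _, ?_⟩
      have h2 : ((e ⟨u, hu⟩).val) < (desU (fn G) K).card := (e ⟨u, hu⟩).2
      simp only [h2, dif_pos]
      have h3 : (⟨(e ⟨u, hu⟩).val, h2⟩ : Fin (desU (fn G) K).card) = e ⟨u, hu⟩ := rfl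
      rw [h3, Equiv.symm_apply_apply]
    obtain ⟨g, hg⟩ := hg
    rw [Finset.mem_biUnion]
    refine ⟨K.card, Finset.mem_Icc.2 ⟨hpos, hK⟩, ?_⟩
    rw [Finset.mem_biUnion]
    refine ⟨K, Finset.mem_powersetCard.2 ⟨Finset.subset_univ _, rfl⟩, ?_⟩
    rw [Finset.mem_biUnion]
    refine ⟨g, Finset.mem_univ _, ?_⟩
    rw [Finset.mem_filter]
    refine ⟨Finset.mem_univ _, fun i hi j hj => hg ?_⟩
    unfold desU
    rw [Finset.mem_biUnion]
    refine ⟨i, hi, ?_⟩
    unfold des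
    rw [Finset.mem_image]
    exact ⟨j, Finset.mem_filter.2 ⟨Finset.mem_univ _, hj⟩, rfl⟩
  refine (Finset.card_le_card hsub).trans ?_
  refine Finset.card_biUnion_le.trans ?_
  refine Finset.sum_le_sum fun l hl => ?_
  refine Finset.card_biUnion_le.trans ?_
  have h1 : ∀ K ∈ Finset.powersetCard l (univ : Finset (Fin m)),
      ((univ : Finset (Fin l → Fin n)).biUnion fun g =>
          univ.filter (fun G : Fin m → Emb n k =>
            ∀ i ∈ K, ∀ j : Fin k, j.val < 3 → G i j ∈ univ.image g)).card ≤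
        n ^ l * ((l ^ 3 * n ^ (k - 3)) ^ l * (Fintype.card (Emb n k)) ^ (m - l)) := by
    intro K hK
    rw [Finset.mem_powersetCard] at hK
    refine Finset.card_biUnion_le.trans ?_
    have h2 : ∀ g ∈ (univ : Finset (Fin l → Fin n)),
        (univ.filter (fun G : Fin m → Emb n k =>
            ∀ i ∈ K, ∀ j : Fin k, j.val < 3 → G i j ∈ univ.image g)).card ≤
          (l ^ 3 * n ^ (k - 3)) ^ l * (Fintype.card (Emb n k)) ^ (m - l) := by
      intro g _
      refine HallQ_card_A n k m hk K (univ.image g) l hK.2 ?_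
      refine Finset.card_image_le.trans ?_
      simp
    refine (Finset.sum_le_sum h2).trans ?_
    rw [Finset.sum_const, Finset.card_univ, Fintype.card_fun, Fintype.card_fin, Fintype.card_fin,
      smul_eq_mul]
  refine (Finset.sum_le_sum h1).trans ?_
  rw [Finset.sum_const, Finset.card_powersetCard, Finset.card_univ, Fintype.card_fin, smul_eq_mul]

/-- One term. -/
theorem HallQ_term (n k m l : ℕ) (hk : 3 ≤ k) (N E : ℕ) (hE : 0 < E) (c : ℝ) (hc : 0 ≤ c)
    (hm : (m : ℝ) ≤ c * n) (hl : l ≤ N) :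
    ((m.choose l * (n ^ l * ((l ^ 3 * n ^ (k - 3)) ^ l * E ^ (m - l))) : ℕ) : ℝ) ≤
      (c * (N : ℝ) ^ 3 * (n : ℝ) ^ (k - 1) / E) ^ l * (E : ℝ) ^ m := by
  have hE' : (0 : ℝ) < E := by exact_mod_cast hE
  by_cases hlm : l ≤ m
  · have h1 : (m.choose l : ℝ) ≤ (m : ℝ) ^ l := by
      exact_mod_cast Nat.choose_le_pow m l
    have h2 : (E : ℝ) ^ (m - l) = (E : ℝ) ^ m / (E : ℝ) ^ l := by
      rw [pow_sub₀ _ hE'.ne' hlm, div_eq_mul_inv]
    push_cast
    rw [h2]
    have h3 : (n : ℝ) ^ l * (((l : ℝ) ^ 3 * (n : ℝ) ^ (k - 3)) ^ l * ((E : ℝ) ^ m / (E : ℝ) ^ l)) =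
        ((n : ℝ) * ((l : ℝ) ^ 3 * (n : ℝ) ^ (k - 3))) ^ l * ((E : ℝ) ^ m / (E : ℝ) ^ l) := by
      rw [mul_pow (n : ℝ)]
      ring
    rw [h3]
    have h4 : (m.choose l : ℝ) * (((n : ℝ) * ((l : ℝ) ^ 3 * (n : ℝ) ^ (k - 3))) ^ l *
        ((E : ℝ) ^ m / (E : ℝ) ^ l)) ≤
        ((m : ℝ) * ((n : ℝ) * ((l : ℝ) ^ 3 * (n : ℝ) ^ (k - 3)))) ^ l *
        ((E : ℝ) ^ m / (E : ℝ) ^ l) := by
      rw [mul_pow (m : ℝ), mul_assoc]
      exact mul_le_mul_of_nonneg_right h1 (by positivity)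
    refine h4.trans ?_
    have h5 : (m : ℝ) * ((n : ℝ) * ((l : ℝ) ^ 3 * (n : ℝ) ^ (k - 3))) ≤
        c * (N : ℝ) ^ 3 * (n : ℝ) ^ (k - 1) := by
      have h6 : (l : ℝ) ^ 3 ≤ (N : ℝ) ^ 3 := by
        have : (l : ℝ) ≤ N := by exact_mod_cast hl
        exact pow_le_pow_left₀ (by positivity) this 3
      have h7 : (n : ℝ) ^ (k - 1) = (n : ℝ) * (n : ℝ) * (n : ℝ) ^ (k - 3) := by
        have : k - 1 = (k - 3) + 1 + 1 := by omega
        rw [this, pow_succ, pow_succ]
        ring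
      rw [h7]
      calc (m : ℝ) * ((n : ℝ) * ((l : ℝ) ^ 3 * (n : ℝ) ^ (k - 3)))
          ≤ (c * n) * ((n : ℝ) * ((N : ℝ) ^ 3 * (n : ℝ) ^ (k - 3))) := by
            refine mul_le_mul hm ?_ (by positivity) (by positivity)
            refine mul_le_mul_of_nonneg_left ?_ (by positivity)
            exact mul_le_mul_of_nonneg_right h6 (by positivity)
        _ = c * (N : ℝ) ^ 3 * ((n : ℝ) * (n : ℝ) * (n : ℝ) ^ (k - 3)) := by ring
    have h8 : ((m : ℝ) * ((n : ℝ) * ((l : ℝ) ^ 3 * (n : ℝ) ^ (k - 3)))) ^ l ≤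
        (c * (N : ℝ) ^ 3 * (n : ℝ) ^ (k - 1)) ^ l := pow_le_pow_left₀ (by positivity) h5 l
    calc ((m : ℝ) * ((n : ℝ) * ((l : ℝ) ^ 3 * (n : ℝ) ^ (k - 3)))) ^ l *
        ((E : ℝ) ^ m / (E : ℝ) ^ l)
        ≤ (c * (N : ℝ) ^ 3 * (n : ℝ) ^ (k - 1)) ^ l * ((E : ℝ) ^ m / (E : ℝ) ^ l) :=
          mul_le_mul_of_nonneg_right h8 (by positivity)
      _ = (c * (N : ℝ) ^ 3 * (n : ℝ) ^ (k - 1) / E) ^ l * (E : ℝ) ^ m := by
          rw [div_pow]
          ring
  · rw [Nat.choose_eq_zero_of_lt (not_le.1 hlm)]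
    simp only [zero_mul, Nat.cast_zero]
    positivity

/-- The geometric sum. -/
theorem HallQ_geom (x : ℝ) (h0 : 0 ≤ x) (h1 : x ≤ 1 / 2) (N : ℕ) :
    ∑ l ∈ Finset.Icc 1 N, x ^ l ≤ 2 * x := by
  have h2 : ∑ l ∈ Finset.Icc 1 N, x ^ l = x * ∑ i ∈ Finset.range N, x ^ i := by
    rw [Finset.mul_sum, ← Finset.Ico_add_one_right_eq_Icc, Finset.sum_Ico_eq_sum_range]
    refine Finset.sum_congr (by simp) fun i _ => ?_
    rw [pow_add, pow_one]
  rw [h2]
  have h3 : ∑ i ∈ Finset.range N, x ^ i ≤ ∑ i ∈ Finset.range N, (1 / (2 : ℝ)) ^ i :=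
    Finset.sum_le_sum fun i _ => pow_le_pow_left₀ h0 h1 i
  have h4 := h3.trans (sum_geometric_two_le N)
  nlinarith

/-- `LL n ^ 3 / n` tends to zero. -/
theorem HallQ_lim (δ : ℝ) (hδ : 0 < δ) : ∃ n0 : ℕ, ∀ n, n0 ≤ n →
    ((LL n : ℕ) : ℝ) ^ 3 ≤ δ * n := by
  have h1 := tendsto_pow_const_mul_const_pow_of_abs_lt_one 3
    (r := (1 / 2 : ℝ)) (by rw [abs_of_pos (by norm_num)]; norm_num)
  have h2 : ∀ᶠ t : ℕ in Filter.atTop, (t : ℝ) ^ 3 * (1 / 2 : ℝ) ^ t < δ / 432 :=
    (tendsto_order.1 h1).2 _ (by positivity)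
  obtain ⟨t0, ht0⟩ := Filter.eventually_atTop.1 h2
  refine ⟨2 ^ t0, fun n hn => ?_⟩
  have hn0 : n ≠ 0 := by
    have : 0 < 2 ^ t0 := by positivity
    omega
  have h3 : t0 ≤ Nat.log 2 n := Nat.le_log_of_pow_le (by norm_num) hn
  have h4 := ht0 (Nat.log 2 n + 1) (by omega)
  have h5 : ((2 : ℝ)) ^ (Nat.log 2 n) ≤ n := by
    exact_mod_cast Nat.pow_log_le_self 2 hn0
  have h6 : ((LL n : ℕ) : ℝ) = 6 * ((Nat.log 2 n + 1 : ℕ) : ℝ) := by
    unfold LL
    push_cast
    ring
  rw [h6, mul_pow]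
  have h7 : ((Nat.log 2 n + 1 : ℕ) : ℝ) ^ 3 < δ / 432 * (2 : ℝ) ^ (Nat.log 2 n + 1) := by
    have h8 : (1 / 2 : ℝ) ^ (Nat.log 2 n + 1) = 1 / (2 : ℝ) ^ (Nat.log 2 n + 1) := by
      rw [one_div_pow]
    rw [h8, mul_one_div, div_lt_iff₀ (by positivity)] at h4
    exact h4
  have h9 : δ / 432 * (2 : ℝ) ^ (Nat.log 2 n + 1) ≤ δ / 216 * n := by
    rw [pow_succ]
    have : δ / 432 * ((2 : ℝ) ^ Nat.log 2 n * 2) = δ / 216 * (2 : ℝ) ^ Nat.log 2 n := by ring
    rw [this]
    exact mul_le_mul_of_nonneg_left h5 (by positivity)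
  linarith

/-- With high probability the Hall condition holds for all small sets of clauses.
Proof.  If it fails there are `l ≤ LL n`, a set `K` of `l` clauses, and a set `S` of at most
`l - 1` variables that contains `des (fn G) i` for all `i ∈ K`; so `l ≥ 1`, and there is a
function `g : Fin l → Fin n` whose range contains `des (fn G) i` for all `i ∈ K` (when `n ≥ 1`).
Given `K` and `g` the proportion of the `G` with this property is at most
`(l ^ 3 n ^ (k - 3) / E) ^ l`, `E = n.descFactorial k = Fintype.card (Emb n k)`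
(`card_first_three`), so in total the proportion is at most
`∑_{1 ≤ l ≤ LL n} (m n l ^ 3 n ^ (k - 3) / E) ^ l` and
`m n l ^ 3 n ^ (k - 3) / E ≤ C n ^ 2 (LL n) ^ 3 n ^ (k - 3) / E → 0` since `E ≥ (n - k) ^ k`.
(Here `∑ x ^ l ≤ 2 x` for `0 ≤ x ≤ 1/2`.) -/
theorem hall_prob (k : ℕ) (hk : 3 ≤ k) (C ε : ℝ) (hε : 0 < ε) : ∃ n0 : ℕ, ∀ n, n0 ≤ n →
    ∀ m : ℕ, (m : ℝ) ≤ C * n →
    ((univ.filter (fun G : Fin m → Emb n k => ¬ HallP (fn G) (LL n))).card : ℝ) ≤
      ε * (Fintype.card (Emb n k) : ℝ) ^ m := by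
  set c : ℝ := |C| + 1 with hc
  have hcpos : 0 < c := by positivity
  set δ : ℝ := min (1 / 2) (ε / 2) / (c * 2 ^ k) with hδ
  have hδpos : 0 < δ := by positivity
  obtain ⟨n1, hn1⟩ := HallQ_lim δ hδpos
  refine ⟨n1 + 2 * k + 1, fun n hn m hm => ?_⟩
  have hm' : (m : ℝ) ≤ c * n := by
    refine hm.trans (mul_le_mul_of_nonneg_right ?_ (Nat.cast_nonneg n))
    have := le_abs_self C
    linarith
  have hEcard : Fintype.card (Emb n k) = n.descFactorial k := by
    rw [Fintype.card_embedding_eq, Fintype.card_fin, Fintype.card_fin]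
  set E : ℕ := Fintype.card (Emb n k) with hEdef
  have hE1 : (n + 1 - k) ^ k ≤ E := by
    rw [hEcard]
    exact Nat.pow_sub_le_descFactorial n k
  have hE2 : n ^ k ≤ 2 ^ k * E := by
    calc n ^ k ≤ (2 * (n + 1 - k)) ^ k := Nat.pow_le_pow_left (by omega) k
      _ = 2 ^ k * (n + 1 - k) ^ k := by rw [mul_pow]
      _ ≤ 2 ^ k * E := Nat.mul_le_mul_left _ hE1
  have hE0 : 0 < E := lt_of_lt_of_le (by apply Nat.pow_pos; omega) hE1
  have hE0' : (0 : ℝ) < E := by exact_mod_cast hE0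
  have hn0 : (0 : ℝ) < n := by
    have : 0 < n := by omega
    exact_mod_cast this
  set x : ℝ := c * ((LL n : ℕ) : ℝ) ^ 3 * (n : ℝ) ^ (k - 1) / E with hx
  have hx0 : 0 ≤ x := by positivity
  have hx1 : x ≤ min (1 / 2) (ε / 2) := by
    have h1 := hn1 n (by omega)
    have h2 : (n : ℝ) ^ k ≤ 2 ^ k * E := by exact_mod_cast hE2
    have h3 : (n : ℝ) ^ k = (n : ℝ) ^ (k - 1) * n := by
      rw [← pow_succ]
      congr 1
      omega
    rw [hx, div_le_iff₀ hE0']
    have h4 : c * ((LL n : ℕ) : ℝ) ^ 3 * (n : ℝ) ^ (k - 1) ≤ c * (δ * n) * (n : ℝ) ^ (k - 1) := by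
      refine mul_le_mul_of_nonneg_right ?_ (by positivity)
      exact mul_le_mul_of_nonneg_left h1 hcpos.le
    refine h4.trans ?_
    have h5 : c * (δ * n) * (n : ℝ) ^ (k - 1) = c * δ * (n : ℝ) ^ k := by
      rw [h3]
      ring
    rw [h5]
    have h6 : c * δ * (n : ℝ) ^ k ≤ c * δ * (2 ^ k * E) :=
      mul_le_mul_of_nonneg_left h2 (by positivity)
    refine h6.trans (le_of_eq ?_)
    rw [hδ]
    field_simp
  have hx2 : x ≤ 1 / 2 := hx1.trans (min_le_left _ _)
  have hx3 : x ≤ ε / 2 := hx1.trans (min_le_right _ _)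
  have hU := HallQ_union n k m (LL n) hk (by omega)
  have hU' : ((univ.filter (fun G : Fin m → Emb n k => ¬ HallP (fn G) (LL n))).card : ℝ) ≤
      ∑ l ∈ Finset.Icc 1 (LL n), ((m.choose l * (n ^ l *
        ((l ^ 3 * n ^ (k - 3)) ^ l * E ^ (m - l))) : ℕ) : ℝ) := by
    rw [← Nat.cast_sum]
    exact_mod_cast hU
  refine hU'.trans ?_
  have h1 : ∑ l ∈ Finset.Icc 1 (LL n), ((m.choose l * (n ^ l *
        ((l ^ 3 * n ^ (k - 3)) ^ l * E ^ (m - l))) : ℕ) : ℝ) ≤
      ∑ l ∈ Finset.Icc 1 (LL n), x ^ l * (E : ℝ) ^ m := by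
    refine Finset.sum_le_sum fun l hl => ?_
    exact HallQ_term n k m l hk (LL n) E hE0 c hcpos.le hm' (Finset.mem_Icc.1 hl).2
  refine h1.trans ?_
  rw [← Finset.sum_mul]
  refine mul_le_mul_of_nonneg_right ?_ (by positivity)
  have h2 := HallQ_geom x hx0 hx2 (LL n)
  linarith

end KSat
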