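import Pool.Agent.W_MP_bd7f91_h12.SignZ

set_option autoImplicit false

open Finset
open scoped Classical

namespace KSat

variable {n k m : ℕ}

/-- overwrite `s` by `u` on `K` -/
noncomputable def ov (K : Finset (Fin m)) (s u : Fin m → Fin k → Bool) : Fin m → Fin k → Bool :=
  fun i => if i ∈ K then u i else s i

theorem SignB_card_signs : (Fintype.card (Fin m → Fin k → Bool)) = 2 ^ (k * m) := by
  simp [pow_mul]

theorem SignB_ov_ov (K : Finset (Fin m)) (s u : Fin m → Fin k → Bool) :
    ov K (ov K s u) (ov K u s) = s := by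
  funext i
  by_cases h : i ∈ K <;> simp [ov, h]

/-- the involution -/
noncomputable def SignB_inv (K : Finset (Fin m)) :
    ((Fin m → Fin k → Bool) × (Fin m → Fin k → Bool)) ≃
      ((Fin m → Fin k → Bool) × (Fin m → Fin k → Bool)) where
  toFun p := (ov K p.1 p.2, ov K p.2 p.1)
  invFun p := (ov K p.1 p.2, ov K p.2 p.1)
  left_inv p := by
    apply Prod.ext
    · exact SignB_ov_ov K p.1 p.2
    · exact SignB_ov_ov K p.2 p.1
  right_inv p := by
    apply Prod.ext
    · exact SignB_ov_ov K p.1 p.2
    · exact SignB_ov_ov K p.2 p.1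

/-- The map `(s, u) ↦ (ov K s u, ov K u s)` is an involution, so every function is averaged. -/
theorem sum_ov (K : Finset (Fin m)) (F : (Fin m → Fin k → Bool) → ℝ) :
    ∑ s, ∑ u, F (ov K s u) = 2 ^ (k * m) * ∑ s, F s := by
  have h1 : ∑ s, ∑ u, F (ov K s u) =
      ∑ p : (Fin m → Fin k → Bool) × (Fin m → Fin k → Bool), F (SignB_inv K p).1 := by
    rw [Fintype.sum_prod_type]
    rfl
  have h2 : ∑ p : (Fin m → Fin k → Bool) × (Fin m → Fin k → Bool), F (SignB_inv K p).1 =
      ∑ p : (Fin m → Fin k → Bool) × (Fin m → Fin k → Bool), F p.1 :=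
    Equiv.sum_comp (SignB_inv K) (fun p => F p.1)
  have h3 : ∑ p : (Fin m → Fin k → Bool) × (Fin m → Fin k → Bool), F p.1 =
      ∑ s : Fin m → Fin k → Bool, ∑ _u : Fin m → Fin k → Bool, F s := by
    rw [Fintype.sum_prod_type]
  rw [h1, h2, h3]
  rw [mul_sum]
  refine sum_congr rfl fun s _ => ?_
  rw [sum_const, card_univ, SignB_card_signs, nsmul_eq_mul]
  push_cast
  rfl

theorem SignB_card_one {α : Type*} [Fintype α] (x y : α) (hxy : x ≠ y) :
    (univ.filter (fun r : α → Bool => r x = false ∧ r y = true)).card * 4 =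
      Fintype.card (α → Bool) := by
  have h1 : (univ.filter (fun r : α → Bool => r x = false ∧ r y = true)) =
      Fintype.piFinset (fun a => if a = x then {false} else if a = y then {true} else univ) := by
    ext r
    simp only [mem_filter, mem_univ, true_and, Fintype.mem_piFinset]
    constructor
    · rintro ⟨hx, hy⟩ a
      by_cases ha : a = x
      · subst ha; simp [hx]
      · by_cases hb : a = y
        · subst hb; simp [ha, hy]
        · simp [ha, hb]
    · intro h
      have hx := h x
      have hy := h y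
      simp only [if_true, mem_singleton] at hx
      rw [if_neg (Ne.symm hxy), if_pos rfl, mem_singleton] at hy
      exact ⟨hx, hy⟩
  rw [h1, Fintype.card_piFinset]
  have h2 : (4 : ℕ) = ∏ a : α, (if a ∈ ({x, y} : Finset α) then 2 else 1) := by
    rw [prod_ite_mem, univ_inter, prod_const, card_pair hxy]
    norm_num
  rw [h2, ← prod_mul_distrib, Fintype.card_fun, Fintype.card_bool]
  rw [← card_univ, ← prod_const]
  refine prod_congr rfl fun a _ => ?_
  by_cases ha : a = x
  · subst ha; simp
  · by_cases hb : a = y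
    · subst hb; simp [ha]
    · simp [ha, hb]

theorem SignB_colour_gen {α : Type*} [Fintype α] (K : Finset (Fin m)) (x y : Fin m → α)
    (hxy : ∀ i ∈ K, x i ≠ y i) :
    (univ.filter (fun R : Fin m → α → Bool =>
      ∀ i ∈ K, R i (x i) = false ∧ R i (y i) = true)).card * 4 ^ K.card =
      Fintype.card (Fin m → α → Bool) := by
  have h1 : (univ.filter (fun R : Fin m → α → Bool =>
      ∀ i ∈ K, R i (x i) = false ∧ R i (y i) = true)) =
      Fintype.piFinset (fun i => if i ∈ K then
        univ.filter (fun r : α → Bool => r (x i) = false ∧ r (y i) = true)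
        else univ) := by
    ext R
    simp only [mem_filter, mem_univ, true_and, Fintype.mem_piFinset]
    constructor
    · intro h i
      by_cases hi : i ∈ K
      · simp only [hi, if_true, mem_filter, mem_univ, true_and]
        exact h i hi
      · simp [hi]
    · intro h i hi
      have := h i
      simpa only [hi, if_true, mem_filter, mem_univ, true_and] using this
  rw [h1, Fintype.card_piFinset]
  have h2 : (4 : ℕ) ^ K.card = ∏ i : Fin m, (if i ∈ K then 4 else 1) := by
    rw [prod_ite_mem, univ_inter, prod_const]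
  have h3 : Fintype.card (Fin m → α → Bool) =
      ∏ _i : Fin m, Fintype.card (α → Bool) := by
    rw [prod_const, card_univ, Fintype.card_fun]
  rw [h2, ← prod_mul_distrib, h3]
  refine prod_congr rfl fun i _ => ?_
  by_cases hi : i ∈ K
  · simp only [hi, if_true]
    exact SignB_card_one (x i) (y i) (hxy i hi)
  · simp only [hi, if_false, mul_one, card_univ]

/-- Colourings of the patterns: `R i x = false`, `R i y = true` for two distinct patterns `x i`,
`y i`, `i ∈ K`, is one quarter of all colourings for each `i ∈ K`. -/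
theorem card_colour (K : Finset (Fin m)) (x y : Fin m → Fin k → Bool) (hxy : ∀ i ∈ K, x i ≠ y i) :
    (univ.filter (fun R : Fin m → (Fin k → Bool) → Bool =>
      ∀ i ∈ K, R i (x i) = false ∧ R i (y i) = true)).card * 4 ^ K.card =
      Fintype.card (Fin m → (Fin k → Bool) → Bool) := by
  have h := SignB_colour_gen K x y hxy
  convert h using 3
  ext R
  simp only [mem_filter, mem_univ, true_and]

/-- the set of the assignments which satisfy the clauses outside `K` and whose patterns have the
colour `true` on `K` -/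
noncomputable def SignB_W (G : Fin m → Fin k → Fin n) (K : Finset (Fin m))
    (R : Fin m → (Fin k → Bool) → Bool) (s : Fin m → Fin k → Bool) : Finset (Fin n → Bool) :=
  univ.filter (fun σ => (∀ i, i ∉ K → ∃ j, σ (G i j) ≠ s i j) ∧
    ∀ i ∈ K, R i (fun j => σ (G i j)) = true)

theorem SignB_W_ov (G : Fin m → Fin k → Fin n) (K : Finset (Fin m))
    (R : Fin m → (Fin k → Bool) → Bool) (s u : Fin m → Fin k → Bool) :
    SignB_W G K R (ov K s u) = SignB_W G K R s := by
  ext σ
  simp only [SignB_W, mem_filter, mem_univ, true_and]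
  refine and_congr ?_ Iff.rfl
  refine forall_congr' fun i => ?_
  refine imp_congr_right fun hi => ?_
  simp [ov, hi]

theorem SignB_PS_ov (G : Fin m → Fin k → Fin n) (K : Finset (Fin m))
    (η : Fin n → Option Bool) (s u : Fin m → Fin k → Bool) :
    PS G (ov K s u) η K ↔ PS G u η K := by
  unfold PS NT
  refine forall_congr' fun i => ?_
  refine imp_congr_right fun hi => ?_
  simp [ov, hi]

theorem SignB_W_sub (G : Fin m → Fin k → Fin n) (K : Finset (Fin m))
    (R : Fin m → (Fin k → Bool) → Bool) (s : Fin m → Fin k → Bool)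
    (hR : ∀ i ∈ K, R i (s i) = false) : SignB_W G K R s ⊆ SolO G s := by
  intro σ hσ
  simp only [SignB_W, mem_filter, mem_univ, true_and] at hσ
  simp only [SolO, mem_filter, mem_univ, true_and]
  intro i
  by_cases hi : i ∈ K
  · by_contra hcon
    push Not at hcon
    have h1 : (fun j => σ (G i j)) = s i := funext hcon
    have h2 := hσ.2 i hi
    rw [h1, hR i hi] at h2
    exact Bool.noConfusion h2
  · exact hσ.1 i hi

/-- the averaged quantity for a colouring -/
noncomputable def SignB_F (G : Fin m → Fin k → Fin n) (K : Finset (Fin m))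
    (η : (Fin n → Bool) → Fin n → Option Bool)
    (R : Fin m → (Fin k → Bool) → Bool) (s : Fin m → Fin k → Bool) : ℝ :=
  (((SignB_W G K R s).filter (fun σ => PS G s (η σ) K)).card : ℝ) / ((SignB_W G K R s).card : ℝ)

theorem SignB_sum_F (G : Fin m → Fin k → Fin n) (K : Finset (Fin m)) (t : Fin n)
    (η : (Fin n → Bool) → Fin n → Option Bool) (hη : ∀ σ u, u ≠ t → ∃ b, η σ u = some b)
    (R : Fin m → (Fin k → Bool) → Bool) :
    ∑ s, SignB_F G K η R s ≤ 2 ^ (unf G t K) * 2 ^ (k * m) / 2 ^ (k * K.card) := by
  have hov := sum_ov K (SignB_F G K η R)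
  set B : ℝ := 2 ^ (unf G t K) * 2 ^ (k * m) / 2 ^ (k * K.card) with hB
  have hB0 : 0 ≤ B := by positivity
  have hin : ∀ s : Fin m → Fin k → Bool, ∑ u, SignB_F G K η R (ov K s u) ≤ B := by
    intro s
    have h1 : ∑ u, SignB_F G K η R (ov K s u) =
        (∑ σ ∈ SignB_W G K R s,
          ((univ.filter (fun u : Fin m → Fin k → Bool => PS G u (η σ) K)).card : ℝ)) /
          ((SignB_W G K R s).card : ℝ) := by
      have h2 : ∀ u : Fin m → Fin k → Bool, SignB_F G K η R (ov K s u) =
          (∑ σ ∈ SignB_W G K R s, (if PS G u (η σ) K then (1 : ℝ) else 0)) /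
            ((SignB_W G K R s).card : ℝ) := by
        intro u
        unfold SignB_F
        rw [SignB_W_ov]
        congr 1
        rw [card_filter]
        push_cast
        refine sum_congr rfl fun σ _ => ?_
        simp only [SignB_PS_ov]
      rw [sum_congr rfl (fun u _ => h2 u), ← sum_div, sum_comm]
      congr 1
      refine sum_congr rfl fun σ _ => ?_
      rw [card_filter]
      push_cast
      rfl
    rw [h1]
    have h3 : ∑ σ ∈ SignB_W G K R s,
          ((univ.filter (fun u : Fin m → Fin k → Bool => PS G u (η σ) K)).card : ℝ) ≤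
        ((SignB_W G K R s).card : ℝ) * B := by
      have h4 : ∀ σ ∈ SignB_W G K R s,
          ((univ.filter (fun u : Fin m → Fin k → Bool => PS G u (η σ) K)).card : ℝ) ≤ B := by
        intro σ _
        have h5 := sign_zero G (η σ) t (hη σ) K
        have h6 : ((univ.filter (fun u : Fin m → Fin k → Bool => PS G u (η σ) K)).card : ℝ) *
            2 ^ (k * K.card) ≤ 2 ^ (unf G t K) * 2 ^ (k * m) := by
          exact_mod_cast h5
        rw [hB, le_div_iff₀ (by positivity)]
        exact h6
      have h7 := sum_le_card_nsmul (SignB_W G K R s) _ B h4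
      rwa [nsmul_eq_mul] at h7
    rcases Nat.eq_zero_or_pos (SignB_W G K R s).card with h0 | h0
    · rw [h0]
      simpa using hB0
    · rw [div_le_iff₀ (by exact_mod_cast h0)]
      rw [mul_comm]
      exact h3
  have hsum : ∑ s : Fin m → Fin k → Bool, ∑ u, SignB_F G K η R (ov K s u) ≤
      2 ^ (k * m) * B := by
    have h8 := sum_le_card_nsmul (univ : Finset (Fin m → Fin k → Bool)) _ B (fun s _ => hin s)
    rw [nsmul_eq_mul, card_univ, SignB_card_signs] at h8
    push_cast at h8
    exact h8
  rw [hov] at hsum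
  exact le_of_mul_le_mul_left hsum (by positivity)

/-- The sign symmetrisation.
Proof.  Write `x i = s i` (the violating pattern) and `y i = fun j => σ (G i j)` (the pattern of `σ`),
different for every solution `σ`.  By `card_colour`, `4 ^ (-|K|) * #R` times the left side is
`∑_R ∑_s ∑_σ 1 / |SolO G s|`, the sum over all `R`, all `s` with `R i (s i) = false` for `i ∈ K`, and
all `σ` in `SolO G s` with `PS G s (η σ) K` and `R i (y i) = true` for `i ∈ K`.
For fixed `R` put `W s = {σ | (∀ i ∉ K, clause i is satisfied by σ under s) ∧ ∀ i ∈ K, R i (y i) = true}`.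
If `R i (s i) = false` for `i ∈ K` then `W s ⊆ SolO G s` (`y i ≠ s i` as the colours differ), so
`1 / |SolO G s| ≤ 1 / |W s|` for `σ ∈ W s`.  So the sum for `R` is at most
`∑_s F s`, `F s = ∑_{σ ∈ W s, PS G s (η σ) K} 1 / |W s|`.  `W s` does not depend on `s` on `K`, and
`PS G s _ K` depends only on `s` on `K`; so by `sum_ov`
`2 ^ (k m) ∑_s F s = ∑_s ∑_u ∑_{σ ∈ W s, PS G u (η σ) K} 1 / |W s|
 = ∑_s ∑_{σ ∈ W s} (1 / |W s|) #{u | PS G u (η σ) K} ≤ ∑_s 2 ^ unf 2 ^ (k m) / 2 ^ (k |K|)`
by `sign_zero`. -/
theorem sign_bound (G : Fin m → Fin k → Fin n) (K : Finset (Fin m)) (t : Fin n)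
    (η : (Fin n → Bool) → Fin n → Option Bool) (hη : ∀ σ u, u ≠ t → ∃ b, η σ u = some b) :
    ∑ s : Fin m → Fin k → Bool,
      (((SolO G s).filter (fun σ => PS G s (η σ) K)).card : ℝ) / ((SolO G s).card : ℝ) ≤
      4 ^ K.card * (2 ^ (unf G t K) * 2 ^ (k * m) / 2 ^ (k * K.card)) := by
  set B : ℝ := 2 ^ (unf G t K) * 2 ^ (k * m) / 2 ^ (k * K.card) with hB
  set NR : ℝ := (Fintype.card (Fin m → (Fin k → Bool) → Bool) : ℝ) with hNR
  have hNR0 : 0 < NR := by
    rw [hNR]
    exact_mod_cast Fintype.card_pos
  -- one term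
  have hone : ∀ s : Fin m → Fin k → Bool,
      NR * ((((SolO G s).filter (fun σ => PS G s (η σ) K)).card : ℝ) / ((SolO G s).card : ℝ)) ≤
        4 ^ K.card * ∑ R, SignB_F G K η R s := by
    intro s
    -- the indicator sum
    have h1 : NR * (((SolO G s).filter (fun σ => PS G s (η σ) K)).card : ℝ) =
        4 ^ K.card * ∑ R : Fin m → (Fin k → Bool) → Bool,
          ∑ σ ∈ (SolO G s).filter (fun σ => PS G s (η σ) K),
            (if ∀ i ∈ K, R i (s i) = false ∧ R i (fun j => σ (G i j)) = true then (1 : ℝ)
              else 0) := by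
      have h2 : ∀ σ ∈ (SolO G s).filter (fun σ => PS G s (η σ) K),
          NR = 4 ^ K.card * ∑ R : Fin m → (Fin k → Bool) → Bool,
            (if ∀ i ∈ K, R i (s i) = false ∧ R i (fun j => σ (G i j)) = true then (1 : ℝ)
              else 0) := by
        intro σ hσ
        have h3 : ∀ i ∈ K, s i ≠ (fun i j => σ (G i j)) i := by
          intro i _ hcon
          have h4 := (mem_filter.1 hσ).1
          simp only [SolO, mem_filter, mem_univ, true_and] at h4
          obtain ⟨j, hj⟩ := h4 i
          exact hj (congrFun hcon j).symm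
        have h5 := card_colour K s (fun i j => σ (G i j)) h3
        rw [hNR, ← h5, card_filter]
        push_cast
        rw [mul_comm]
      rw [sum_comm, mul_sum, mul_comm, ← nsmul_eq_mul, ← sum_const]
      exact sum_congr rfl h2
    rw [mul_div_assoc', h1, mul_div_assoc]
    refine mul_le_mul_of_nonneg_left ?_ (by positivity)
    rw [sum_div]
    refine sum_le_sum fun R _ => ?_
    by_cases hR : ∀ i ∈ K, R i (s i) = false
    · have hsub := SignB_W_sub G K R s hR
      have h6 : (∑ σ ∈ (SolO G s).filter (fun σ => PS G s (η σ) K),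
            (if ∀ i ∈ K, R i (s i) = false ∧ R i (fun j => σ (G i j)) = true then (1 : ℝ)
              else 0)) = (((SignB_W G K R s).filter (fun σ => PS G s (η σ) K)).card : ℝ) := by
        rw [← sum_filter, sum_const, nsmul_eq_mul, mul_one]
        congr 2
        ext σ
        simp only [mem_filter]
        constructor
        · rintro ⟨⟨h7, h8⟩, h9⟩
          refine ⟨?_, h8⟩
          simp only [SolO, mem_filter, mem_univ, true_and] at h7
          simp only [SignB_W, mem_filter, mem_univ, true_and]
          exact ⟨fun i _ => h7 i, fun i hi => (h9 i hi).2⟩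
        · rintro ⟨h7, h8⟩
          refine ⟨⟨hsub h7, h8⟩, ?_⟩
          simp only [SignB_W, mem_filter, mem_univ, true_and] at h7
          exact fun i hi => ⟨hR i hi, h7.2 i hi⟩
      rw [h6]
      unfold SignB_F
      rcases Nat.eq_zero_or_pos (SignB_W G K R s).card with h0 | h0
      · have h10 : ((SignB_W G K R s).filter (fun σ => PS G s (η σ) K)).card = 0 :=
          Nat.le_zero.1 (h0 ▸ card_filter_le _ _)
        rw [h10, h0]
        simp
      · refine div_le_div_of_nonneg_left (by positivity) (by exact_mod_cast h0) ?_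
        exact_mod_cast card_le_card hsub
    · have h6 : (∑ σ ∈ (SolO G s).filter (fun σ => PS G s (η σ) K),
            (if ∀ i ∈ K, R i (s i) = false ∧ R i (fun j => σ (G i j)) = true then (1 : ℝ)
              else 0)) = 0 := by
        refine sum_eq_zero fun σ _ => ?_
        rw [if_neg]
        intro hcon
        exact hR fun i hi => (hcon i hi).1
      rw [h6, zero_div]
      unfold SignB_F
      positivity
  have hsum : NR * ∑ s : Fin m → Fin k → Bool,
      (((SolO G s).filter (fun σ => PS G s (η σ) K)).card : ℝ) / ((SolO G s).card : ℝ) ≤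
      NR * (4 ^ K.card * B) := by
    calc NR * ∑ s : Fin m → Fin k → Bool,
        (((SolO G s).filter (fun σ => PS G s (η σ) K)).card : ℝ) / ((SolO G s).card : ℝ)
        = ∑ s : Fin m → Fin k → Bool, NR *
          ((((SolO G s).filter (fun σ => PS G s (η σ) K)).card : ℝ) / ((SolO G s).card : ℝ)) :=
          mul_sum _ _ _
      _ ≤ ∑ s : Fin m → Fin k → Bool, 4 ^ K.card * ∑ R, SignB_F G K η R s :=
          sum_le_sum fun s _ => hone s
      _ = 4 ^ K.card * ∑ R : Fin m → (Fin k → Bool) → Bool, ∑ s, SignB_F G K η R s := by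
          rw [← mul_sum, sum_comm]
      _ ≤ 4 ^ K.card * ∑ _R : Fin m → (Fin k → Bool) → Bool, B := by
          refine mul_le_mul_of_nonneg_left ?_ (by positivity)
          exact sum_le_sum fun R _ => SignB_sum_F G K t η hη R
      _ = NR * (4 ^ K.card * B) := by
          rw [sum_const, card_univ, nsmul_eq_mul, ← hNR]
          ring
  exact le_of_mul_le_mul_left hsum hNR0

end KSat
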