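import Pool.Agent.W_MP_bd7f91_h12.Det
import Pool.Agent.W_MP_bd7f91_h12.SignB
import Pool.Agent.W_MP_bd7f91_h12.Enum
import Pool.Agent.W_MP_bd7f91_h12.HallQ

set_option autoImplicit false

open Finset
open scoped Classical

namespace KSat

/-- the good pairs `(G, s)`: the component of some solution contains the fraction `1 - ε` -/
def GoodO {n k m : ℕ} (G : Fin m → Fin k → Fin n) (s : Fin m → Fin k → Bool) (D : ℕ) (ε : ℝ) :
    Prop :=
  ∃ ζ0 ∈ SolO G s, (1 - ε) * ((SolO G s).card : ℝ) ≤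
    (((SolO G s).filter (fun σ => Relation.ReflTransGen (StepO G s D) σ ζ0)).card : ℝ)

/-- the weighted sum of one size -/
noncomputable def asm_term (n k m l : ℕ) : ℝ :=
  (4 : ℝ) ^ l / 2 ^ (k * l) * ((m.choose l : ℝ) * (l * (l : ℝ) ^ l) *
    ((24 * k * ((n : ℝ) + 3 * (k * l + 1)) ^ (k - 1)) ^ (l - 1) * ((n : ℝ) + 3) ^ k)) /
      (n.descFactorial k : ℝ) ^ l

theorem asm_term_nonneg (n k m l : ℕ) : 0 ≤ asm_term n k m l := by
  unfold asm_term
  positivity

theorem asm_conn_sum (n k m l : ℕ) (hn : k ≤ n) (t : Fin n) :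
    ∑ G : Fin m → Emb n k, ∑ K ∈ (univ : Finset (Fin m)).powersetCard l,
      (if Conn (fn G) K then (4 : ℝ) ^ l * (2 ^ (unf (fn G) t K) * 2 ^ (k * m) / 2 ^ (k * l))
        else 0) ≤
      asm_term n k m l * ((Fintype.card (Emb n k) : ℝ) ^ m * 2 ^ (k * m)) := by
  have hE : Fintype.card (Emb n k) = n.descFactorial k := by
    rw [Fintype.card_embedding_eq, Fintype.card_fin, Fintype.card_fin]
  have hE0 : (0 : ℝ) < (n.descFactorial k : ℝ) := by
    exact_mod_cast Nat.descFactorial_pos.2 hn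
  have h1 := enum_bound (n := n) (k := k) (m := m) t l
  rw [hE] at h1
  have h1' : ((∑ G : Fin m → Emb n k, ∑ K ∈ (univ : Finset (Fin m)).powersetCard l,
      if Conn (fn G) K then 4 ^ (exc (fn G) t K) else 0 : ℕ) : ℝ) *
      (n.descFactorial k : ℝ) ^ l ≤ ((m.choose l : ℝ) * (l * (l : ℝ) ^ l)) *
        ((24 * k * ((n : ℝ) + 3 * (k * l + 1)) ^ (k - 1)) ^ (l - 1) * ((n : ℝ) + 3) ^ k *
          (n.descFactorial k : ℝ) ^ m) := by
    exact_mod_cast h1
  have h2 : ∑ G : Fin m → Emb n k, ∑ K ∈ (univ : Finset (Fin m)).powersetCard l,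
      (if Conn (fn G) K then (4 : ℝ) ^ l * (2 ^ (unf (fn G) t K) * 2 ^ (k * m) / 2 ^ (k * l))
        else 0) ≤ (4 : ℝ) ^ l * 2 ^ (k * m) / 2 ^ (k * l) *
        ((∑ G : Fin m → Emb n k, ∑ K ∈ (univ : Finset (Fin m)).powersetCard l,
          if Conn (fn G) K then 4 ^ (exc (fn G) t K) else 0 : ℕ) : ℝ) := by
    push_cast
    rw [Finset.mul_sum]
    apply Finset.sum_le_sum
    intro G _
    rw [Finset.mul_sum]
    apply Finset.sum_le_sum
    intro K _
    split_ifs with hc
    · have h3 : (2 : ℝ) ^ (unf (fn G) t K) ≤ 4 ^ (exc (fn G) t K) := by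
        calc (2 : ℝ) ^ (unf (fn G) t K) ≤ 2 ^ (2 * exc (fn G) t K) :=
              pow_le_pow_right₀ (by norm_num) (unf_le (fn G) t K)
          _ = 4 ^ (exc (fn G) t K) := by rw [pow_mul]; norm_num
      calc (4 : ℝ) ^ l * (2 ^ (unf (fn G) t K) * 2 ^ (k * m) / 2 ^ (k * l))
          = (4 : ℝ) ^ l * 2 ^ (k * m) / 2 ^ (k * l) * 2 ^ (unf (fn G) t K) := by ring
        _ ≤ _ := mul_le_mul_of_nonneg_left h3 (by positivity)
    · simp
  refine h2.trans ?_
  have h4 : ((∑ G : Fin m → Emb n k, ∑ K ∈ (univ : Finset (Fin m)).powersetCard l,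
      if Conn (fn G) K then 4 ^ (exc (fn G) t K) else 0 : ℕ) : ℝ) ≤
      ((m.choose l : ℝ) * (l * (l : ℝ) ^ l)) *
        ((24 * k * ((n : ℝ) + 3 * (k * l + 1)) ^ (k - 1)) ^ (l - 1) * ((n : ℝ) + 3) ^ k *
          (n.descFactorial k : ℝ) ^ m) / (n.descFactorial k : ℝ) ^ l := by
    rw [le_div_iff₀ (by positivity)]
    exact h1'
  refine (mul_le_mul_of_nonneg_left h4 (by positivity)).trans (le_of_eq ?_)
  unfold asm_term
  rw [hE]
  ring

theorem asm_union {n k m : ℕ} (G : Fin m → Fin k → Fin n) (s : Fin m → Fin k → Bool)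
    (η : (Fin n → Bool) → Fin n → Option Bool) (S : Finset (Fin n → Bool)) (L : ℕ) :
    ((S.filter (fun σ => ∃ K, Wit G s (η σ) L K)).card : ℝ) ≤
      ∑ l ∈ Finset.Icc L ((k + 1) * L), ∑ K ∈ (univ : Finset (Fin m)).powersetCard l,
        if Conn G K then ((S.filter (fun σ => PS G s (η σ) K)).card : ℝ) else 0 := by
  have h1 : (S.filter (fun σ => ∃ K, Wit G s (η σ) L K)).card ≤
      ∑ σ ∈ S, ∑ l ∈ Finset.Icc L ((k + 1) * L), ∑ K ∈ (univ : Finset (Fin m)).powersetCard l,
        if Conn G K then (if PS G s (η σ) K then 1 else 0) else 0 := by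
    rw [Finset.card_filter]
    apply Finset.sum_le_sum
    intro σ _
    split_ifs with h
    · obtain ⟨K, hc, hp, h1, h2⟩ := h
      have h3 : (if Conn G K then (if PS G s (η σ) K then 1 else 0) else 0) ≤
          ∑ K ∈ (univ : Finset (Fin m)).powersetCard K.card,
            if Conn G K then (if PS G s (η σ) K then 1 else 0) else 0 :=
        Finset.single_le_sum (f := fun K => if Conn G K then (if PS G s (η σ) K then 1 else 0)
          else 0) (fun _ _ => Nat.zero_le _)
          (Finset.mem_powersetCard.2 ⟨Finset.subset_univ _, rfl⟩)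
      rw [if_pos hc, if_pos hp] at h3
      exact h3.trans (Finset.single_le_sum (f := fun l =>
        ∑ K ∈ (univ : Finset (Fin m)).powersetCard l,
          if Conn G K then (if PS G s (η σ) K then 1 else 0) else 0) (fun _ _ => Nat.zero_le _)
          (Finset.mem_Icc.2 ⟨h1, h2⟩))
    · exact Nat.zero_le _
  have h2 : ∑ σ ∈ S, ∑ l ∈ Finset.Icc L ((k + 1) * L),
      ∑ K ∈ (univ : Finset (Fin m)).powersetCard l,
        (if Conn G K then (if PS G s (η σ) K then 1 else 0) else 0) =
      ∑ l ∈ Finset.Icc L ((k + 1) * L), ∑ K ∈ (univ : Finset (Fin m)).powersetCard l,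
        if Conn G K then (S.filter (fun σ => PS G s (η σ) K)).card else 0 := by
    rw [Finset.sum_comm]
    apply Finset.sum_congr rfl
    intro l _
    rw [Finset.sum_comm]
    apply Finset.sum_congr rfl
    intro K _
    split_ifs with hc
    · rw [Finset.card_filter]
    · simp
  rw [h2] at h1
  exact_mod_cast h1

/-- Expected number of witnesses, weighted: for each `t`,
`∑_G ∑_s |{σ ∈ SolO | ∃ K, Wit G s (part σ t) L K}| / |SolO|` is at most the sum in `num_bound`
(without the factor `n`) times `|Emb| ^ m 2 ^ (k m)`.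
Proof: union over `K` with `L ≤ |K| ≤ (k + 1) L` and `Conn`; `sign_bound` (`η σ = part σ t`),
`unf_le` (`2 ^ unf ≤ 4 ^ exc`), `enum_bound`, `Fintype.card_embedding_eq`. -/
theorem wit_sum (n k m : ℕ) (L : ℕ) (hL : 1 ≤ L) (hn : k ≤ n) (t : Fin n) :
    ∑ G : Fin m → Emb n k, ∑ s : Fin m → Fin k → Bool,
      (((SolO (fn G) s).filter (fun σ => ∃ K, Wit (fn G) s (part σ t) L K)).card : ℝ) /
        ((SolO (fn G) s).card : ℝ) ≤
      (∑ l ∈ Finset.Icc L ((k + 1) * L),
        (4 : ℝ) ^ l / 2 ^ (k * l) * ((m.choose l : ℝ) * (l * (l : ℝ) ^ l) *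
        ((24 * k * ((n : ℝ) + 3 * (k * l + 1)) ^ (k - 1)) ^ (l - 1) * ((n : ℝ) + 3) ^ k)) /
          (n.descFactorial k : ℝ) ^ l) * ((Fintype.card (Emb n k) : ℝ) ^ m * 2 ^ (k * m)) := by
  have hη : ∀ (σ : Fin n → Bool) (u : Fin n), u ≠ t → ∃ b, part σ t u = some b := by
    intro σ u hu
    unfold part
    split_ifs with h1
    · exact ⟨_, rfl⟩
    · exact ⟨_, rfl⟩
  have h1 : ∑ G : Fin m → Emb n k, ∑ s : Fin m → Fin k → Bool,
      (((SolO (fn G) s).filter (fun σ => ∃ K, Wit (fn G) s (part σ t) L K)).card : ℝ) /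
        ((SolO (fn G) s).card : ℝ) ≤
      ∑ G : Fin m → Emb n k, ∑ l ∈ Finset.Icc L ((k + 1) * L),
        ∑ K ∈ (univ : Finset (Fin m)).powersetCard l,
        (if Conn (fn G) K then (4 : ℝ) ^ l * (2 ^ (unf (fn G) t K) * 2 ^ (k * m) / 2 ^ (k * l))
          else 0) := by
    apply Finset.sum_le_sum
    intro G _
    have h2 : ∑ s : Fin m → Fin k → Bool,
        (((SolO (fn G) s).filter (fun σ => ∃ K, Wit (fn G) s (part σ t) L K)).card : ℝ) /
        ((SolO (fn G) s).card : ℝ) ≤ ∑ s : Fin m → Fin k → Bool,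
        ∑ l ∈ Finset.Icc L ((k + 1) * L), ∑ K ∈ (univ : Finset (Fin m)).powersetCard l,
        (if Conn (fn G) K then
          ((((SolO (fn G) s).filter (fun σ => PS (fn G) s (part σ t) K)).card : ℝ) /
            ((SolO (fn G) s).card : ℝ)) else 0) := by
      apply Finset.sum_le_sum
      intro s _
      have h3 := asm_union (fn G) s (fun σ => part σ t) (SolO (fn G) s) L
      refine (div_le_div_of_nonneg_right h3 (Nat.cast_nonneg _)).trans (le_of_eq ?_)
      rw [Finset.sum_div]
      apply Finset.sum_congr rfl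
      intro l _
      rw [Finset.sum_div]
      apply Finset.sum_congr rfl
      intro K _
      split_ifs with hc
      · rfl
      · rw [zero_div]
    refine h2.trans ?_
    rw [Finset.sum_comm]
    apply Finset.sum_le_sum
    intro l _
    rw [Finset.sum_comm]
    apply Finset.sum_le_sum
    intro K hK
    split_ifs with hc
    · have h4 := sign_bound (fn G) K t (fun σ => part σ t) hη
      rw [(Finset.mem_powersetCard.1 hK).2] at h4
      exact h4
    · simp
  refine h1.trans ?_
  rw [Finset.sum_comm, Finset.sum_mul]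
  apply Finset.sum_le_sum
  intro l _
  exact asm_conn_sum n k m l hn t

/-- The same for the all-false assignment (here only the signs are random: `sign_zero`). -/
theorem wit_sum0 (n k m : ℕ) (L : ℕ) (hL : 1 ≤ L) (hn : k ≤ n) (t : Fin n) :
    ((univ.filter (fun P : (Fin m → Emb n k) × (Fin m → Fin k → Bool) =>
      ∃ K, Wit (fn P.1) P.2 allF L K)).card : ℝ) ≤
      (∑ l ∈ Finset.Icc L ((k + 1) * L),
        (4 : ℝ) ^ l / 2 ^ (k * l) * ((m.choose l : ℝ) * (l * (l : ℝ) ^ l) *
        ((24 * k * ((n : ℝ) + 3 * (k * l + 1)) ^ (k - 1)) ^ (l - 1) * ((n : ℝ) + 3) ^ k)) /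
          (n.descFactorial k : ℝ) ^ l) * ((Fintype.card (Emb n k) : ℝ) ^ m * 2 ^ (k * m)) := by
  have hη : ∀ u : Fin n, u ≠ t → ∃ b, allF u = some b := fun u _ => ⟨_, rfl⟩
  have h1 : ((univ.filter (fun P : (Fin m → Emb n k) × (Fin m → Fin k → Bool) =>
      ∃ K, Wit (fn P.1) P.2 allF L K)).card : ℝ) ≤
      ∑ G : Fin m → Emb n k, ∑ l ∈ Finset.Icc L ((k + 1) * L),
        ∑ K ∈ (univ : Finset (Fin m)).powersetCard l,
        (if Conn (fn G) K then (4 : ℝ) ^ l * (2 ^ (unf (fn G) t K) * 2 ^ (k * m) / 2 ^ (k * l))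
          else 0) := by
    rw [Finset.natCast_card_filter, Fintype.sum_prod_type]
    apply Finset.sum_le_sum
    intro G _
    have h2 : ∑ s : Fin m → Fin k → Bool,
        (if ∃ K, Wit (fn (G, s).1) (G, s).2 allF L K then (1 : ℝ) else 0) ≤
        ∑ s : Fin m → Fin k → Bool,
        ∑ l ∈ Finset.Icc L ((k + 1) * L), ∑ K ∈ (univ : Finset (Fin m)).powersetCard l,
        (if Conn (fn G) K then (if PS (fn G) s allF K then (1 : ℝ) else 0) else 0) := by
      apply Finset.sum_le_sum
      intro s _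
      have hnn : ∀ K : Finset (Fin m), (0 : ℝ) ≤
          (if Conn (fn G) K then (if PS (fn G) s allF K then (1 : ℝ) else 0) else 0) := by
        intro K
        split_ifs <;> norm_num
      split_ifs with h
      · obtain ⟨K, hc, hp, h1, h2⟩ := h
        have h3 := Finset.single_le_sum (f := fun K : Finset (Fin m) =>
          (if Conn (fn G) K then (if PS (fn G) s allF K then (1 : ℝ) else 0) else 0))
          (s := (univ : Finset (Fin m)).powersetCard K.card) (fun K _ => hnn K)
          (Finset.mem_powersetCard.2 ⟨Finset.subset_univ _, rfl⟩)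
        simp only at hc hp
        simp only [if_pos hc, if_pos hp] at h3
        exact h3.trans (Finset.single_le_sum (f := fun l =>
          ∑ K ∈ (univ : Finset (Fin m)).powersetCard l,
            (if Conn (fn G) K then (if PS (fn G) s allF K then (1 : ℝ) else 0) else 0))
            (fun _ _ => Finset.sum_nonneg (fun K _ => hnn K)) (Finset.mem_Icc.2 ⟨h1, h2⟩))
      · exact Finset.sum_nonneg (fun l _ => Finset.sum_nonneg (fun K _ => hnn K))
    refine h2.trans ?_
    rw [Finset.sum_comm]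
    apply Finset.sum_le_sum
    intro l _
    rw [Finset.sum_comm]
    apply Finset.sum_le_sum
    intro K hK
    split_ifs with hc
    · have h4 := sign_zero (fn G) allF t hη K
      rw [(Finset.mem_powersetCard.1 hK).2] at h4
      have h5 : (((univ.filter (fun s : Fin m → Fin k → Bool => PS (fn G) s allF K)).card : ℝ)) *
          2 ^ (k * l) ≤ 2 ^ (unf (fn G) t K) * 2 ^ (k * m) := by exact_mod_cast h4
      rw [← Finset.natCast_card_filter]
      rw [← le_div_iff₀ (by positivity)] at h5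
      refine h5.trans ?_
      have h6 : (1 : ℝ) ≤ 4 ^ l := one_le_pow₀ (by norm_num)
      exact le_mul_of_one_le_left (by positivity) h6
    · simp
  refine h1.trans ?_
  rw [Finset.sum_comm, Finset.sum_mul]
  apply Finset.sum_le_sum
  intro l _
  exact asm_conn_sum n k m l hn t

/-- Main theorem in the ordered model.
Proof.  A pair `(G, s)` which is not good satisfies one of: `¬ HallP` (proportion `≤ ε / 3`,
`hall_prob` with `C = 2 ^ k`); `∃ K, Wit allF` (`wit_sum0`, `num_bound` for `ε / 3`, `n ≥ 1`);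
`|BadO| > ε |SolO|`, whose proportion is at most `(1 / ε)` times the average of `|BadO| / |SolO|`
(Markov), and this is `≤ ε ^ 2 / 3` by `wit_sum` summed over `t` and `num_bound` for `ε ^ 2 / 3`.
Otherwise `giant_det` (`L = LL n ≥ 1`) gives `ζ0` and all solutions outside `BadO` are joined to
it. -/
theorem ordered_main (k : ℕ) (hk : 3 ≤ k) (ε : ℝ) (hε : 0 < ε) : ∃ n0 : ℕ, ∀ n, n0 ≤ n →
    ∀ m : ℕ, (m : ℝ) ≤ 2 ^ k / (600 * k) * n →
    ((univ.filter (fun P : (Fin m → Emb n k) × (Fin m → Fin k → Bool) =>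
      ¬ GoodO (fn P.1) P.2 (3 * LL n) ε)).card : ℝ) ≤
      ε * ((Fintype.card (Emb n k) : ℝ) ^ m * 2 ^ (k * m)) := by
  obtain ⟨n1, h1⟩ := hall_prob k hk (2 ^ k) (ε / 3) (by positivity)
  obtain ⟨n2, h2⟩ := num_bound k hk (ε / 3) (by positivity)
  obtain ⟨n3, h3⟩ := num_bound k hk (ε ^ 2 / 3) (by positivity)
  refine ⟨max (max n1 n2) (max n3 (k + 1)), fun n hn m hm => ?_⟩
  have hn1 : n1 ≤ n := (le_max_left _ _).trans ((le_max_left _ _).trans hn)
  have hn2 : n2 ≤ n := (le_max_right _ _).trans ((le_max_left _ _).trans hn)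
  have hn3 : n3 ≤ n := (le_max_left _ _).trans ((le_max_right _ _).trans hn)
  have hnk : k + 1 ≤ n := (le_max_right _ _).trans ((le_max_right _ _).trans hn)
  have hn0 : 0 < n := by omega
  have hLL : 1 ≤ LL n := by unfold LL; omega
  obtain ⟨N, hN⟩ : ∃ N : ℝ, N = (Fintype.card (Emb n k) : ℝ) ^ m * 2 ^ (k * m) := ⟨_, rfl⟩
  have hN0 : 0 ≤ N := by rw [hN]; positivity
  -- the three bad sets
  obtain ⟨A1, hA1⟩ : ∃ A : Finset ((Fin m → Emb n k) × (Fin m → Fin k → Bool)), A =
    univ.filter (fun P => ¬ HallP (fn P.1) (LL n)) := ⟨_, rfl⟩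
  obtain ⟨A2, hA2⟩ : ∃ A : Finset ((Fin m → Emb n k) × (Fin m → Fin k → Bool)), A =
    univ.filter (fun P => ∃ K, Wit (fn P.1) P.2 allF (LL n) K) := ⟨_, rfl⟩
  obtain ⟨A3, hA3⟩ : ∃ A : Finset ((Fin m → Emb n k) × (Fin m → Fin k → Bool)), A =
    univ.filter (fun P => ε * ((SolO (fn P.1) P.2).card : ℝ) <
      ((BadO (fn P.1) P.2 (LL n)).card : ℝ)) := ⟨_, rfl⟩
  have hc1 : (A1.card : ℝ) ≤ ε / 3 * N := by
    have h4 : A1 = (univ.filter (fun G : Fin m → Emb n k => ¬ HallP (fn G) (LL n))) ×ˢ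
        (univ : Finset (Fin m → Fin k → Bool)) := by
      rw [hA1]
      ext P
      simp
    have hm' : (m : ℝ) ≤ 2 ^ k * n := by
      refine hm.trans ?_
      apply mul_le_mul_of_nonneg_right _ (Nat.cast_nonneg _)
      apply div_le_self (by positivity)
      have : (3 : ℝ) ≤ k := by exact_mod_cast hk
      linarith
    have h5 := h1 n hn1 m hm'
    rw [h4, Finset.card_product, Nat.cast_mul, Finset.card_univ, hN]
    have h6 : (Fintype.card (Fin m → Fin k → Bool) : ℝ) = 2 ^ (k * m) := by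
      simp [pow_mul]
    rw [h6]
    calc _ ≤ (ε / 3 * (Fintype.card (Emb n k) : ℝ) ^ m) * 2 ^ (k * m) :=
          mul_le_mul_of_nonneg_right h5 (by positivity)
      _ = _ := by ring
  have hc2 : (A2.card : ℝ) ≤ ε / 3 * N := by
    have h4 := wit_sum0 n k m (LL n) hLL (by omega) ⟨0, hn0⟩
    rw [← hA2, ← hN] at h4
    refine h4.trans (mul_le_mul_of_nonneg_right ?_ hN0)
    have h5 := h2 n hn2 m hm
    have h6 : (1 : ℝ) ≤ n := by exact_mod_cast hn0
    refine le_trans (le_mul_of_one_le_left (Finset.sum_nonneg (fun l _ => ?_)) h6) h5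
    positivity
  have hc3 : (A3.card : ℝ) ≤ ε / 3 * N := by
    have h4 : ε * (A3.card : ℝ) ≤ ∑ P : (Fin m → Emb n k) × (Fin m → Fin k → Bool),
        ((BadO (fn P.1) P.2 (LL n)).card : ℝ) / ((SolO (fn P.1) P.2).card : ℝ) := by
      rw [hA3, Finset.natCast_card_filter, Finset.mul_sum]
      apply Finset.sum_le_sum
      intro P _
      split_ifs with h
      · rw [mul_one]
        have h5 : (0 : ℝ) < ((SolO (fn P.1) P.2).card : ℝ) := by
          rcases (Nat.cast_nonneg (α := ℝ) (SolO (fn P.1) P.2).card).eq_or_lt with h6 | h6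
          · exfalso
            rw [← h6, mul_zero] at h
            have h7 : (BadO (fn P.1) P.2 (LL n)).card ≤ (SolO (fn P.1) P.2).card :=
              Finset.card_le_card (Finset.filter_subset _ _)
            have h8 : ((BadO (fn P.1) P.2 (LL n)).card : ℝ) ≤ ((SolO (fn P.1) P.2).card : ℝ) := by
              exact_mod_cast h7
            rw [← h6] at h8
            linarith
          · exact h6
        rw [le_div_iff₀ h5]
        exact h.le
      · rw [mul_zero]
        positivity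
    have h5 : ∑ P : (Fin m → Emb n k) × (Fin m → Fin k → Bool),
        ((BadO (fn P.1) P.2 (LL n)).card : ℝ) / ((SolO (fn P.1) P.2).card : ℝ) ≤
        ε ^ 2 / 3 * N := by
      have h6 : ∀ P : (Fin m → Emb n k) × (Fin m → Fin k → Bool),
          ((BadO (fn P.1) P.2 (LL n)).card : ℝ) / ((SolO (fn P.1) P.2).card : ℝ) ≤
          ∑ t : Fin n, (((SolO (fn P.1) P.2).filter
            (fun σ => ∃ K, Wit (fn P.1) P.2 (part σ t) (LL n) K)).card : ℝ) /
            ((SolO (fn P.1) P.2).card : ℝ) := by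
        intro P
        rw [← Finset.sum_div]
        apply div_le_div_of_nonneg_right _ (Nat.cast_nonneg _)
        have h7 : BadO (fn P.1) P.2 (LL n) ⊆ (univ : Finset (Fin n)).biUnion (fun t =>
            (SolO (fn P.1) P.2).filter
              (fun σ => ∃ K, Wit (fn P.1) P.2 (part σ t) (LL n) K)) := by
          intro σ hσ
          unfold BadO at hσ
          rw [Finset.mem_filter] at hσ
          obtain ⟨hσ1, t, hσ2⟩ := hσ
          exact Finset.mem_biUnion.2 ⟨t, Finset.mem_univ _, Finset.mem_filter.2 ⟨hσ1, hσ2⟩⟩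
        have h8 := (Finset.card_le_card h7).trans Finset.card_biUnion_le
        exact_mod_cast h8
      refine (Finset.sum_le_sum (fun P _ => h6 P)).trans ?_
      rw [Finset.sum_comm]
      have h9 : ∀ t : Fin n, ∑ P : (Fin m → Emb n k) × (Fin m → Fin k → Bool),
          (((SolO (fn P.1) P.2).filter
            (fun σ => ∃ K, Wit (fn P.1) P.2 (part σ t) (LL n) K)).card : ℝ) /
            ((SolO (fn P.1) P.2).card : ℝ) ≤
          (∑ l ∈ Finset.Icc (LL n) ((k + 1) * LL n), asm_term n k m l) * N := by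
        intro t
        rw [Fintype.sum_prod_type, hN]
        exact wit_sum n k m (LL n) hLL (by omega) t
      refine (Finset.sum_le_sum (fun t _ => h9 t)).trans ?_
      rw [Finset.sum_const, Finset.card_univ, Fintype.card_fin, nsmul_eq_mul, ← mul_assoc]
      exact mul_le_mul_of_nonneg_right (h3 n hn3 m hm) hN0
    have h10 := h4.trans h5
    have h11 : ε * (A3.card : ℝ) ≤ ε * (ε / 3 * N) := by
      refine h10.trans (le_of_eq ?_)
      ring
    exact le_of_mul_le_mul_left h11 hε
  have hsub : (univ.filter (fun P : (Fin m → Emb n k) × (Fin m → Fin k → Bool) =>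
      ¬ GoodO (fn P.1) P.2 (3 * LL n) ε)) ⊆ A1 ∪ A2 ∪ A3 := by
    intro P hP
    rw [Finset.mem_filter] at hP
    by_contra hcon
    rw [Finset.mem_union, Finset.mem_union, not_or, not_or] at hcon
    obtain ⟨⟨hcon1, hcon2⟩, hcon3⟩ := hcon
    rw [hA1, Finset.mem_filter] at hcon1
    rw [hA2, Finset.mem_filter] at hcon2
    rw [hA3, Finset.mem_filter] at hcon3
    push Not at hcon1 hcon2 hcon3
    have hH := hcon1 (Finset.mem_univ _)
    have hW := hcon2 (Finset.mem_univ _)
    have hB := hcon3 (Finset.mem_univ _)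
    apply hP.2
    obtain ⟨ζ0, hζ0, hj⟩ := giant_det (fn P.1) P.2 (LL n) (by omega) hLL hH hW
    refine ⟨ζ0, Finset.mem_filter.2 ⟨Finset.mem_univ _, hζ0⟩, ?_⟩
    have h4 : SolO (fn P.1) P.2 \ BadO (fn P.1) P.2 (LL n) ⊆ (SolO (fn P.1) P.2).filter
        (fun σ => Relation.ReflTransGen (StepO (fn P.1) P.2 (3 * LL n)) σ ζ0) := by
      intro σ hσ
      rw [Finset.mem_sdiff] at hσ
      refine Finset.mem_filter.2 ⟨hσ.1, ?_⟩
      apply hj σ (Finset.mem_filter.1 hσ.1).2
      intro t K hK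
      exact hσ.2 (Finset.mem_filter.2 ⟨hσ.1, t, K, hK⟩)
    have h5 := Finset.card_le_card h4
    have hBS : BadO (fn P.1) P.2 (LL n) ⊆ SolO (fn P.1) P.2 := Finset.filter_subset _ _
    rw [Finset.card_sdiff_of_subset hBS] at h5
    have h6 : (BadO (fn P.1) P.2 (LL n)).card ≤ (SolO (fn P.1) P.2).card :=
      Finset.card_le_card (Finset.filter_subset _ _)
    have h7 : ((SolO (fn P.1) P.2).card : ℝ) - ((BadO (fn P.1) P.2 (LL n)).card : ℝ) ≤
        (((SolO (fn P.1) P.2).filter
        (fun σ => Relation.ReflTransGen (StepO (fn P.1) P.2 (3 * LL n)) σ ζ0)).card : ℝ) := by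
      rw [← Nat.cast_sub h6]
      exact_mod_cast h5
    linarith
  have h12 : ((univ.filter (fun P : (Fin m → Emb n k) × (Fin m → Fin k → Bool) =>
      ¬ GoodO (fn P.1) P.2 (3 * LL n) ε)).card : ℝ) ≤ A1.card + A2.card + A3.card := by
    have h13 := (Finset.card_le_card hsub).trans ((Finset.card_union_le _ _).trans
      (Nat.add_le_add_right (Finset.card_union_le _ _) _))
    exact_mod_cast h13
  rw [← hN]
  linarith

end KSat
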