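import Pool.Agent.W_MP_bd7f91_h12.Statement

set_option autoImplicit false

/-!
The ordered model of random `k`-SAT used in the proofs
(`G i j` is the variable at position `j` of clause `i`, and `s i j` is the value of this variable
that makes the literal FALSE; so clause `i` is violated by `σ` when `σ (G i j) = s i j` for all `j`).
-/

open Finset
open scoped Classical

namespace KSat

section ordered

variable {n k m : ℕ}

/-- the assignment `σ` satisfies the ordered formula `(G, s)` -/
def SatO (G : Fin m → Fin k → Fin n) (s : Fin m → Fin k → Bool) (σ : Fin n → Bool) : Prop :=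
  ∀ i, ∃ j, σ (G i j) ≠ s i j

/-- the designated variables of clause `i`: those at the first three positions -/
noncomputable def des (G : Fin m → Fin k → Fin n) (i : Fin m) : Finset (Fin n) :=
  (univ.filter (fun j : Fin k => j.val < 3)).image (G i)

/-- the designated variables of a set of clauses -/
noncomputable def desU (G : Fin m → Fin k → Fin n) (T : Finset (Fin m)) : Finset (Fin n) :=
  T.biUnion (des G)

/-- the literal at position `j` of clause `i` is not true for the partial assignment `η` -/
def NT (G : Fin m → Fin k → Fin n) (s : Fin m → Fin k → Bool) (η : Fin n → Option Bool)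
    (i : Fin m) (j : Fin k) : Prop :=
  ∀ b, η (G i j) = some b → b = s i j

/-- clause `i` has no true literal outside the designated variables of `T` -/
def Join (G : Fin m → Fin k → Fin n) (s : Fin m → Fin k → Bool) (η : Fin n → Option Bool)
    (T : Finset (Fin m)) (i : Fin m) : Prop :=
  ∀ j, G i j ∈ desU G T ∨ NT G s η i j

/-- two clauses are adjacent when a designated variable of one of them lies in the other -/
def Adj (G : Fin m → Fin k → Fin n) (i i' : Fin m) : Prop :=
  (∃ j, G i j ∈ des G i') ∨ (∃ j, G i' j ∈ des G i)

/-- connected sets of clauses -/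
def Conn (G : Fin m → Fin k → Fin n) (K : Finset (Fin m)) : Prop :=
  K.Nonempty ∧ ∀ A ⊆ K, A.Nonempty → A ≠ K → ∃ a ∈ A, ∃ b ∈ K \ A, Adj G a b

/-- every position of a clause of `K` is not true, or its variable is designated in another clause
of `K` -/
def PS (G : Fin m → Fin k → Fin n) (s : Fin m → Fin k → Bool) (η : Fin n → Option Bool)
    (K : Finset (Fin m)) : Prop :=
  ∀ i ∈ K, ∀ j, (∃ i' ∈ K, i' ≠ i ∧ G i j ∈ des G i') ∨ NT G s η i j

/-- the witnesses of large clusters -/
def Wit (G : Fin m → Fin k → Fin n) (s : Fin m → Fin k → Bool) (η : Fin n → Option Bool)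
    (L : ℕ) (K : Finset (Fin m)) : Prop :=
  Conn G K ∧ PS G s η K ∧ L ≤ K.card ∧ K.card ≤ (k + 1) * L

/-- `T` is the closure: the least set of clauses which contains every clause without true literal
outside `desU G T` -/
structure IsClosure (G : Fin m → Fin k → Fin n) (s : Fin m → Fin k → Bool)
    (η : Fin n → Option Bool) (T : Finset (Fin m)) : Prop where
  closed : ∀ i, Join G s η T i → i ∈ T
  gen : ∀ i ∈ T, Join G s η T i
  least : ∀ T', (∀ i, Join G s η T' i → i ∈ T') → T ⊆ T'

/-- a labelling of `T` which is constant along adjacent clauses and has classes smaller than `L` -/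
def IsLab (G : Fin m → Fin k → Fin n) (T : Finset (Fin m)) (cl : Fin m → Fin m) (L : ℕ) : Prop :=
  (∀ i ∈ T, ∀ i' ∈ T, Adj G i i' → cl i = cl i') ∧
    ∀ a, (T.filter (fun i => cl i = a)).card < L

/-- one step of a `D`-path in the ordered model -/
def StepO (G : Fin m → Fin k → Fin n) (s : Fin m → Fin k → Bool) (D : ℕ)
    (a b : Fin n → Bool) : Prop :=
  SatO G s a ∧ SatO G s b ∧ hammingDist a b ≤ D

/-- Hall condition for small sets of clauses -/
def HallP (G : Fin m → Fin k → Fin n) (L : ℕ) : Prop :=
  ∀ K : Finset (Fin m), K.card ≤ L → K.card ≤ (desU G K).card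

/-- the partial assignment: false before `t`, undefined at `t`, equal to `σ` after `t` -/
def part (σ : Fin n → Bool) (t : Fin n) : Fin n → Option Bool :=
  fun u => if u < t then some false else if u = t then none else some (σ u)

/-- the partial assignment which is false everywhere -/
def allF : Fin n → Option Bool := fun _ => some false

/-- the solutions in the ordered model -/
noncomputable def SolO (G : Fin m → Fin k → Fin n) (s : Fin m → Fin k → Bool) :
    Finset (Fin n → Bool) :=
  univ.filter (SatO G s)

/-- the bad solutions: some step of their path meets a large cluster -/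
noncomputable def BadO (G : Fin m → Fin k → Fin n) (s : Fin m → Fin k → Bool) (L : ℕ) :
    Finset (Fin n → Bool) :=
  (SolO G s).filter (fun σ => ∃ t : Fin n, ∃ K, Wit G s (part σ t) L K)

/-- the number of unforced positions in the clauses of `K` -/
noncomputable def unf (G : Fin m → Fin k → Fin n) (t : Fin n) (K : Finset (Fin m)) : ℕ :=
  ((K ×ˢ (univ : Finset (Fin k))).filter
    (fun p => G p.1 p.2 = t ∨ ∃ i' ∈ K, i' ≠ p.1 ∧ G p.1 p.2 ∈ des G i')).card

/-- the variables of the clauses of `K`, and `t` -/
noncomputable def vars (G : Fin m → Fin k → Fin n) (t : Fin n) (K : Finset (Fin m)) :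
    Finset (Fin n) :=
  insert t (K.biUnion (fun i => univ.image (G i)))

/-- the excess of `K` -/
noncomputable def exc (G : Fin m → Fin k → Fin n) (t : Fin n) (K : Finset (Fin m)) : ℕ :=
  k * K.card + 1 - (vars G t K).card

end ordered

/-- injective sequences of variables -/
abbrev Emb (n k : ℕ) := Fin k ↪ Fin n

/-- the underlying functions of a sequence of injections -/
def fn {n k m : ℕ} (G : Fin m → Emb n k) : Fin m → Fin k → Fin n := fun i j => G i j

/-- adjacency of two injections -/
def AdjE {n k : ℕ} (e g : Emb n k) : Prop :=
  (∃ j j' : Fin k, j'.val < 3 ∧ e j = g j') ∨ (∃ j j' : Fin k, j'.val < 3 ∧ g j = e j')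

end KSat
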