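import Pool.Agent.W_MP_bd7f91_h12.Base

set_option autoImplicit false

open Finset
open scoped Classical

namespace KSat

variable {n k m : ℕ}

/-- `Join` is monotone in `T`. -/
theorem join_mono (G : Fin m → Fin k → Fin n) (s : Fin m → Fin k → Bool) (η : Fin n → Option Bool)
    (T T' : Finset (Fin m)) (h : T ⊆ T') (i : Fin m) (hJ : Join G s η T i) :
    Join G s η T' i := by
  intro j
  rcases hJ j with h1 | h1
  · left
    unfold desU at h1 ⊢
    exact Finset.biUnion_subset_biUnion_of_subset_left _ h h1
  · exact Or.inr h1

/-- The closure exists.  Proof: `T` = the set of all `i` that belong to every `T'` with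
`∀ i', Join G s η T' i' → i' ∈ T'` (a filter of `univ`).  Closed and least by monotonicity
(`join_mono`).  `gen`: if `i ∈ T` and `¬ Join T i` then `T.erase i` has the closure property too
(a joinable `i'` is joinable for `T`, so in `T`, and it is not `i`), hence `T ⊆ T.erase i`,
contradiction. -/
theorem closure_exists (G : Fin m → Fin k → Fin n) (s : Fin m → Fin k → Bool)
    (η : Fin n → Option Bool) : ∃ T, IsClosure G s η T := by
  obtain ⟨T, hT⟩ : ∃ T : Finset (Fin m), T = univ.filter (fun i => ∀ T' : Finset (Fin m),
      (∀ i', Join G s η T' i' → i' ∈ T') → i ∈ T') := ⟨_, rfl⟩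
  have hleast : ∀ T', (∀ i, Join G s η T' i → i ∈ T') → T ⊆ T' := by
    intro T' hT' i hi
    rw [hT, Finset.mem_filter] at hi
    exact hi.2 T' hT'
  have hclosed : ∀ i, Join G s η T i → i ∈ T := by
    intro i hi
    rw [hT, Finset.mem_filter]
    refine ⟨Finset.mem_univ _, fun T' hT' => ?_⟩
    exact hT' i (join_mono G s η T T' (hleast T' hT') i hi)
  refine ⟨T, hclosed, ?_, hleast⟩
  intro i hi
  by_contra hcon
  have h1 : T ⊆ T.erase i := by
    apply hleast
    intro i' hi'
    have h2 := join_mono G s η (T.erase i) T (Finset.erase_subset _ _) i' hi'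
    rw [Finset.mem_erase]
    refine ⟨?_, hclosed i' h2⟩
    rintro rfl
    exact hcon h2
  exact Finset.notMem_erase i T (h1 hi)

/-- If `η'` extends `η` the closure of `η'` is contained in that of `η`: literals not true for `η'`
are not true for `η`, so `T` is closed for `η'`. -/
theorem closure_mono (G : Fin m → Fin k → Fin n) (s : Fin m → Fin k → Bool)
    (η η' : Fin n → Option Bool) (h : ∀ u b, η u = some b → η' u = some b)
    (T T' : Finset (Fin m)) (hT : IsClosure G s η T) (hT' : IsClosure G s η' T') : T' ⊆ T := by
  apply hT'.least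
  intro i hi
  apply hT.closed
  intro j
  rcases hi j with h1 | h1
  · exact Or.inl h1
  · right
    intro b hb
    exact h1 b (h _ _ hb)

/-- Witnesses for the extension `η'` are witnesses for `η`. -/
theorem wit_mono (G : Fin m → Fin k → Fin n) (s : Fin m → Fin k → Bool)
    (η η' : Fin n → Option Bool) (h : ∀ u b, η u = some b → η' u = some b) (L : ℕ)
    (K : Finset (Fin m)) (hK : Wit G s η' L K) : Wit G s η L K := by
  obtain ⟨h1, h2, h3, h4⟩ := hK
  refine ⟨h1, ?_, h3, h4⟩
  intro i hi j
  rcases h2 i hi j with h5 | h5
  · exact Or.inl h5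
  · right
    intro b hb
    exact h5 b (h _ _ hb)

end KSat
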