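import Pool.Agent.W_MP_bd7f91_h12.Base

set_option autoImplicit false

open Finset
open scoped Classical

namespace KSat

variable {n k m : ℕ}

/-- the union of the designated sets of a subset of `T` is large (Hall condition) -/
theorem HallS_card (G : Fin m → Fin k → Fin n) (L : ℕ)
    (T : Finset (Fin m)) (cl : Fin m → Fin m) (hcl : IsLab G T cl L) (hH : HallP G L)
    (K : Finset (Fin m)) (hK : K ⊆ T) : K.card ≤ (desU G K).card := by
  obtain ⟨h1, h2⟩ := hcl
  have hcard : K.card = ∑ a : Fin m, (K.filter (fun i => cl i = a)).card :=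
    Finset.card_eq_sum_card_fiberwise (fun i _ => Finset.mem_coe.2 (mem_univ (cl i)))
  have hle : ∀ a : Fin m, (K.filter (fun i => cl i = a)).card
      ≤ (desU G (K.filter (fun i => cl i = a))).card := by
    intro a
    apply hH
    refine le_trans (Finset.card_le_card ?_) (h2 a).le
    exact Finset.filter_subset_filter _ hK
  have hdisj : ∀ a ∈ (univ : Finset (Fin m)), ∀ b ∈ (univ : Finset (Fin m)), a ≠ b →
      Disjoint (desU G (K.filter (fun i => cl i = a))) (desU G (K.filter (fun i => cl i = b))) := by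
    intro a _ b _ hab
    rw [Finset.disjoint_left]
    intro v hv hv'
    unfold desU at hv hv'
    rw [Finset.mem_biUnion] at hv hv'
    obtain ⟨i, hi, hvi⟩ := hv
    obtain ⟨i', hi', hvi'⟩ := hv'
    rw [Finset.mem_filter] at hi hi'
    apply hab
    rw [← hi.2, ← hi'.2]
    apply h1 i (hK hi.1) i' (hK hi'.1)
    left
    have hvi2 := hvi
    unfold des at hvi2
    rw [Finset.mem_image] at hvi2
    obtain ⟨j, _, hj⟩ := hvi2
    exact ⟨j, by rw [hj]; exact hvi'⟩
  rw [hcard]
  calc ∑ a : Fin m, (K.filter (fun i => cl i = a)).card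
      ≤ ∑ a : Fin m, (desU G (K.filter (fun i => cl i = a))).card :=
        Finset.sum_le_sum (fun a _ => hle a)
    _ = ((univ : Finset (Fin m)).biUnion
          (fun a => desU G (K.filter (fun i => cl i = a)))).card :=
        (Finset.card_biUnion hdisj).symm
    _ ≤ (desU G K).card := by
        apply Finset.card_le_card
        intro v hv
        rw [Finset.mem_biUnion] at hv
        obtain ⟨a, _, hv⟩ := hv
        unfold desU at hv ⊢
        rw [Finset.mem_biUnion] at hv ⊢
        obtain ⟨i, hi, hvi⟩ := hv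
        exact ⟨i, (Finset.mem_filter.1 hi).1, hvi⟩

/-- The residual formula is satisfiable.
Proof.  For every `K ⊆ T`: `K` is the disjoint union of its classes `K_a = K.filter (cl · = a)`, of
size `< L`, so `|K_a| ≤ |desU G K_a|`; the sets `desU G K_a` are pairwise disjoint (a common
variable of `des G i` and `des G i'` makes `i, i'` adjacent), so `|K| ≤ |desU G K|`.  By Hall's
theorem (`Finset.all_card_le_biUnion_card_iff_exists_injective` with index type `T`) there is an
injective choice `g i ∈ des G i`, `i ∈ T`; `g i = G i (j i)`; put `ξ (g i) = ! s i (j i)`. -/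
theorem hall_sat (G : Fin m → Fin k → Fin n) (s : Fin m → Fin k → Bool) (L : ℕ)
    (T : Finset (Fin m)) (cl : Fin m → Fin m) (hcl : IsLab G T cl L) (hH : HallP G L) :
    ∃ ξ : Fin n → Bool, ∀ i ∈ T, ∃ j, G i j ∈ desU G T ∧ ξ (G i j) ≠ s i j := by
  have hall : ∀ S : Finset {x // x ∈ T}, S.card ≤ (S.biUnion (fun x => des G x.1)).card := by
    intro S
    have h := HallS_card G L T cl hcl hH (S.map (Function.Embedding.subtype (fun x => x ∈ T)))
      (by
        intro x hx
        rw [Finset.mem_map] at hx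
        obtain ⟨y, _, rfl⟩ := hx
        exact y.2)
    rw [Finset.card_map] at h
    refine le_trans h (Finset.card_le_card ?_)
    intro v hv
    unfold desU at hv
    rw [Finset.mem_biUnion] at hv ⊢
    obtain ⟨i, hi, hvi⟩ := hv
    rw [Finset.mem_map] at hi
    obtain ⟨y, hy, rfl⟩ := hi
    exact ⟨y, hy, hvi⟩
  obtain ⟨f, hf, hfm⟩ := (Finset.all_card_le_biUnion_card_iff_exists_injective
    (fun x : {x // x ∈ T} => des G x.1)).1 hall
  have hj : ∀ x : {x // x ∈ T}, ∃ j : Fin k, G x.1 j = f x := by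
    intro x
    have h := hfm x
    unfold des at h
    rw [Finset.mem_image] at h
    obtain ⟨j, _, hj⟩ := h
    exact ⟨j, hj⟩
  choose jj hjj using hj
  refine ⟨fun v => if h : ∃ x : {x // x ∈ T}, f x = v then
    ! s h.choose.1 (jj h.choose) else false, ?_⟩
  intro i hi
  refine ⟨jj ⟨i, hi⟩, ?_, ?_⟩
  · rw [hjj ⟨i, hi⟩]
    unfold desU
    rw [Finset.mem_biUnion]
    exact ⟨i, hi, hfm ⟨i, hi⟩⟩
  · have hex : ∃ x : {x // x ∈ T}, f x = G i (jj ⟨i, hi⟩) := ⟨⟨i, hi⟩, (hjj ⟨i, hi⟩).symm⟩
    have hch : hex.choose = ⟨i, hi⟩ := by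
      apply hf
      rw [hex.choose_spec]
      exact hjj ⟨i, hi⟩
    have hval : (if h : ∃ x : {x // x ∈ T}, f x = G i (jj ⟨i, hi⟩) then
        ! s h.choose.1 (jj h.choose) else false) = ! s i (jj ⟨i, hi⟩) := by
      rw [dif_pos hex, hch]
    show (if h : ∃ x : {x // x ∈ T}, f x = G i (jj ⟨i, hi⟩) then
        ! s h.choose.1 (jj h.choose) else false) ≠ s i (jj ⟨i, hi⟩)
    rw [hval]
    cases s i (jj ⟨i, hi⟩) <;> decide

end KSat
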