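import Pool.Agent.W_MP_bd7f91_h12.Base

set_option autoImplicit false

open Finset
open scoped Classical

namespace KSat

variable {n k m : ℕ}

theorem Lab_adj_symm (G : Fin m → Fin k → Fin n) {a b : Fin m} (h : Adj G a b) : Adj G b a :=
  h.symm

/-- connectedness from a base point -/
theorem Lab_conn_of_base (G : Fin m → Fin k → Fin n) {K : Finset (Fin m)} {i : Fin m} (hi : i ∈ K)
    (h : ∀ B ⊆ K, i ∈ B → B ≠ K → ∃ a ∈ B, ∃ b ∈ K \ B, Adj G a b) : Conn G K := by
  refine ⟨⟨i, hi⟩, fun A hA hAne hAK => ?_⟩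
  by_cases hiA : i ∈ A
  · exact h A hA hiA hAK
  · obtain ⟨x, hx⟩ := hAne
    obtain ⟨a, ha, b, hb, hab⟩ := h (K \ A) Finset.sdiff_subset (Finset.mem_sdiff.2 ⟨hi, hiA⟩)
      (fun he => by
        have : x ∈ K \ A := by rw [he]; exact hA hx
        exact (Finset.mem_sdiff.1 this).2 hx)
    have hbA : b ∈ A := by
      have h1 := Finset.mem_sdiff.1 hb
      by_contra hc
      exact h1.2 (Finset.mem_sdiff.2 ⟨h1.1, hc⟩)
    exact ⟨b, hbA, a, ha, Lab_adj_symm G hab⟩

/-- the induction statement: a partition of `T` into small connected classes -/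
structure LabQ (G : Fin m → Fin k → Fin n) (s : Fin m → Fin k → Bool)
    (η : Fin n → Option Bool) (L : ℕ) (T : Finset (Fin m)) (c : Fin m → Finset (Fin m)) : Prop where
  ps : PS G s η T
  mem : ∀ x ∈ T, x ∈ c x
  sub : ∀ x ∈ T, c x ⊆ T
  eq : ∀ x ∈ T, ∀ y ∈ c x, c y = c x
  adj : ∀ x ∈ T, ∀ y ∈ T, Adj G x y → c x = c y
  conn : ∀ x ∈ T, Conn G (c x)
  card : ∀ x ∈ T, (c x).card < L

theorem Lab_conn {G : Fin m → Fin k → Fin n} {s : Fin m → Fin k → Bool}
    {η : Fin n → Option Bool} {L : ℕ} {T : Finset (Fin m)} {c : Fin m → Finset (Fin m)}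
    (hQ : LabQ G s η L T c) {i : Fin m} {A : Finset (Fin m)} (hAT : A ⊆ T)
    (hA : ∀ z ∈ A, Adj G i z) : Conn G (insert i (A.biUnion c)) := by
  refine Lab_conn_of_base G (Finset.mem_insert_self _ _) fun B hB hiB hBne => ?_
  by_contra hcon
  push Not at hcon
  apply hBne
  refine Finset.Subset.antisymm hB ?_
  intro x hx
  rcases Finset.mem_insert.1 hx with rfl | hx
  · exact hiB
  obtain ⟨z, hz, hxz⟩ := Finset.mem_biUnion.1 hx
  have hcz : c z ⊆ insert i (A.biUnion c) := fun y hy =>
    Finset.mem_insert_of_mem (Finset.mem_biUnion.2 ⟨z, hz, hy⟩)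
  have hzB : z ∈ B := by
    by_contra hzB
    exact hcon i hiB z (Finset.mem_sdiff.2 ⟨hcz (hQ.mem z (hAT hz)), hzB⟩) (hA z hz)
  by_contra hxB
  obtain ⟨a, ha, b, hb, hab⟩ := (hQ.conn z (hAT hz)).2 (B ∩ c z) Finset.inter_subset_right
    ⟨z, Finset.mem_inter.2 ⟨hzB, hQ.mem z (hAT hz)⟩⟩ (fun he => by
      have : x ∈ B ∩ c z := by rw [he]; exact hxz
      exact hxB (Finset.mem_inter.1 this).1)
  have hb1 := Finset.mem_sdiff.1 hb
  have hbB : b ∉ B := fun h => hb1.2 (Finset.mem_inter.2 ⟨h, hb1.1⟩)
  exact hcon a (Finset.mem_inter.1 ha).1 b (Finset.mem_sdiff.2 ⟨hcz hb1.1, hbB⟩) hab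

theorem Lab_ps {G : Fin m → Fin k → Fin n} {s : Fin m → Fin k → Bool}
    {η : Fin n → Option Bool} {L : ℕ} {T : Finset (Fin m)} {c : Fin m → Finset (Fin m)}
    (hQ : LabQ G s η L T c) {i : Fin m} (hi : i ∉ T) (hJ : Join G s η T i) {A : Finset (Fin m)}
    (hAT : A ⊆ T) (hA : ∀ j, G i j ∈ desU G T → ∃ z ∈ A, G i j ∈ des G z) :
    PS G s η (insert i (A.biUnion c)) := by
  intro y hy j
  rcases Finset.mem_insert.1 hy with rfl | hy
  · rcases hJ j with h | h
    · obtain ⟨z, hz, hzj⟩ := hA j h
      refine Or.inl ⟨z, Finset.mem_insert_of_mem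
        (Finset.mem_biUnion.2 ⟨z, hz, hQ.mem z (hAT hz)⟩), ?_, hzj⟩
      rintro rfl
      exact hi (hAT hz)
    · exact Or.inr h
  · obtain ⟨z, hz, hyz⟩ := Finset.mem_biUnion.1 hy
    have hyT : y ∈ T := hQ.sub z (hAT hz) hyz
    rcases hQ.ps y hyT j with ⟨i', hi', hne, hj⟩ | h
    · refine Or.inl ⟨i', Finset.mem_insert_of_mem (Finset.mem_biUnion.2 ⟨z, hz, ?_⟩), hne, hj⟩
      have h1 : c y = c i' := hQ.adj y hyT i' hi' (Or.inl ⟨j, hj⟩)
      have h2 : c y = c z := hQ.eq z (hAT hz) y hyz
      rw [← h2, h1]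
      exact hQ.mem i' hi'
    · exact Or.inr h

/-- the induction step -/
theorem Lab_step {G : Fin m → Fin k → Fin n} {s : Fin m → Fin k → Bool}
    {η : Fin n → Option Bool} {L : ℕ} (hk : 1 ≤ k) (hL : 1 ≤ L)
    (hno : ∀ K, ¬ Wit G s η L K) {T : Finset (Fin m)} {c : Fin m → Finset (Fin m)}
    (hQ : LabQ G s η L T c) {i : Fin m} (hi : i ∉ T) (hJ : Join G s η T i) :
    ∃ c', LabQ G s η L (insert i T) c' := by
  -- one clause of `T` for every designated position
  have hf : ∀ j : Fin k, ∃ z : Fin m, (G i j ∈ desU G T → z ∈ T ∧ G i j ∈ des G z) ∧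
      (G i j ∉ desU G T → z = i) := by
    intro j
    by_cases h : G i j ∈ desU G T
    · obtain ⟨z, hz, hj⟩ := Finset.mem_biUnion.1 h
      exact ⟨z, fun _ => ⟨hz, hj⟩, fun h' => absurd h h'⟩
    · exact ⟨i, fun h' => absurd h' h, fun _ => rfl⟩
  choose f hf1 hf2 using hf
  let A0 : Finset (Fin m) := (univ.image f).filter (fun z => z ∈ T)
  let N : Finset (Fin m) := T.filter (fun z => Adj G i z)
  have hA0T : A0 ⊆ T := fun z hz => (Finset.mem_filter.1 hz).2
  have hNT : N ⊆ T := Finset.filter_subset _ _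
  have hA0N : A0 ⊆ N := by
    intro z hz
    obtain ⟨h1, h2⟩ := Finset.mem_filter.1 hz
    obtain ⟨j, -, rfl⟩ := Finset.mem_image.1 h1
    refine Finset.mem_filter.2 ⟨h2, ?_⟩
    by_cases h : G i j ∈ desU G T
    · exact Or.inl ⟨j, (hf1 j h).2⟩
    · exact absurd (hf2 j h ▸ h2) hi
  have hA0card : A0.card ≤ k := by
    refine (Finset.card_filter_le _ _).trans (Finset.card_image_le.trans ?_)
    rw [Finset.card_univ, Fintype.card_fin]
  have hA0j : ∀ j, G i j ∈ desU G T → ∃ z ∈ A0, G i j ∈ des G z := fun j h =>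
    ⟨f j, Finset.mem_filter.2 ⟨Finset.mem_image_of_mem _ (Finset.mem_univ _), (hf1 j h).1⟩,
      (hf1 j h).2⟩
  -- no witness: the sets between are small or very large
  have hsmall : ∀ A : Finset (Fin m), A0 ⊆ A → A ⊆ N →
      (insert i (A.biUnion c)).card ≤ (k + 1) * L → (insert i (A.biUnion c)).card < L := by
    intro A hA0A hAN hle
    by_contra hge
    push Not at hge
    refine hno _ ⟨Lab_conn hQ (hAN.trans hNT) fun z hz => (Finset.mem_filter.1 (hAN hz)).2,
      Lab_ps hQ hi hJ (hAN.trans hNT) fun j h => ?_, hge, hle⟩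
    obtain ⟨z, hz, hj⟩ := hA0j j h
    exact ⟨z, hA0A hz, hj⟩
  have h0 : (insert i (A0.biUnion c)).card < L := by
    refine hsmall A0 Finset.Subset.rfl hA0N ?_
    have h1 : (A0.biUnion c).card ≤ A0.card * L := by
      refine Finset.card_biUnion_le_card_mul _ _ _ fun z hz => (hQ.card z (hA0T hz)).le
    have h2 : A0.card * L ≤ k * L := Nat.mul_le_mul_right L hA0card
    have h3 := Finset.card_insert_le i (A0.biUnion c)
    nlinarith
  have hall : ∀ B : Finset (Fin m), B ⊆ N → (insert i ((A0 ∪ B).biUnion c)).card < L := by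
    intro B
    induction B using Finset.induction_on with
    | empty =>
      intro _
      rw [Finset.union_empty]
      exact h0
    | insert z B _ ih =>
      intro hB
      have hzN : z ∈ N := hB (Finset.mem_insert_self _ _)
      have hBN : B ⊆ N := fun x hx => hB (Finset.mem_insert_of_mem hx)
      refine hsmall _ Finset.subset_union_left (Finset.union_subset hA0N hB) ?_
      have h1 : insert i ((A0 ∪ insert z B).biUnion c) ⊆ insert i ((A0 ∪ B).biUnion c) ∪ c z := by
        intro x hx
        rcases Finset.mem_insert.1 hx with rfl | hx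
        · exact Finset.mem_union_left _ (Finset.mem_insert_self _ _)
        obtain ⟨y, hy, hxy⟩ := Finset.mem_biUnion.1 hx
        rcases Finset.mem_union.1 hy with hy | hy
        · exact Finset.mem_union_left _ (Finset.mem_insert_of_mem
            (Finset.mem_biUnion.2 ⟨y, Finset.mem_union_left _ hy, hxy⟩))
        rcases Finset.mem_insert.1 hy with rfl | hy
        · exact Finset.mem_union_right _ hxy
        · exact Finset.mem_union_left _ (Finset.mem_insert_of_mem
            (Finset.mem_biUnion.2 ⟨y, Finset.mem_union_right _ hy, hxy⟩))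
      have h2 := (Finset.card_le_card h1).trans (Finset.card_union_le _ _)
      have h3 := ih hBN
      have h4 := hQ.card z (hNT hzN)
      nlinarith
  have hKcard : (insert i (N.biUnion c)).card < L := by
    have := hall N Finset.Subset.rfl
    rwa [Finset.union_eq_right.2 hA0N] at this
  have hKconn : Conn G (insert i (N.biUnion c)) :=
    Lab_conn hQ hNT fun z hz => (Finset.mem_filter.1 hz).2
  generalize hKdef : insert i (N.biUnion c) = K at hKcard hKconn
  have hiK : i ∈ K := hKdef ▸ Finset.mem_insert_self _ _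
  -- a clause of `T` is in `K` together with its class
  have hKc : ∀ x ∈ T, x ∈ K → c x ⊆ K := by
    intro x hx hxK
    rw [← hKdef] at hxK ⊢
    rcases Finset.mem_insert.1 hxK with rfl | hxK
    · exact absurd hx hi
    · obtain ⟨z, hz, hxz⟩ := Finset.mem_biUnion.1 hxK
      rw [hQ.eq z (hNT hz) x hxz]
      exact fun y hy => Finset.mem_insert_of_mem (Finset.mem_biUnion.2 ⟨z, hz, hy⟩)
  have hKT : K ⊆ insert i T := by
    rw [← hKdef]
    intro x hx
    rcases Finset.mem_insert.1 hx with rfl | hx
    · exact Finset.mem_insert_self _ _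
    · obtain ⟨z, hz, hxz⟩ := Finset.mem_biUnion.1 hx
      exact Finset.mem_insert_of_mem (hQ.sub z (hNT hz) hxz)
  have hNK : ∀ z ∈ T, Adj G i z → z ∈ K := by
    intro z hz hiz
    rw [← hKdef]
    exact Finset.mem_insert_of_mem
      (Finset.mem_biUnion.2 ⟨z, Finset.mem_filter.2 ⟨hz, hiz⟩, hQ.mem z hz⟩)
  refine ⟨fun x => if x ∈ K then K else c x, ?_⟩
  have hT' : ∀ x ∈ insert i T, x ∉ K → x ∈ T := by
    intro x hx hxK
    rcases Finset.mem_insert.1 hx with rfl | hx
    · exact absurd hiK hxK
    · exact hx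
  refine ⟨?_, ?_, ?_, ?_, ?_, ?_, ?_⟩
  · intro y hy j
    rcases Finset.mem_insert.1 hy with rfl | hy
    · rcases hJ j with h | h
      · obtain ⟨z, hz, hj⟩ := Finset.mem_biUnion.1 h
        refine Or.inl ⟨z, Finset.mem_insert_of_mem hz, ?_, hj⟩
        rintro rfl
        exact hi hz
      · exact Or.inr h
    · rcases hQ.ps y hy j with ⟨i', hi', h⟩ | h
      · exact Or.inl ⟨i', Finset.mem_insert_of_mem hi', h⟩
      · exact Or.inr h
  · intro x hx
    by_cases hxK : x ∈ K
    · simp only [hxK, if_true]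
    · simp only [hxK, if_false]
      exact hQ.mem x (hT' x hx hxK)
  · intro x hx
    by_cases hxK : x ∈ K
    · simp only [hxK, if_true]
      exact hKT
    · simp only [hxK, if_false]
      exact (hQ.sub x (hT' x hx hxK)).trans (Finset.subset_insert _ _)
  · intro x hx y hy
    by_cases hxK : x ∈ K
    · simp only [hxK, if_true] at hy ⊢
      simp only [hy, if_true]
    · simp only [hxK, if_false] at hy ⊢
      have hxT := hT' x hx hxK
      have hyT : y ∈ T := hQ.sub x hxT hy
      have h1 : c y = c x := hQ.eq x hxT y hy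
      have hyK : y ∉ K := fun h => hxK (hKc y hyT h (h1 ▸ hQ.mem x hxT))
      simp only [hyK, if_false]
      exact h1
  · have key : ∀ x ∈ insert i T, ∀ y ∈ insert i T, Adj G x y → x ∈ K → y ∈ K := by
      intro x hx y hy hxy hxK
      rcases Finset.mem_insert.1 hy with rfl | hyT
      · exact hiK
      rcases Finset.mem_insert.1 hx with rfl | hxT
      · exact hNK y hyT hxy
      · exact hKc x hxT hxK (hQ.adj x hxT y hyT hxy ▸ hQ.mem y hyT)
    intro x hx y hy hxy
    by_cases hxK : x ∈ K
    · have hyK := key x hx y hy hxy hxK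
      simp only [hxK, hyK, if_true]
    · have hyK : y ∉ K := fun h => hxK (key y hy x hx (Lab_adj_symm G hxy) h)
      simp only [hxK, hyK, if_false]
      exact hQ.adj x (hT' x hx hxK) y (hT' y hy hyK) hxy
  · intro x hx
    by_cases hxK : x ∈ K
    · simp only [hxK, if_true]
      exact hKconn
    · simp only [hxK, if_false]
      exact hQ.conn x (hT' x hx hxK)
  · intro x hx
    by_cases hxK : x ∈ K
    · simp only [hxK, if_true]
      exact hKcard
    · simp only [hxK, if_false]
      exact hQ.card x (hT' x hx hxK)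

/-- Without large witnesses the closure splits into small classes.
Proof.  Define inductively the generated sets: `Gen ∅`, and `Gen (insert i T)` if `Gen T`, `i ∉ T`,
`Join G s η T i`.  A `Gen` set of maximal cardinality is closed, and every `Gen` set is contained in
every closed set; so this maximal set is the closure `T`.  Prove by induction on `Gen T`: there is
`cl` with (1) `cl i = cl i'` for adjacent `i, i' ∈ T`; (2) every nonempty class
`T.filter (cl · = a)` satisfies `Conn`, `PS` and has fewer than `L` elements.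
Induction step: add `i`.  Let `A0` be the set of the classes `a` of `T` that contain some `i'` with
`G i j ∈ des G i'` for some `j`; for each `j` the clauses `i' ∈ T` with `G i j ∈ des G i'` are
adjacent to each other, so `A0` has at most `k` elements.  Let `A1` be the set of all classes that
contain a clause adjacent to `i`.  For `A0 ⊆ A ⊆ A1` let `K_A = {i} ∪ (union of the classes in A)`.
`Conn K_A` holds (each class is connected and contains a neighbour of `i`); `PS K_A` holds (for a
clause of a class by `PS` of the class; for `i`: by `Join G s η T i` a position `j` is not true, or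
its variable is in `des G i'`, `i' ∈ T`, and then the class of `i'` is in `A0`).
`|K_{A0}| ≤ 1 + k (L - 1) ≤ (k + 1) L`, so `|K_{A0}| < L` because there is no witness; adding the
classes of `A1 \ A0` one at a time, the size is always `< L`, then `< 2 L ≤ (k + 1) L`, hence `< L`
again.  The new labelling: the clauses of `K_{A1}` get the label `i`, all others keep `cl`
(first change the labels so that the label of a class is an element of the class, or note that
`i ∉ T`: compose so that the label `i` is not used by the other classes). -/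
theorem closure_labels (G : Fin m → Fin k → Fin n) (s : Fin m → Fin k → Bool)
    (η : Fin n → Option Bool) (L : ℕ) (hk : 1 ≤ k) (hL : 1 ≤ L) (T : Finset (Fin m))
    (hT : IsClosure G s η T) (hno : ∀ K, ¬ Wit G s η L K) : ∃ cl : Fin m → Fin m, IsLab G T cl L := by
  -- a maximal good set
  let F : Finset (Finset (Fin m)) := univ.filter (fun T' => ∃ c, LabQ G s η L T' c)
  have hF : F.Nonempty := by
    refine ⟨∅, Finset.mem_filter.2 ⟨Finset.mem_univ _, fun _ => ∅, ?_⟩⟩
    exact ⟨fun x hx => absurd hx (Finset.notMem_empty x), fun x hx => absurd hx (Finset.notMem_empty x),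
      fun x hx => absurd hx (Finset.notMem_empty x), fun x hx => absurd hx (Finset.notMem_empty x),
      fun x hx => absurd hx (Finset.notMem_empty x), fun x hx => absurd hx (Finset.notMem_empty x),
      fun x hx => absurd hx (Finset.notMem_empty x)⟩
  obtain ⟨T', hT'F, hmax⟩ := F.exists_max_image Finset.card hF
  obtain ⟨-, c, hQ⟩ := Finset.mem_filter.1 hT'F
  have hclosed : ∀ i, Join G s η T' i → i ∈ T' := by
    intro i hJ
    by_contra hi
    have h1 := hmax (insert i T') (Finset.mem_filter.2 ⟨Finset.mem_univ _, Lab_step hk hL hno hQ hi hJ⟩)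
    rw [Finset.card_insert_of_notMem hi] at h1
    omega
  have hTT' : T ⊆ T' := hT.least T' hclosed
  refine ⟨fun x => if h : (c x).Nonempty then (c x).min' h else x, ?_, ?_⟩
  · intro x hx y hy hxy
    have h1 : c x = c y := hQ.adj x (hTT' hx) y (hTT' hy) hxy
    have hne : (c x).Nonempty := ⟨x, hQ.mem x (hTT' hx)⟩
    have hne' : (c y).Nonempty := ⟨y, hQ.mem y (hTT' hy)⟩
    simp only [hne, hne', dif_pos]
    congr 1
  · intro a
    rcases (T.filter (fun x => (if h : (c x).Nonempty then (c x).min' h else x) = a)).eq_empty_or_nonempty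
      with he | ⟨x0, hx0⟩
    · rw [he, Finset.card_empty]
      exact hL
    · have hmem : ∀ x ∈ T.filter (fun x => (if h : (c x).Nonempty then (c x).min' h else x) = a),
          x ∈ T' ∧ a ∈ c x := by
        intro x hx
        obtain ⟨h1, h2⟩ := Finset.mem_filter.1 hx
        have hne : (c x).Nonempty := ⟨x, hQ.mem x (hTT' h1)⟩
        rw [dif_pos hne] at h2
        exact ⟨hTT' h1, h2 ▸ Finset.min'_mem _ _⟩
      obtain ⟨hx0T, ha0⟩ := hmem x0 hx0
      refine (Finset.card_le_card fun x hx => ?_).trans_lt (hQ.card x0 hx0T)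
      obtain ⟨hxT, ha⟩ := hmem x hx
      have h1 : c a = c x := hQ.eq x hxT a ha
      have h2 : c a = c x0 := hQ.eq x0 hx0T a ha0
      rw [← h2, h1]
      exact hQ.mem x hxT

end KSat
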