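import Pool.Agent.W_MP_bd7f91_h12.Base

set_option autoImplicit false

open Finset
open scoped Classical

namespace KSat

variable {n k m : ℕ}

theorem Switch_des_card (G : Fin m → Fin k → Fin n) (i : Fin m) : (des G i).card ≤ 3 := by
  refine Finset.card_image_le.trans ?_
  calc (univ.filter (fun j : Fin k => j.val < 3)).card
      = ((univ.filter (fun j : Fin k => j.val < 3)).image Fin.val).card :=
        (Finset.card_image_of_injective _ Fin.val_injective).symm
    _ ≤ (Finset.range 3).card := by
        apply Finset.card_le_card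
        intro x hx
        obtain ⟨j, hj, rfl⟩ := Finset.mem_image.mp hx
        exact Finset.mem_range.mpr (Finset.mem_filter.mp hj).2
    _ = 3 := Finset.card_range 3

theorem Switch_mem_desU {G : Fin m → Fin k → Fin n} {T : Finset (Fin m)} {u : Fin n} :
    u ∈ desU G T ↔ ∃ i ∈ T, u ∈ des G i := Finset.mem_biUnion

/-- The interpolating assignments. -/
noncomputable def Switch_z (G : Fin m → Fin k → Fin n) (T : Finset (Fin m))
    (lab : Fin n → Option (Fin m)) (ζ ζ' : Fin n → Bool) (A : Finset (Fin m)) : Fin n → Bool :=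
  fun u => if u ∈ desU G T ∧ ∃ a ∈ A, lab u = some a then ζ' u else ζ u

/-- Two solutions which agree with a total extension `f` of `η` outside `desU G T`, where `T` is
closed and has small classes, are joined by a `3 L`-path.
Proof.  For `u ∈ desU G T` let `lab u = cl i` for some chosen `i ∈ T` with `u ∈ des G i`; all such `i`
are adjacent to each other, so `lab u = cl i` for every `i ∈ T` with `u ∈ des G i`, and more
generally `lab (G i j) = cl i` whenever `i ∈ T` and `G i j ∈ desU G T` (`G i j ∈ des G i'`, `i' ∈ T`,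
gives `Adj G i i'`).  For a finset `A` of labels let `ζ_A u = ζ' u` if `u ∈ desU G T` and
`lab u ∈ A`, else `ζ u`.  Then `ζ_∅ = ζ`, `ζ_univ = ζ'`.  `ζ_A` is a solution: a clause `i ∉ T` has
(as `T` is closed) a position `j` with `G i j ∉ desU G T`, `η (G i j) = some b`, `b ≠ s i j`, and all
assignments involved have the value `f (G i j) = b` there; a clause `i ∈ T` has all its variables in
`desU G T` labelled `cl i`, so `ζ_A` agrees on clause `i` with `ζ'` (if `cl i ∈ A`) or with `ζ`.
`ζ_A` and `ζ_{insert a A}` differ only on the designated variables of the clauses of the class `a`,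
at most `3 L` variables.  Induct over `A` (`Finset.induction_on`). -/
theorem switch (G : Fin m → Fin k → Fin n) (s : Fin m → Fin k → Bool)
    (η : Fin n → Option Bool) (L : ℕ) (T : Finset (Fin m))
    (hT : ∀ i, Join G s η T i → i ∈ T) (cl : Fin m → Fin m) (hcl : IsLab G T cl L)
    (f : Fin n → Bool) (hf : ∀ u b, η u = some b → f u = b) (ζ ζ' : Fin n → Bool)
    (hζ : SatO G s ζ) (hζ' : SatO G s ζ') (h1 : ∀ u, u ∉ desU G T → ζ u = f u)
    (h2 : ∀ u, u ∉ desU G T → ζ' u = f u) :
    Relation.ReflTransGen (StepO G s (3 * L)) ζ ζ' := by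
  -- the labels of the designated variables
  have hlab : ∃ lab : Fin n → Option (Fin m),
      ∀ u ∈ desU G T, ∀ i ∈ T, ∀ j, G i j = u → lab u = some (cl i) := by
    refine ⟨fun u => if h : ∃ i ∈ T, u ∈ des G i then some (cl h.choose) else none, ?_⟩
    intro u hu i hi j hj
    have h : ∃ i ∈ T, u ∈ des G i := Switch_mem_desU.mp hu
    have h3 := h.choose_spec
    simp only [dif_pos h]
    exact congrArg some (hcl.1 i hi _ h3.1 (Or.inl ⟨j, by rw [hj]; exact h3.2⟩)).symm
  obtain ⟨lab, hlab⟩ := hlab
  have hout : ∀ (A : Finset (Fin m)) (u), u ∉ desU G T → Switch_z G T lab ζ ζ' A u = f u := by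
    intro A u hu
    rw [Switch_z, if_neg (fun h => hu h.1)]
    exact h1 u hu
  have hsat : ∀ A, SatO G s (Switch_z G T lab ζ ζ' A) := by
    intro A i
    by_cases hi : i ∈ T
    · by_cases hA : cl i ∈ A
      · obtain ⟨j, hj⟩ := hζ' i
        refine ⟨j, ?_⟩
        by_cases hu : G i j ∈ desU G T
        · rw [Switch_z, if_pos ⟨hu, cl i, hA, hlab _ hu i hi j rfl⟩]
          exact hj
        · rw [hout A _ hu, ← h2 _ hu]
          exact hj
      · obtain ⟨j, hj⟩ := hζ i
        refine ⟨j, ?_⟩
        rw [Switch_z, if_neg]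
        · exact hj
        · rintro ⟨hu, a, ha, hla⟩
          rw [hlab _ hu i hi j rfl] at hla
          exact hA (Option.some.inj hla ▸ ha)
    · have hj : ¬ Join G s η T i := fun h => hi (hT i h)
      rw [Join] at hj
      push Not at hj
      obtain ⟨j, hj1, hj2⟩ := hj
      rw [NT] at hj2
      push Not at hj2
      obtain ⟨b, hb1, hb2⟩ := hj2
      refine ⟨j, ?_⟩
      rw [hout A _ hj1, hf _ _ hb1]
      exact hb2
  have hham : ∀ (A : Finset (Fin m)) (a : Fin m),
      hammingDist (Switch_z G T lab ζ ζ' A) (Switch_z G T lab ζ ζ' (insert a A)) ≤ 3 * L := by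
    intro A a
    have hsub : (univ.filter fun u => Switch_z G T lab ζ ζ' A u ≠
        Switch_z G T lab ζ ζ' (insert a A) u) ⊆
        (T.filter (fun i => cl i = a)).biUnion (des G) := by
      intro u hu
      have hu' := (Finset.mem_filter.mp hu).2
      have hd : u ∈ desU G T := by
        by_contra hd
        exact hu' (by rw [hout A u hd, hout _ u hd])
      obtain ⟨i, hi, hiu⟩ := Switch_mem_desU.mp hd
      obtain ⟨j, -, hj⟩ := Finset.mem_image.mp hiu
      have hl := hlab u hd i hi j hj
      refine Finset.mem_biUnion.mpr ⟨i, Finset.mem_filter.mpr ⟨hi, ?_⟩, hiu⟩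
      by_contra hne
      apply hu'
      have hiff : (u ∈ desU G T ∧ ∃ b ∈ A, lab u = some b) ↔
          (u ∈ desU G T ∧ ∃ b ∈ insert a A, lab u = some b) := by
        constructor
        · rintro ⟨h3, b, hb, h4⟩
          exact ⟨h3, b, Finset.mem_insert_of_mem hb, h4⟩
        · rintro ⟨h3, b, hb, h4⟩
          refine ⟨h3, b, ?_, h4⟩
          rcases Finset.mem_insert.mp hb with rfl | hb
          · rw [hl] at h4
            exact absurd (Option.some.inj h4) hne
          · exact hb
      simp only [Switch_z, hiff]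
    calc hammingDist (Switch_z G T lab ζ ζ' A) (Switch_z G T lab ζ ζ' (insert a A))
        = (univ.filter fun u => Switch_z G T lab ζ ζ' A u ≠
            Switch_z G T lab ζ ζ' (insert a A) u).card := by
          rw [hammingDist]
      _ ≤ ((T.filter (fun i => cl i = a)).biUnion (des G)).card := Finset.card_le_card hsub
      _ ≤ ∑ i ∈ T.filter (fun i => cl i = a), (des G i).card := Finset.card_biUnion_le
      _ ≤ ∑ i ∈ T.filter (fun i => cl i = a), 3 :=
          Finset.sum_le_sum fun i _ => Switch_des_card G i
      _ = (T.filter (fun i => cl i = a)).card * 3 := by rw [Finset.sum_const, smul_eq_mul]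
      _ ≤ 3 * L := by
          have := (hcl.2 a).le
          rw [mul_comm]
          exact Nat.mul_le_mul_left 3 this
  have hpath : ∀ A : Finset (Fin m), Relation.ReflTransGen (StepO G s (3 * L))
      (Switch_z G T lab ζ ζ' ∅) (Switch_z G T lab ζ ζ' A) := by
    intro A
    induction A using Finset.induction_on with
    | empty => exact Relation.ReflTransGen.refl
    | insert a A _ ih => exact ih.tail ⟨hsat A, hsat _, hham A a⟩
  have h3 : Switch_z G T lab ζ ζ' ∅ = ζ := by
    funext u
    rw [Switch_z, if_neg]
    rintro ⟨-, a, ha, -⟩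
    exact absurd ha (Finset.notMem_empty a)
  have h4 : Switch_z G T lab ζ ζ' univ = ζ' := by
    funext u
    by_cases hu : u ∈ desU G T
    · obtain ⟨i, hi, hiu⟩ := Switch_mem_desU.mp hu
      obtain ⟨j, -, hj⟩ := Finset.mem_image.mp hiu
      rw [Switch_z, if_pos ⟨hu, cl i, Finset.mem_univ _, hlab u hu i hi j hj⟩]
    · rw [hout _ u hu, h2 u hu]
  have h5 := hpath univ
  rwa [h3, h4] at h5

end KSat
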