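import Pool.Agent.W_MP_bd7f91_h12.Clos
import Pool.Agent.W_MP_bd7f91_h12.Lab
import Pool.Agent.W_MP_bd7f91_h12.Switch
import Pool.Agent.W_MP_bd7f91_h12.HallS

set_option autoImplicit false

open Finset
open scoped Classical

namespace KSat

variable {n k m : ℕ}

/-- the assignment which is false before `t` and equal to `σ` from `t` on -/
def tot (σ : Fin n → Bool) (t : ℕ) : Fin n → Bool := fun u => if u.val < t then false else σ u

/-- A modified assignment on a closed set is a solution: outside `desU G T` equal to the total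
extension `f` of `η`, inside equal to `ξ` which satisfies the clauses of `T` inside. -/
theorem sat_patch (G : Fin m → Fin k → Fin n) (s : Fin m → Fin k → Bool)
    (η : Fin n → Option Bool) (T : Finset (Fin m)) (hT : ∀ i, Join G s η T i → i ∈ T)
    (f ξ : Fin n → Bool) (hf : ∀ u b, η u = some b → f u = b)
    (hξ : ∀ i ∈ T, ∃ j, G i j ∈ desU G T ∧ ξ (G i j) ≠ s i j) :
    SatO G s (fun u => if u ∈ desU G T then ξ u else f u) := by
  intro i
  by_cases hi : i ∈ T
  · obtain ⟨j, hj1, hj2⟩ := hξ i hi
    refine ⟨j, ?_⟩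
    simp only [if_pos hj1]
    exact hj2
  · have h1 : ¬ Join G s η T i := fun h => hi (hT i h)
    unfold Join at h1
    push Not at h1
    obtain ⟨j, hj1, hj2⟩ := h1
    unfold NT at hj2
    push Not at hj2
    obtain ⟨b, hb1, hb2⟩ := hj2
    refine ⟨j, ?_⟩
    simp only [if_neg hj1]
    rw [hf _ _ hb1]
    exact hb2

theorem Det_desU_mono (G : Fin m → Fin k → Fin n) {T T' : Finset (Fin m)} (h : T' ⊆ T) {u : Fin n}
    (hu : u ∉ desU G T) : u ∉ desU G T' := fun h' =>
  hu (Finset.biUnion_subset_biUnion_of_subset_left _ h h')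

theorem Det_data (G : Fin m → Fin k → Fin n) (s : Fin m → Fin k → Bool) (L : ℕ) (hk : 1 ≤ k)
    (hL : 1 ≤ L) (hH : HallP G L) (η : Fin n → Option Bool) (hno : ∀ K, ¬ Wit G s η L K) :
    ∃ (T : Finset (Fin m)) (cl : Fin m → Fin m) (ξ : Fin n → Bool), IsClosure G s η T ∧
      IsLab G T cl L ∧ ∀ i ∈ T, ∃ j, G i j ∈ desU G T ∧ ξ (G i j) ≠ s i j := by
  obtain ⟨T, hT⟩ := closure_exists G s η
  obtain ⟨cl, hcl⟩ := closure_labels G s η L hk hL T hT hno
  obtain ⟨ξ, hξ⟩ := hall_sat G s L T cl hcl hH
  exact ⟨T, cl, ξ, hT, hcl, hξ⟩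

theorem Det_part_tot (σ : Fin n → Bool) (t : Fin n) (u : Fin n) (b : Bool)
    (h : part σ t u = some b) : tot σ t.val u = b ∧ tot σ (t.val + 1) u = b := by
  unfold part at h
  unfold tot
  by_cases h1 : u < t
  · rw [if_pos h1] at h
    have h2 : u.val < t.val := h1
    rw [if_pos h2, if_pos (by omega)]
    exact ⟨Option.some.inj h, Option.some.inj h⟩
  · rw [if_neg h1] at h
    by_cases h3 : u = t
    · rw [if_pos h3] at h
      exact absurd h (by simp)
    · rw [if_neg h3] at h
      have h2 : ¬ u.val < t.val := h1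
      have h4 : u.val ≠ t.val := fun h5 => h3 (Fin.ext h5)
      rw [if_neg h2, if_neg (by omega)]
      exact ⟨Option.some.inj h, Option.some.inj h⟩

/-- The deterministic theorem.
Proof.  Let `T0` be the closure of `allF`; `ζ0` = patch (`hall_sat`, `closure_labels`, `sat_patch`).
Let `σ` be a solution without witnesses.  For `t ≤ n` let `U t` be the closure of
`fun u => some (tot σ t u)`, for `t < n` let `T t` be the closure of `part σ t`; both
`some ∘ tot σ t` and `some ∘ tot σ (t+1)` extend `part σ t`, so `U t ⊆ T t`, `U (t+1) ⊆ T t`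
(`closure_mono`), and there are no witnesses for them (`wit_mono`).
Claim: for all `t ≤ n` there is a solution `a t` joined to `σ` with `a t = tot σ t` outside
`desU G (U t)`.  `t = 0`: `a 0 = σ = tot σ 0`.  Step: let `ξ` be given by `hall_sat` for `T t`, let
`ζ`, `ζ'` be the patches of `ξ` with `tot σ t`, `tot σ (t+1)` on `T t`: solutions at distance `≤ 1`
(they differ at most at `t`).  `a t` and `ζ` are joined by `switch` (on `T t`, `f = tot σ t`); let
`a (t+1)` be the patch on `U (t+1)` of a `ξ'` given by `hall_sat`; it agrees with `tot σ (t+1)`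
outside `desU G (U (t+1)) ⊆ desU G (T t)`, so `ζ'` and `a (t+1)` are joined by `switch`.
Finally `tot σ n` is false everywhere, so `a n` and `ζ0` are joined by `switch` for `allF`, `T0`
(the closure of `some ∘ tot σ n = allF` is `T0` by `closure_mono` twice).
(When `n = 0` the statement is trivial in the same way.)  `StepO` is symmetric. -/
theorem giant_det (G : Fin m → Fin k → Fin n) (s : Fin m → Fin k → Bool) (L : ℕ) (hk : 1 ≤ k)
    (hL : 1 ≤ L) (hH : HallP G L) (hno0 : ∀ K, ¬ Wit G s allF L K) :
    ∃ ζ0, SatO G s ζ0 ∧ ∀ σ, SatO G s σ → (∀ t : Fin n, ∀ K, ¬ Wit G s (part σ t) L K) →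
      Relation.ReflTransGen (StepO G s (3 * L)) σ ζ0 := by
  obtain ⟨T0, cl0, ξ0, hT0, hcl0, hξ0⟩ := Det_data G s L hk hL hH allF hno0
  have hζ0 : SatO G s (fun u => if u ∈ desU G T0 then ξ0 u else false) :=
    sat_patch G s allF T0 hT0.closed (fun _ => false) ξ0
      (fun u b h => Option.some.inj h) hξ0
  refine ⟨_, hζ0, ?_⟩
  intro σ hσ hno
  have key : ∀ t : ℕ, t ≤ n → ∃ a : Fin n → Bool,
      Relation.ReflTransGen (StepO G s (3 * L)) σ a ∧ SatO G s a ∧
      ∃ U, IsClosure G s (fun u => some (tot σ t u)) U ∧ ∀ u, u ∉ desU G U → a u = tot σ t u := by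
    intro t
    induction t with
    | zero =>
      intro _
      obtain ⟨U, hU⟩ := closure_exists G s (fun u => some (tot σ 0 u))
      refine ⟨σ, Relation.ReflTransGen.refl, hσ, U, hU, fun u _ => ?_⟩
      unfold tot
      rw [if_neg (Nat.not_lt_zero _)]
    | succ t ih =>
      intro ht
      obtain ⟨a, ha1, ha2, U, hU, ha3⟩ := ih (by omega)
      let tf : Fin n := ⟨t, by omega⟩
      have hp1 : ∀ u b, part σ tf u = some b → tot σ t u = b := fun u b h =>
        (Det_part_tot σ tf u b h).1
      have hp2 : ∀ u b, part σ tf u = some b → tot σ (t + 1) u = b := fun u b h =>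
        (Det_part_tot σ tf u b h).2
      obtain ⟨T, cl, ξ, hT, hcl, hξ⟩ := Det_data G s L hk hL hH (part σ tf) (hno tf)
      have hno' : ∀ K, ¬ Wit G s (fun u => some (tot σ (t + 1) u)) L K := fun K hK =>
        hno tf K (wit_mono G s (part σ tf) _ (fun u b h => congrArg some (hp2 u b h)) L K hK)
      obtain ⟨U', cl', ξ', hU', hcl', hξ'⟩ := Det_data G s L hk hL hH
        (fun u => some (tot σ (t + 1) u)) hno'
      have hUT : U ⊆ T := closure_mono G s (part σ tf) _
        (fun u b h => congrArg some (hp1 u b h)) T U hT hU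
      have hUT' : U' ⊆ T := closure_mono G s (part σ tf) _
        (fun u b h => congrArg some (hp2 u b h)) T U' hT hU'
      have hz1 := sat_patch G s (part σ tf) T hT.closed (tot σ t) ξ hp1 hξ
      have hz2 := sat_patch G s (part σ tf) T hT.closed (tot σ (t + 1)) ξ hp2 hξ
      have hz3 := sat_patch G s (fun u => some (tot σ (t + 1) u)) U' hU'.closed
        (tot σ (t + 1)) ξ' (fun u b h => Option.some.inj h) hξ'
      have hs1 := switch G s (part σ tf) L T hT.closed cl hcl (tot σ t) hp1 a _ ha2 hz1
        (fun u hu => ha3 u (Det_desU_mono G hUT hu)) (fun u hu => by simp only [if_neg hu])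
      have hs2 := switch G s (part σ tf) L T hT.closed cl hcl (tot σ (t + 1)) hp2 _ _ hz2 hz3
        (fun u hu => by simp only [if_neg hu])
        (fun u hu => by simp only [if_neg (Det_desU_mono G hUT' hu)])
      have hstep : StepO G s (3 * L) (fun u => if u ∈ desU G T then ξ u else tot σ t u)
          (fun u => if u ∈ desU G T then ξ u else tot σ (t + 1) u) := by
        refine ⟨hz1, hz2, ?_⟩
        have h1 : hammingDist (fun u => if u ∈ desU G T then ξ u else tot σ t u)
            (fun u => if u ∈ desU G T then ξ u else tot σ (t + 1) u) ≤ ({tf} : Finset (Fin n)).card := by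
          unfold hammingDist
          apply Finset.card_le_card
          intro u hu
          rw [Finset.mem_filter] at hu
          rw [Finset.mem_singleton]
          by_contra hne
          apply hu.2
          by_cases h2 : u ∈ desU G T
          · simp only [if_pos h2]
          · simp only [if_neg h2]
            unfold tot
            have h3 : u.val ≠ t := fun h4 => hne (Fin.ext h4)
            by_cases h5 : u.val < t
            · rw [if_pos h5, if_pos (by omega)]
            · rw [if_neg h5, if_neg (by omega)]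
        rw [Finset.card_singleton] at h1
        omega
      refine ⟨_, ((ha1.trans hs1).tail hstep).trans hs2, hz3, U', hU', fun u hu => ?_⟩
      simp only [if_neg hu]
  obtain ⟨a, ha1, ha2, U, hU, ha3⟩ := key n le_rfl
  have htot : ∀ u : Fin n, tot σ n u = false := fun u => by
    unfold tot
    rw [if_pos u.isLt]
  have hUT : U ⊆ T0 := closure_mono G s allF _
    (fun u b h => by
      rw [htot u]
      exact h) T0 U hT0 hU
  refine ha1.trans (switch G s allF L T0 hT0.closed cl0 hcl0 (fun _ => false)
    (fun u b h => Option.some.inj h) a _ ha2 hζ0 (fun u hu => ?_) (fun u hu => ?_))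
  · rw [ha3 u (Det_desU_mono G hUT hu), htot u]
  · simp only [if_neg hu]

end KSat
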