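import Pool.Agent.W_MP_bd7f91_h12.Base

set_option autoImplicit false

open Finset
open scoped Classical

namespace KSat

variable {n k m : ℕ}

/-- the clause of an injection and a violating pattern -/
noncomputable def toClause (e : Emb n k) (x : Fin k → Bool) : Clause n k :=
  ⟨univ.image (fun j => (e j, ! x j)), by
    constructor
    · rw [Finset.card_image_of_injective]
      · simp
      · intro a b hab
        exact e.injective (Prod.ext_iff.1 hab).1
    · intro l hl l' hl' h
      rw [Finset.mem_image] at hl hl'
      obtain ⟨j, -, rfl⟩ := hl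
      obtain ⟨j', -, rfl⟩ := hl'
      have : j = j' := e.injective h
      rw [this]⟩

/-- the formula of an ordered formula -/
noncomputable def toF (G : Fin m → Emb n k) (s : Fin m → Fin k → Bool) : Formula n k m :=
  fun i => toClause (G i) (s i)

/-- The ordered representation of a clause given by an enumeration of its literals. -/
def Transfer_rep (c : Clause n k) (g : Fin k ≃ {l // l ∈ c.1}) : Emb n k × (Fin k → Bool) :=
  (⟨fun j => (g j).1.1, fun j j' h => g.injective (Subtype.ext (c.2.2 _ (g j).2 _ (g j').2 h))⟩,
    fun j => ! (g j).1.2)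

theorem Transfer_rep_clause (c : Clause n k) (g : Fin k ≃ {l // l ∈ c.1}) :
    toClause (Transfer_rep c g).1 (Transfer_rep c g).2 = c := by
  apply Subtype.ext
  ext l
  change l ∈ univ.image (fun j => ((g j).1.1, ! ! (g j).1.2)) ↔ l ∈ c.1
  rw [mem_image]
  constructor
  · rintro ⟨j, -, rfl⟩
    rw [Bool.not_not]
    exact (g j).2
  · intro hl
    refine ⟨g.symm ⟨l, hl⟩, mem_univ _, ?_⟩
    rw [Equiv.apply_symm_apply, Bool.not_not]

/-- Every clause has exactly `k !` ordered representations (the orderings of its literals). -/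
theorem card_fibre (c : Clause n k) :
    (univ.filter (fun q : Emb n k × (Fin k → Bool) => toClause q.1 q.2 = c)).card = k.factorial := by
  have hcard : Fintype.card {l // l ∈ c.1} = k := by
    rw [Fintype.card_coe]
    exact c.2.1
  have e0 : Fin k ≃ {l // l ∈ c.1} := (Fintype.equivFinOfCardEq hcard).symm
  have h1 : (univ : Finset (Fin k ≃ {l // l ∈ c.1})).card = k.factorial := by
    rw [card_univ, Fintype.card_equiv e0, Fintype.card_fin]
  rw [← h1]
  symm
  refine Finset.card_bij (fun g _ => Transfer_rep c g) ?_ ?_ ?_
  · intro g _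
    rw [mem_filter]
    exact ⟨mem_univ _, Transfer_rep_clause c g⟩
  · intro g _ g' _ h
    apply Equiv.ext
    intro j
    apply Subtype.ext
    have h2 : (g j).1.1 = (g' j).1.1 :=
      DFunLike.congr_fun (congrArg Prod.fst h) j
    have h3 : (! (g j).1.2) = ! (g' j).1.2 := congrFun (congrArg Prod.snd h) j
    exact Prod.ext h2 (Bool.not_inj h3)
  · rintro ⟨e, x⟩ hq
    rw [mem_filter] at hq
    have hq2 : univ.image (fun j => (e j, ! x j)) = c.1 := congrArg Subtype.val hq.2
    have hmem : ∀ j, (e j, ! x j) ∈ c.1 := fun j => by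
      rw [← hq2]
      exact mem_image_of_mem _ (mem_univ j)
    have hbij : Function.Bijective (fun j : Fin k => (⟨(e j, ! x j), hmem j⟩ : {l // l ∈ c.1})) := by
      constructor
      · intro j j' h
        exact e.injective (Prod.ext_iff.1 (Subtype.ext_iff.1 h)).1
      · rintro ⟨l, hl⟩
        rw [← hq2, mem_image] at hl
        obtain ⟨j, -, hj⟩ := hl
        exact ⟨j, Subtype.ext hj⟩
    refine ⟨Equiv.ofBijective _ hbij, mem_univ _, ?_⟩
    refine Prod.ext ?_ ?_
    · ext j
      rfl
    · funext j
      change (! ! x j) = x j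
      rw [Bool.not_not]

/-- The number of ordered formulas over one formula. -/
theorem Transfer_card (F : Formula n k m) :
    (univ.filter (fun q : (Fin m → Emb n k) × (Fin m → Fin k → Bool) => toF q.1 q.2 = F)).card =
      k.factorial ^ m := by
  have h1 : (univ.filter (fun q : (Fin m → Emb n k) × (Fin m → Fin k → Bool) =>
      toF q.1 q.2 = F)).card = (Fintype.piFinset (fun i : Fin m =>
        univ.filter (fun q : Emb n k × (Fin k → Bool) => toClause q.1 q.2 = F i))).card := by
    refine Finset.card_equiv (Equiv.arrowProdEquivProdArrow (Fin m) (fun _ => Emb n k)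
      (fun _ => Fin k → Bool)).symm ?_
    rintro ⟨G, s⟩
    rw [mem_filter, Fintype.mem_piFinset]
    constructor
    · rintro ⟨-, h⟩ i
      rw [mem_filter]
      exact ⟨mem_univ _, congrFun h i⟩
    · intro h
      refine ⟨mem_univ _, ?_⟩
      funext i
      exact (mem_filter.1 (h i)).2
  rw [h1, Fintype.card_piFinset, Finset.prod_congr rfl (fun i _ => card_fibre (F i)),
    Finset.prod_const, card_univ, Fintype.card_fin]

/-- Counting formulas by ordered formulas (product of `card_fibre` over the clauses). -/
theorem transfer (P : Formula n k m → Prop) :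
    (univ.filter (fun q : (Fin m → Emb n k) × (Fin m → Fin k → Bool) => P (toF q.1 q.2))).card =
      k.factorial ^ m * (univ.filter P).card := by
  rw [Finset.card_eq_sum_card_fiberwise (f := fun q : (Fin m → Emb n k) × (Fin m → Fin k → Bool) =>
    toF q.1 q.2) (t := univ.filter P) (by
      intro q hq
      rw [Finset.mem_coe, mem_filter] at hq ⊢
      exact ⟨mem_univ _, hq.2⟩)]
  have h1 : ∀ F ∈ univ.filter P, ((univ.filter
      (fun q : (Fin m → Emb n k) × (Fin m → Fin k → Bool) => P (toF q.1 q.2))).filter
        (fun q => toF q.1 q.2 = F)).card = k.factorial ^ m := by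
    intro F hF
    rw [← Transfer_card F, filter_filter]
    congr 1
    apply filter_congr
    intro q _
    constructor
    · exact fun h => h.2
    · intro h
      refine ⟨?_, h⟩
      rw [h]
      exact (mem_filter.1 hF).2
  rw [Finset.sum_congr rfl h1, Finset.sum_const, smul_eq_mul, mul_comm]

/-- `Satisfies` in the two models. -/
theorem toF_sat (G : Fin m → Emb n k) (s : Fin m → Fin k → Bool) (σ : Fin n → Bool) :
    Satisfies (toF G s) σ ↔ SatO (fn G) s σ := by
  refine forall_congr' fun i => ?_
  change (∃ l ∈ univ.image (fun j => (G i j, ! s i j)), σ l.1 = l.2) ↔ ∃ j, σ (G i j) ≠ s i j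
  constructor
  · rintro ⟨l, hl, h⟩
    rw [mem_image] at hl
    obtain ⟨j, -, rfl⟩ := hl
    refine ⟨j, ?_⟩
    change σ (G i j) = ! s i j at h
    rw [h]
    simp
  · rintro ⟨j, hj⟩
    refine ⟨(G i j, ! s i j), mem_image_of_mem _ (mem_univ j), ?_⟩
    change σ (G i j) = ! s i j
    revert hj
    cases σ (G i j) <;> cases s i j <;> simp

end KSat
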