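import Pool.Agent.W_MP_bd7f91_h12.Asm
import Pool.Agent.W_MP_bd7f91_h12.Transfer

set_option autoImplicit false

open Finset
open scoped Classical

namespace KSat

theorem Final_joined {n k m : ℕ} (G : Fin m → Emb n k) (s : Fin m → Fin k → Bool) (D : ℕ) (D' : ℝ)
    (hD : (D : ℝ) ≤ D') (σ τ : Fin n → Bool) (h : Relation.ReflTransGen (StepO (fn G) s D) σ τ) :
    Joined (toF G s) D' τ σ := by
  unfold Joined
  induction h using Relation.ReflTransGen.head_induction_on with
  | refl => exact Relation.ReflTransGen.refl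
  | head h1 _ ih =>
    refine ih.tail ?_
    obtain ⟨ha, hb, hd⟩ := h1
    refine ⟨mem_filter.2 ⟨mem_univ _, (toF_sat G s _).2 hb⟩,
      mem_filter.2 ⟨mem_univ _, (toF_sat G s _).2 ha⟩, ?_⟩
    rw [hammingDist_comm]
    refine le_trans ?_ hD
    exact_mod_cast hd

/-- `GoodO` implies `Giant` (the relation `StepO` is symmetric; `(D : ℝ) ≤ D'`). -/
theorem giant_of_good {n k m : ℕ} (G : Fin m → Emb n k) (s : Fin m → Fin k → Bool) (D : ℕ) (D' ε : ℝ)
    (hD : (D : ℝ) ≤ D') (h : GoodO (fn G) s D ε) : Giant (toF G s) D' ε := by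
  obtain ⟨ζ, hζ, hc⟩ := h
  have hS : Sol (toF G s) = SolO (fn G) s := by
    unfold Sol SolO
    refine filter_congr fun σ _ => toF_sat G s σ
  refine ⟨(Sol (toF G s)).filter (Joined (toF G s) D' ζ), ⟨ζ, by rw [hS]; exact hζ, rfl⟩, ?_⟩
  rw [hS]
  refine hc.trans ?_
  have h1 : ((SolO (fn G) s).filter
      (fun σ => Relation.ReflTransGen (StepO (fn G) s D) σ ζ)).card ≤
      ((SolO (fn G) s).filter (Joined (toF G s) D' ζ)).card := by
    refine card_le_card fun σ hσ => ?_
    rw [mem_filter] at hσ ⊢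
    exact ⟨hσ.1, Final_joined G s D D' hD σ ζ hσ.2⟩
  exact_mod_cast h1

theorem Final_log (n : ℕ) (hn : 2 ^ 8 ≤ n) : ((3 * LL n : ℕ) : ℝ) ≤ 30 * Real.log n := by
  have hn0 : (0 : ℝ) < n := by
    have : 0 < n := by omega
    exact_mod_cast this
  have h1 : (2 : ℝ) ^ Nat.log 2 n ≤ n := by
    have := Nat.pow_log_le_self 2 (show n ≠ 0 by omega)
    exact_mod_cast this
  have h2 := Real.log_le_log (by positivity) h1
  rw [Real.log_pow] at h2
  have h3 : (8 : ℝ) * Real.log 2 ≤ Real.log n := by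
    have h4 : ((2 : ℝ) ^ 8) ≤ n := by exact_mod_cast hn
    have h5 := Real.log_le_log (by positivity) h4
    rw [Real.log_pow] at h5
    push_cast at h5
    exact h5
  have h6 := Real.log_two_gt_d9
  have h7 : (0 : ℝ) ≤ Nat.log 2 n := Nat.cast_nonneg _
  unfold LL
  push_cast
  nlinarith

/-- The theorem in the official model. -/
theorem giant_main (k : ℕ) (hk : 3 ≤ k) (ε : ℝ) (hε : 0 < ε) : ∃ n0 : ℕ, ∀ n, n0 ≤ n →
    ∀ m : ℕ, (m : ℝ) ≤ 2 ^ k / (600 * k) * n →
    (1 - ε) * (Fintype.card (Formula n k m) : ℝ) ≤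
      ((univ.filter (fun Φ : Formula n k m => Giant Φ (30 * Real.log n) ε)).card : ℝ) := by
  obtain ⟨n1, h1⟩ := ordered_main k hk ε hε
  refine ⟨max n1 (2 ^ 8), fun n hn m hm => ?_⟩
  have hn1 : n1 ≤ n := (le_max_left _ _).trans hn
  have hn2 : 2 ^ 8 ≤ n := (le_max_right _ _).trans hn
  have h2 := h1 n hn1 m hm
  have hbad : (univ.filter (fun P : (Fin m → Emb n k) × (Fin m → Fin k → Bool) =>
      ¬ Giant (toF P.1 P.2) (30 * Real.log n) ε)).card ≤
      (univ.filter (fun P : (Fin m → Emb n k) × (Fin m → Fin k → Bool) =>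
        ¬ GoodO (fn P.1) P.2 (3 * LL n) ε)).card := by
    refine card_le_card fun P hP => ?_
    rw [mem_filter] at hP ⊢
    refine ⟨mem_univ _, fun hg => hP.2 ?_⟩
    exact giant_of_good P.1 P.2 (3 * LL n) _ ε (Final_log n hn2) hg
  have h3 := transfer (fun Φ : Formula n k m => ¬ Giant Φ (30 * Real.log n) ε)
  have h4 := transfer (fun _ : Formula n k m => True)
  rw [filter_true, filter_true, card_univ, card_univ, Fintype.card_prod, Fintype.card_fun,
    Fintype.card_fun, Fintype.card_fun, Fintype.card_bool, Fintype.card_fin, Fintype.card_fin,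
    ← pow_mul] at h4
  have h5 : ((Fintype.card (Emb n k) : ℝ) ^ m * 2 ^ (k * m)) =
      (k.factorial : ℝ) ^ m * (Fintype.card (Formula n k m) : ℝ) := by
    exact_mod_cast h4
  rw [h5] at h2
  have h6 : (k.factorial : ℝ) ^ m * ((univ.filter (fun Φ : Formula n k m =>
      ¬ Giant Φ (30 * Real.log n) ε)).card : ℝ) ≤
      (k.factorial : ℝ) ^ m * (ε * (Fintype.card (Formula n k m) : ℝ)) := by
    have h7 : ((k.factorial ^ m * (univ.filter (fun Φ : Formula n k m =>
        ¬ Giant Φ (30 * Real.log n) ε)).card : ℕ) : ℝ) ≤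
        ((univ.filter (fun P : (Fin m → Emb n k) × (Fin m → Fin k → Bool) =>
          ¬ GoodO (fn P.1) P.2 (3 * LL n) ε)).card : ℝ) := by
      have h8 : k.factorial ^ m * (univ.filter (fun Φ : Formula n k m =>
          ¬ Giant Φ (30 * Real.log n) ε)).card ≤
          (univ.filter (fun P : (Fin m → Emb n k) × (Fin m → Fin k → Bool) =>
            ¬ GoodO (fn P.1) P.2 (3 * LL n) ε)).card := by
        refine le_trans (le_of_eq ?_) hbad
        convert h3.symm using 3
        ext Φ
        simp only [mem_filter, mem_univ, true_and]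
      exact_mod_cast h8
    push_cast at h7
    linarith
  have h8 := le_of_mul_le_mul_left h6 (by positivity)
  have h9 := card_filter_add_card_filter_not (s := (univ : Finset (Formula n k m)))
    (fun Φ : Formula n k m => Giant Φ (30 * Real.log n) ε)
  rw [card_univ] at h9
  have h10 : ((univ.filter (fun Φ : Formula n k m => Giant Φ (30 * Real.log n) ε)).card : ℝ) +
      ((univ.filter (fun Φ : Formula n k m => ¬ Giant Φ (30 * Real.log n) ε)).card : ℝ) =
      (Fintype.card (Formula n k m) : ℝ) := by exact_mod_cast h9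
  linarith

end KSat
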