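import Pool.Agent.W_MP_bd7f91_h12.Base

set_option autoImplicit false

open Finset
open scoped Classical

namespace KSat

/-- the size bound of the clusters -/
def LL (n : ℕ) : ℕ := 6 * (Nat.log 2 n + 1)

/-- `C(m, l) l ^ l ≤ (e m) ^ l`, from `l ^ l / l! ≤ e ^ l` (`Real.pow_div_factorial_le_exp`) and
`C(m, l) ≤ m ^ l / l!` (`Nat.choose_le_pow_div`). -/
theorem choose_mul_pow_le (m l : ℕ) :
    (m.choose l : ℝ) * (l : ℝ) ^ l ≤ (Real.exp 1 * m) ^ l := by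
  have h1 : (l : ℝ) ^ l / (l.factorial : ℝ) ≤ Real.exp 1 ^ l := by
    rw [Real.exp_one_pow]
    exact Real.pow_div_factorial_le_exp (l : ℝ) (Nat.cast_nonneg l) l
  have h2 : (m.choose l : ℝ) ≤ (m : ℝ) ^ l / (l.factorial : ℝ) := Nat.choose_le_pow_div l m
  have hf : (0 : ℝ) < (l.factorial : ℝ) := by exact_mod_cast l.factorial_pos
  calc (m.choose l : ℝ) * (l : ℝ) ^ l ≤ (m : ℝ) ^ l / (l.factorial : ℝ) * (l : ℝ) ^ l :=
        mul_le_mul_of_nonneg_right h2 (by positivity)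
    _ = (l : ℝ) ^ l / (l.factorial : ℝ) * (m : ℝ) ^ l := by ring
    _ ≤ Real.exp 1 ^ l * (m : ℝ) ^ l := mul_le_mul_of_nonneg_right h1 (by positivity)
    _ = (Real.exp 1 * m) ^ l := by rw [mul_pow]

theorem Num_LL_ge (n : ℕ) : 6 ≤ LL n := by
  unfold LL
  omega

/-- `LL n` is much smaller than `n` -/
theorem Num_log (C : ℝ) : ∃ n0 : ℕ, ∀ n, n0 ≤ n → C * (LL n : ℝ) ≤ n := by
  have h1 : Filter.Tendsto (fun t : ℕ => (t : ℝ) ^ 1 / (2 : ℝ) ^ t) Filter.atTop (nhds 0) :=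
    tendsto_pow_const_div_const_pow_of_one_lt 1 (by norm_num)
  have hC : 0 < 12 * (|C| + 1) := by positivity
  have h2 : ∀ᶠ t : ℕ in Filter.atTop, (t : ℝ) ^ 1 / (2 : ℝ) ^ t < 1 / (12 * (|C| + 1)) :=
    h1.eventually_lt_const (by positivity)
  obtain ⟨t0, ht0⟩ := Filter.eventually_atTop.1 h2
  refine ⟨2 ^ (max t0 1), fun n hn => ?_⟩
  have hn0 : n ≠ 0 := by
    have : 0 < 2 ^ (max t0 1) := by positivity
    omega
  have ht : max t0 1 ≤ Nat.log 2 n := Nat.le_log_of_pow_le (by norm_num) hn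
  have ht1 : t0 ≤ Nat.log 2 n := (le_max_left _ _).trans ht
  have ht2 : 1 ≤ Nat.log 2 n := (le_max_right _ _).trans ht
  have h3 := ht0 _ ht1
  have h4 : (2 : ℝ) ^ (Nat.log 2 n) ≤ n := by exact_mod_cast Nat.pow_log_le_self 2 hn0
  have hp : (0 : ℝ) < (2 : ℝ) ^ (Nat.log 2 n) := by positivity
  rw [pow_one, div_lt_div_iff₀ hp hC, one_mul] at h3
  have h5 : (1 : ℝ) ≤ (Nat.log 2 n : ℝ) := by exact_mod_cast ht2
  have h6 : C ≤ |C| + 1 := (le_abs_self C).trans (by linarith)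
  unfold LL
  push_cast
  have h7 : 0 ≤ |C| := abs_nonneg C
  calc C * (6 * ((Nat.log 2 n : ℝ) + 1)) ≤ (|C| + 1) * (6 * ((Nat.log 2 n : ℝ) + 1)) :=
        mul_le_mul_of_nonneg_right h6 (by positivity)
    _ ≤ (|C| + 1) * (12 * (Nat.log 2 n : ℝ)) :=
        mul_le_mul_of_nonneg_left (by linarith) (by positivity)
    _ = (Nat.log 2 n : ℝ) * (12 * (|C| + 1)) := by ring
    _ ≤ n := by linarith

theorem Num_pow (k : ℕ) (hk : 3 ≤ k) : (1 + 1 / (20 * (k : ℝ))) ^ k ≤ 1.1 := by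
  have hk0 : (0 : ℝ) < k := by
    have : (3 : ℝ) ≤ k := by exact_mod_cast hk
    linarith
  have h1 : (1 + 1 / (20 * (k : ℝ))) ^ k ≤ Real.exp (1 / 20) := by
    calc (1 + 1 / (20 * (k : ℝ))) ^ k ≤ (Real.exp (1 / (20 * (k : ℝ)))) ^ k := by
          refine pow_le_pow_left₀ (by positivity) ?_ k
          have := Real.add_one_le_exp (1 / (20 * (k : ℝ)))
          linarith
      _ = Real.exp (1 / 20) := by
          rw [← Real.exp_nat_mul]
          congr 1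
          field_simp
  refine h1.trans ?_
  by_contra hcon
  push Not at hcon
  have h2 : (1.1 : ℝ) ^ 20 < (Real.exp (1 / 20)) ^ 20 :=
    pow_lt_pow_left₀ hcon (by norm_num) (by norm_num)
  rw [← Real.exp_nat_mul] at h2
  have h3 : ((20 : ℕ) : ℝ) * (1 / 20) = 1 := by norm_num
  rw [h3] at h2
  have h4 := Real.exp_one_lt_d9
  norm_num at h2
  linarith

/-- the basic estimate -/
theorem Num_base (k : ℕ) (hk : 3 ≤ k) : ∃ n0 : ℕ, ∀ n, n0 ≤ n → k ≤ n ∧ ∀ l, l ≤ (k + 1) * LL n →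
    ((n : ℝ) + 3 * (k * l + 1)) ^ k ≤ 1.1 * (n.descFactorial k : ℝ) := by
  obtain ⟨n0, hn0⟩ := Num_log (120 * k * (k * (k + 1) + 1))
  refine ⟨n0, fun n hn => ?_⟩
  have h1 := hn0 n hn
  have hk3 : (3 : ℝ) ≤ k := by exact_mod_cast hk
  have hL : (6 : ℝ) ≤ (LL n : ℝ) := by exact_mod_cast Num_LL_ge n
  have hk0 : (0 : ℝ) < k := by linarith
  -- consequences
  have h2 : 120 * (k : ℝ) * (k * (k + 1) * (LL n : ℝ) + 1) ≤ n := by
    refine le_trans ?_ h1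
    have : (k : ℝ) * (k + 1) * (LL n : ℝ) + 1 ≤ (k * (k + 1) + 1) * (LL n : ℝ) := by nlinarith
    calc 120 * (k : ℝ) * (k * (k + 1) * (LL n : ℝ) + 1)
        ≤ 120 * (k : ℝ) * ((k * (k + 1) + 1) * (LL n : ℝ)) :=
          mul_le_mul_of_nonneg_left this (by positivity)
      _ = 120 * k * (k * (k + 1) + 1) * (LL n : ℝ) := by ring
  have h3 : 80 * (k : ℝ) * k ≤ n := by
    refine le_trans ?_ h2
    have h4 : (k : ℝ) ≤ k * (k + 1) * (LL n : ℝ) + 1 := by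
      have : (k : ℝ) * 1 ≤ k * ((k + 1) * (LL n : ℝ)) :=
        mul_le_mul_of_nonneg_left (by nlinarith) hk0.le
      nlinarith
    calc 80 * (k : ℝ) * k ≤ 120 * (k : ℝ) * k := by nlinarith
      _ ≤ 120 * (k : ℝ) * (k * (k + 1) * (LL n : ℝ) + 1) :=
          mul_le_mul_of_nonneg_left h4 (by positivity)
  have hkn : k ≤ n := by
    have : (k : ℝ) ≤ n := by nlinarith
    exact_mod_cast this
  refine ⟨hkn, fun l hl => ?_⟩
  have hlr : (l : ℝ) ≤ (k + 1) * (LL n : ℝ) := by exact_mod_cast hl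
  have hX : ((n + 1 - k : ℕ) : ℝ) = (n : ℝ) + 1 - k := by
    rw [Nat.cast_sub (by omega)]
    push_cast
    ring
  have hE : ((n : ℝ) + 1 - k) ^ k ≤ (n.descFactorial k : ℝ) := by
    rw [← hX]
    exact_mod_cast Nat.pow_sub_le_descFactorial n k
  have hX0 : (0 : ℝ) ≤ (n : ℝ) + 1 - k := by
    rw [← hX]
    exact Nat.cast_nonneg _
  have h5 : (n : ℝ) + 3 * (k * l + 1) ≤ (1 + 1 / (20 * (k : ℝ))) * ((n : ℝ) + 1 - k) := by
    have h6 : (k : ℝ) * l ≤ k * ((k + 1) * (LL n : ℝ)) := mul_le_mul_of_nonneg_left hlr hk0.le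
    have h7 : 3 * ((k : ℝ) * l + 1) ≤ n / (40 * k) := by
      rw [le_div_iff₀ (by positivity)]
      calc 3 * ((k : ℝ) * l + 1) * (40 * k) = 120 * (k : ℝ) * ((k : ℝ) * l + 1) := by ring
        _ ≤ 120 * (k : ℝ) * (k * ((k + 1) * (LL n : ℝ)) + 1) :=
            mul_le_mul_of_nonneg_left (by linarith) (by positivity)
        _ = 120 * (k : ℝ) * (k * (k + 1) * (LL n : ℝ) + 1) := by ring
        _ ≤ n := h2
    have h8 : 2 * (k : ℝ) ≤ n / (40 * k) := by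
      rw [le_div_iff₀ (by positivity)]
      nlinarith
    have h9 : (1 / (20 * (k : ℝ))) ≤ 1 := by
      rw [div_le_one (by positivity)]
      linarith
    have h10 : (1 + 1 / (20 * (k : ℝ))) * ((n : ℝ) + 1 - k) =
        (n : ℝ) + (n / (40 * k) + n / (40 * k)) - (1 + 1 / (20 * (k : ℝ))) * (k - 1) := by
      field_simp
      ring
    rw [h10]
    have h11 : (1 + 1 / (20 * (k : ℝ))) * (k - 1) ≤ 2 * (k - 1) :=
      mul_le_mul_of_nonneg_right (by linarith) (by linarith)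
    linarith
  calc ((n : ℝ) + 3 * (k * l + 1)) ^ k
      ≤ ((1 + 1 / (20 * (k : ℝ))) * ((n : ℝ) + 1 - k)) ^ k := pow_le_pow_left₀ (by positivity) h5 k
    _ = (1 + 1 / (20 * (k : ℝ))) ^ k * ((n : ℝ) + 1 - k) ^ k := by rw [mul_pow]
    _ ≤ 1.1 * (n.descFactorial k : ℝ) :=
        mul_le_mul (Num_pow k hk) hE (pow_nonneg hX0 k) (by norm_num)

/-- For all large `n` and all `l ≤ (k + 1) LL n`, the ratio of the constant of `enum_bound` to the
number `n (n-1) ... (n-k+1)` of injections is at most `26.4 k / n` (all the ratios of the factors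
tend to 1 because `LL n / n → 0`). -/
theorem ratio_bound (k : ℕ) (hk : 3 ≤ k) : ∃ n0 : ℕ, ∀ n, n0 ≤ n → ∀ l, l ≤ (k + 1) * LL n →
    (24 * k * ((n : ℝ) + 3 * (k * l + 1)) ^ (k - 1)) / (n.descFactorial k : ℝ) ≤ 26.4 * k / n ∧
    ((n : ℝ) + 3) ^ k / (n.descFactorial k : ℝ) ≤ 1.1 := by
  obtain ⟨n0, hn0⟩ := Num_base k hk
  refine ⟨n0, fun n hn l hl => ?_⟩
  obtain ⟨hkn, h⟩ := hn0 n hn
  have h1 := h l hl
  have hk3 : (3 : ℝ) ≤ k := by exact_mod_cast hk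
  have hkn' : (k : ℝ) ≤ n := by exact_mod_cast hkn
  have hn1 : (0 : ℝ) < n := by linarith
  have hE : (0 : ℝ) < (n.descFactorial k : ℝ) := by
    exact_mod_cast Nat.descFactorial_pos.2 hkn
  have hkl : (0 : ℝ) ≤ (k : ℝ) * l := by positivity
  constructor
  · rw [div_le_div_iff₀ hE hn1]
    have h2 : ((n : ℝ) + 3 * (k * l + 1)) ^ (k - 1) * n ≤ ((n : ℝ) + 3 * (k * l + 1)) ^ k := by
      obtain ⟨j, rfl⟩ : ∃ j, k = j + 1 := ⟨k - 1, by omega⟩
      rw [Nat.add_sub_cancel]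
      conv_rhs => rw [pow_succ]
      refine mul_le_mul_of_nonneg_left (by linarith) (by positivity)
    calc 24 * k * ((n : ℝ) + 3 * (k * l + 1)) ^ (k - 1) * n
        = 24 * k * (((n : ℝ) + 3 * (k * l + 1)) ^ (k - 1) * n) := by ring
      _ ≤ 24 * k * (1.1 * (n.descFactorial k : ℝ)) :=
          mul_le_mul_of_nonneg_left (h2.trans h1) (by positivity)
      _ = 26.4 * k * (n.descFactorial k : ℝ) := by ring
  · rw [div_le_iff₀ hE]
    refine le_trans ?_ h1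
    exact pow_le_pow_left₀ (by positivity) (by linarith) k

/-- one term -/
theorem Num_term {k n l m : ℕ} (hk : 3 ≤ k) (hn : 1 ≤ n) (hl : 1 ≤ l) (a b E : ℝ) (hE : 0 < E)
    (ha : 0 ≤ a) (hb : 0 ≤ b) (h1 : a / E ≤ 26.4 * k / n) (h2 : b / E ≤ 1.1)
    (hm : (m : ℝ) ≤ 2 ^ k / (600 * k) * n) :
    (4 : ℝ) ^ l / 2 ^ (k * l) * ((m.choose l : ℝ) * (l * (l : ℝ) ^ l) * (a ^ (l - 1) * b)) / E ^ l ≤
      (1 / 2) ^ l * l * n := by
  have hk3 : (3 : ℝ) ≤ k := by exact_mod_cast hk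
  have hk0 : (0 : ℝ) < k := by linarith
  have hn0 : (0 : ℝ) < n := by exact_mod_cast hn
  have hl0 : (0 : ℝ) ≤ l := Nat.cast_nonneg l
  obtain ⟨j, rfl⟩ : ∃ j, l = j + 1 := ⟨l - 1, by omega⟩
  rw [Nat.add_sub_cancel]
  set L : ℝ := ((j + 1 : ℕ) : ℝ) with hL
  have hc := choose_mul_pow_le m (j + 1)
  rw [← hL] at hc
  have e1 : (4 : ℝ) ^ (j + 1) / 2 ^ (k * (j + 1)) * ((m.choose (j + 1) : ℝ) * (L * L ^ (j + 1)) *
      (a ^ j * b)) / E ^ (j + 1) =
      (4 / 2 ^ k) ^ (j + 1) * ((m.choose (j + 1) : ℝ) * L ^ (j + 1)) * L * ((a / E) ^ j * (b / E)) := by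
    rw [div_pow, div_pow, pow_mul, pow_succ E]
    field_simp
  rw [e1]
  have hem : Real.exp 1 * m ≤ 2.7183 * (2 ^ k / (600 * k) * n) := by
    have := Real.exp_one_lt_d9
    exact mul_le_mul (by linarith) hm (Nat.cast_nonneg m) (by norm_num)
  have hem0 : 0 ≤ Real.exp 1 * m := by positivity
  have hLn : 0 ≤ L := Nat.cast_nonneg _
  calc (4 / 2 ^ k) ^ (j + 1) * ((m.choose (j + 1) : ℝ) * L ^ (j + 1)) * L * ((a / E) ^ j * (b / E))
      ≤ (4 / 2 ^ k) ^ (j + 1) * (2.7183 * (2 ^ k / (600 * k) * n)) ^ (j + 1) * L *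
          ((26.4 * k / n) ^ j * 1.1) := by
        refine mul_le_mul ?_ ?_ (by positivity) (by positivity)
        · refine mul_le_mul_of_nonneg_right ?_ hLn
          refine mul_le_mul_of_nonneg_left ?_ (by positivity)
          exact hc.trans (pow_le_pow_left₀ hem0 hem _)
        · refine mul_le_mul ?_ h2 (by positivity) (by positivity)
          exact pow_le_pow_left₀ (by positivity) h1 j
    _ = (4 * 2.7183 / 600 * 26.4) ^ (j + 1) * L * n * (1.1 / (26.4 * k)) := by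
        have e2 : ((4 : ℝ) / 2 ^ k) * (2.7183 * ((2 : ℝ) ^ k / (600 * (k : ℝ)) * (n : ℝ))) =
            (4 : ℝ) * 2.7183 / 600 * ((n : ℝ) / (k : ℝ)) := by
          field_simp
        have e3 : ((4 : ℝ) * 2.7183 / 600 * ((n : ℝ) / (k : ℝ))) ^ j * (26.4 * (k : ℝ) / (n : ℝ)) ^ j =
            ((4 : ℝ) * 2.7183 / 600 * 26.4) ^ j := by
          rw [← mul_pow]
          congr 1
          field_simp
        rw [← mul_pow, e2, pow_succ ((4 : ℝ) * 2.7183 / 600 * ((n : ℝ) / k)),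
          pow_succ ((4 : ℝ) * 2.7183 / 600 * 26.4)]
        calc ((4 : ℝ) * 2.7183 / 600 * ((n : ℝ) / (k : ℝ))) ^ j *
                ((4 : ℝ) * 2.7183 / 600 * ((n : ℝ) / (k : ℝ))) * L *
              ((26.4 * (k : ℝ) / (n : ℝ)) ^ j * 1.1)
            = (((4 : ℝ) * 2.7183 / 600 * ((n : ℝ) / (k : ℝ))) ^ j * (26.4 * (k : ℝ) / (n : ℝ)) ^ j) *
              ((4 : ℝ) * 2.7183 / 600 * ((n : ℝ) / (k : ℝ))) * L * 1.1 := by ring
          _ = ((4 : ℝ) * 2.7183 / 600 * 26.4) ^ j *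
              ((4 : ℝ) * 2.7183 / 600 * ((n : ℝ) / (k : ℝ))) * L * 1.1 := by rw [e3]
          _ = _ := by
              field_simp
    _ ≤ (1 / 2) ^ (j + 1) * L * n := by
        have h3 : (4 * 2.7183 / 600 * 26.4 : ℝ) ^ (j + 1) ≤ (1 / 2) ^ (j + 1) :=
          pow_le_pow_left₀ (by norm_num) (by norm_num) _
        have h4 : (1.1 : ℝ) / (26.4 * k) ≤ 1 := by
          rw [div_le_one (by positivity)]
          linarith
        calc (4 * 2.7183 / 600 * 26.4 : ℝ) ^ (j + 1) * L * n * (1.1 / (26.4 * k))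
            ≤ (4 * 2.7183 / 600 * 26.4 : ℝ) ^ (j + 1) * L * n * 1 :=
              mul_le_mul_of_nonneg_left h4 (by positivity)
          _ = (4 * 2.7183 / 600 * 26.4 : ℝ) ^ (j + 1) * (L * n) := by ring
          _ ≤ (1 / 2) ^ (j + 1) * (L * n) := mul_le_mul_of_nonneg_right h3 (by positivity)
          _ = (1 / 2) ^ (j + 1) * L * n := by ring

/-- The numerical bound.  With `E = n.descFactorial k` the term of index `l ≥ 1` is at most
`4 ^ l 2 ^ (- k l) (e m) ^ l l (26.4 k / n) ^ (l - 1) 1.1`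
(`choose_mul_pow_le`, `ratio_bound`), and with `m ≤ 2 ^ k n / (600 k)` this is at most
`(4 * 2.7183 * 26.4 / 600) ^ l * l * n ≤ (1 / 2) ^ l * l * n`
(`Real.exp_one_lt_d9`).  There are at most `(k + 1) LL n` terms, each at most
`2 ^ (- LL n) (k + 1) (LL n) n` with `2 ^ (LL n) ≥ n ^ 6` (`Nat.lt_pow_succ_log_self`). -/
theorem num_bound (k : ℕ) (hk : 3 ≤ k) (ε : ℝ) (hε : 0 < ε) : ∃ n0 : ℕ, ∀ n, n0 ≤ n →
    ∀ m : ℕ, (m : ℝ) ≤ 2 ^ k / (600 * k) * n →
    (n : ℝ) * ∑ l ∈ Finset.Icc (LL n) ((k + 1) * LL n),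
      (4 : ℝ) ^ l / 2 ^ (k * l) * ((m.choose l : ℝ) * (l * (l : ℝ) ^ l) *
        ((24 * k * ((n : ℝ) + 3 * (k * l + 1)) ^ (k - 1)) ^ (l - 1) * ((n : ℝ) + 3) ^ k)) /
          (n.descFactorial k : ℝ) ^ l ≤ ε := by
  obtain ⟨n1, hn1⟩ := ratio_bound k hk
  obtain ⟨n2, hn2⟩ := Num_log (k + 1)
  obtain ⟨n3, hn3⟩ := exists_nat_gt (1 / ε)
  refine ⟨max (max n1 n2) (max n3 (k + 1)), fun n hn m hm => ?_⟩
  have hnn1 : n1 ≤ n := by omega
  have hnn2 : n2 ≤ n := by omega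
  have hnn3 : n3 ≤ n := by omega
  have hnk : k + 1 ≤ n := by omega
  have hn0 : (1 : ℝ) ≤ n := by exact_mod_cast (by omega : 1 ≤ n)
  have hE : (0 : ℝ) < (n.descFactorial k : ℝ) := by
    exact_mod_cast Nat.descFactorial_pos.2 (by omega : k ≤ n)
  have hL6 := Num_LL_ge n
  have hLn : ((k : ℝ) + 1) * (LL n : ℝ) ≤ n := hn2 n hnn2
  have hterm : ∀ l ∈ Finset.Icc (LL n) ((k + 1) * LL n),
      (4 : ℝ) ^ l / 2 ^ (k * l) * ((m.choose l : ℝ) * (l * (l : ℝ) ^ l) *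
        ((24 * k * ((n : ℝ) + 3 * (k * l + 1)) ^ (k - 1)) ^ (l - 1) * ((n : ℝ) + 3) ^ k)) /
          (n.descFactorial k : ℝ) ^ l ≤ (1 / 2) ^ (LL n) * n * n := by
    intro l hl
    rw [Finset.mem_Icc] at hl
    obtain ⟨h1, h2⟩ := hn1 n hnn1 l hl.2
    refine (Num_term hk (by omega) (by omega) _ _ _ hE (by positivity) (by positivity) h1 h2
      hm).trans ?_
    have h3 : (l : ℝ) ≤ n := by
      refine le_trans ?_ hLn
      exact_mod_cast hl.2
    have h4 : ((1 : ℝ) / 2) ^ l ≤ (1 / 2) ^ (LL n) :=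
      pow_le_pow_of_le_one (by norm_num) (by norm_num) hl.1
    refine mul_le_mul_of_nonneg_right ?_ (by linarith)
    exact mul_le_mul h4 h3 (Nat.cast_nonneg l) (by positivity)
  have hsum := Finset.sum_le_card_nsmul _ _ _ hterm
  rw [nsmul_eq_mul, Nat.card_Icc] at hsum
  have hcard : (((k + 1) * LL n + 1 - LL n : ℕ) : ℝ) ≤ n := by
    refine le_trans ?_ hLn
    have h5 : (k + 1) * LL n + 1 - LL n ≤ (k + 1) * LL n := by omega
    exact_mod_cast h5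
  have hpow : ((1 : ℝ) / 2) ^ (LL n) ≤ 1 / (n : ℝ) ^ 6 := by
    have h6 : (n : ℝ) ≤ 2 ^ (Nat.log 2 n + 1) := by
      exact_mod_cast (Nat.lt_pow_succ_log_self (by norm_num) n).le
    have h7 : (n : ℝ) ^ 6 ≤ 2 ^ (LL n) := by
      calc (n : ℝ) ^ 6 ≤ (2 ^ (Nat.log 2 n + 1)) ^ 6 := pow_le_pow_left₀ (by linarith) h6 6
        _ = 2 ^ (LL n) := by
            rw [← pow_mul]
            congr 1
            unfold LL
            ring
    rw [one_div_pow]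
    exact one_div_le_one_div_of_le (by positivity) h7
  calc (n : ℝ) * ∑ l ∈ Finset.Icc (LL n) ((k + 1) * LL n),
      (4 : ℝ) ^ l / 2 ^ (k * l) * ((m.choose l : ℝ) * (l * (l : ℝ) ^ l) *
        ((24 * k * ((n : ℝ) + 3 * (k * l + 1)) ^ (k - 1)) ^ (l - 1) * ((n : ℝ) + 3) ^ k)) /
          (n.descFactorial k : ℝ) ^ l
      ≤ n * (n * ((1 / 2) ^ (LL n) * n * n)) := by
        refine mul_le_mul_of_nonneg_left (hsum.trans ?_) (by linarith)
        exact mul_le_mul_of_nonneg_right hcard (by positivity)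
    _ ≤ n * (n * (1 / (n : ℝ) ^ 6 * n * n)) := by
        gcongr
    _ = 1 / (n : ℝ) ^ 2 := by
        field_simp
    _ ≤ 1 / n := by
        apply one_div_le_one_div_of_le (by linarith)
        nlinarith
    _ ≤ ε := by
        have h8 : (n3 : ℝ) ≤ n := by exact_mod_cast hnn3
        rw [div_le_iff₀ (by linarith)]
        have h9 : 1 / ε < n := hn3.trans_le h8
        rw [div_lt_iff₀ hε] at h9
        linarith

end KSat
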