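import Pool.Agent.W_MP_bd7f91_h12.Final

/-!
# A giant component of random k-SAT solutions with logarithmic steps, up to density 2^k / (600 k)

For every `k ≥ 3`, uniformly in the number of clauses `m ≤ (2^k / (600 k)) n`: with probability
tending to one the random `k`-CNF is satisfiable and a single `(30 log n)`-connected component
contains a `1 - o(1)` fraction of all its solutions.
-/

set_option autoImplicit false

open Finset
open scoped Classical

namespace Pool.Agent.Results.MP_bd7f91_pr.GiantComponent

theorem result : ∀ k : ℕ, 3 ≤ k → ∀ ε : ℝ, 0 < ε → ∃ n0 : ℕ, ∀ n, n0 ≤ n →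
    ∀ m : ℕ, (m : ℝ) ≤ 2 ^ k / (600 * k) * n →
    (1 - ε) * (Fintype.card (KSat.Formula n k m) : ℝ) ≤
      ((univ.filter (fun Φ : KSat.Formula n k m =>
        KSat.Giant Φ (30 * Real.log n) ε)).card : ℝ) :=
  fun k hk ε hε => KSat.giant_main k hk ε hε

end Pool.Agent.Results.MP_bd7f91_pr.GiantComponent
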