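import Pool.Agent.W_MP_bd7f91_h12.Base

set_option autoImplicit false

open Finset
open scoped Classical

namespace KSat

variable {n k m : ℕ}

/-- `|vars| ≤ k |K| + 1`. -/
theorem vars_card_le (G : Fin m → Fin k → Fin n) (t : Fin n) (K : Finset (Fin m)) :
    (vars G t K).card ≤ k * K.card + 1 := by
  have h1 : (vars G t K).card ≤ (K.biUnion (fun i => univ.image (G i))).card + 1 := by
    unfold vars
    exact Finset.card_insert_le _ _
  have h2 : (K.biUnion (fun i => univ.image (G i))).card ≤ K.card * k := by
    refine Finset.card_biUnion_le_card_mul _ _ _ ?_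
    intro i _
    refine Finset.card_image_le.trans ?_
    simp
  rw [Nat.mul_comm] at h2
  omega

theorem Unf_mem_vars (G : Fin m → Fin k → Fin n) (t : Fin n) (K : Finset (Fin m))
    {i : Fin m} (hi : i ∈ K) (j : Fin k) : G i j ∈ vars G t K := by
  unfold vars
  refine Finset.mem_insert_of_mem (Finset.mem_biUnion.mpr ⟨i, hi, ?_⟩)
  exact Finset.mem_image_of_mem _ (Finset.mem_univ j)

theorem Unf_one_le_mult (G : Fin m → Fin k → Fin n) (t : Fin n) (K : Finset (Fin m))
    {u : Fin n} (hu : u ∈ vars G t K) (hut : u ≠ t) :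
    1 ≤ ((K ×ˢ (univ : Finset (Fin k))).filter (fun p => G p.1 p.2 = u)).card := by
  unfold vars at hu
  rw [Finset.mem_insert] at hu
  rcases hu with hu | hu
  · exact absurd hu hut
  · rw [Finset.mem_biUnion] at hu
    obtain ⟨i, hi, hui⟩ := hu
    rw [Finset.mem_image] at hui
    obtain ⟨j, _, hj⟩ := hui
    refine Finset.card_pos.mpr ⟨(i, j), ?_⟩
    rw [Finset.mem_filter]
    exact ⟨Finset.mem_product.mpr ⟨hi, Finset.mem_univ _⟩, hj⟩

/-- The unforced positions are at most twice the excess.
Proof.  Let `mult u` be the number of positions `(i, j)`, `i ∈ K`, with `G i j = u`; the sum of all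
`mult u` is `k |K|`; `|vars| = 1 + #{u ≠ t | mult u ≥ 1}`; so
`exc = mult t + ∑_{u ≠ t, mult u ≥ 1} (mult u - 1)`.  The unforced positions with variable `t` are
`mult t` in number; those with variable `u ≠ t` exist only if two different clauses of `K` contain
`u`, so `mult u ≥ 2`, and they are at most `mult u ≤ 2 (mult u - 1)`.
(`Finset.card_eq_sum_card_fiberwise`.) -/
theorem unf_le (G : Fin m → Fin k → Fin n) (t : Fin n) (K : Finset (Fin m)) :
    unf G t K ≤ 2 * exc G t K := by
  have hsum : ∑ u ∈ vars G t K,
      ((K ×ˢ (univ : Finset (Fin k))).filter (fun p => G p.1 p.2 = u)).card = k * K.card := by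
    have h := Finset.card_eq_sum_card_fiberwise (s := K ×ˢ (univ : Finset (Fin k)))
      (t := vars G t K) (f := fun p : Fin m × Fin k => G p.1 p.2) (by
        intro p hp
        have hp1 : p.1 ∈ K := (Finset.mem_product.mp hp).1
        exact Unf_mem_vars G t K hp1 p.2)
    rw [← h, Finset.card_product]
    simp [Nat.mul_comm]
  have hunf : unf G t K = ∑ u ∈ vars G t K,
      (((K ×ˢ (univ : Finset (Fin k))).filter
        (fun p => G p.1 p.2 = t ∨ ∃ i' ∈ K, i' ≠ p.1 ∧ G p.1 p.2 ∈ des G i')).filter
          (fun p => G p.1 p.2 = u)).card := by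
    unfold unf
    refine Finset.card_eq_sum_card_fiberwise (f := fun p : Fin m × Fin k => G p.1 p.2) ?_
    intro p hp
    have hp1 : p.1 ∈ K := (Finset.mem_product.mp (Finset.mem_filter.mp hp).1).1
    exact Unf_mem_vars G t K hp1 p.2
  have hle : (unf G t K : ℤ) ≤ ∑ u ∈ vars G t K,
      2 * ((((K ×ˢ (univ : Finset (Fin k))).filter (fun p => G p.1 p.2 = u)).card : ℤ) - 1
        + (if u = t then 1 else 0)) := by
    rw [hunf]
    push_cast
    refine Finset.sum_le_sum ?_
    intro u hu
    have hsub : (((K ×ˢ (univ : Finset (Fin k))).filter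
        (fun p => G p.1 p.2 = t ∨ ∃ i' ∈ K, i' ≠ p.1 ∧ G p.1 p.2 ∈ des G i')).filter
          (fun p => G p.1 p.2 = u)).card
        ≤ ((K ×ˢ (univ : Finset (Fin k))).filter (fun p => G p.1 p.2 = u)).card := by
      refine Finset.card_le_card ?_
      intro p hp
      rw [Finset.mem_filter, Finset.mem_filter] at hp
      rw [Finset.mem_filter]
      exact ⟨hp.1.1, hp.2⟩
    by_cases hut : u = t
    · rw [if_pos hut]
      have : (0 : ℤ) ≤ (((K ×ˢ (univ : Finset (Fin k))).filter
        (fun p => G p.1 p.2 = u)).card : ℤ) := Int.natCast_nonneg _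
      have h3 : ((((K ×ˢ (univ : Finset (Fin k))).filter
        (fun p => G p.1 p.2 = t ∨ ∃ i' ∈ K, i' ≠ p.1 ∧ G p.1 p.2 ∈ des G i')).filter
          (fun p => G p.1 p.2 = u)).card : ℤ)
        ≤ (((K ×ˢ (univ : Finset (Fin k))).filter (fun p => G p.1 p.2 = u)).card : ℤ) := by
        exact_mod_cast hsub
      linarith
    · rw [if_neg hut]
      rcases Finset.eq_empty_or_nonempty (((K ×ˢ (univ : Finset (Fin k))).filter
        (fun p => G p.1 p.2 = t ∨ ∃ i' ∈ K, i' ≠ p.1 ∧ G p.1 p.2 ∈ des G i')).filter
          (fun p => G p.1 p.2 = u)) with he | hne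
      · rw [he, Finset.card_empty]
        have h1 := Unf_one_le_mult G t K hu hut
        have h2 : (1 : ℤ) ≤ (((K ×ˢ (univ : Finset (Fin k))).filter
          (fun p => G p.1 p.2 = u)).card : ℤ) := by exact_mod_cast h1
        push_cast
        linarith
      · obtain ⟨p, hp⟩ := hne
        rw [Finset.mem_filter, Finset.mem_filter] at hp
        obtain ⟨⟨hpP, hpor⟩, hpu⟩ := hp
        have h2 : 2 ≤ ((K ×ˢ (univ : Finset (Fin k))).filter
            (fun p => G p.1 p.2 = u)).card := by
          rcases hpor with h | h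
          · exact absurd (hpu.symm.trans h) hut
          · obtain ⟨i', hi', hne', hdes⟩ := h
            rw [hpu] at hdes
            unfold des at hdes
            rw [Finset.mem_image] at hdes
            obtain ⟨j', _, hj'⟩ := hdes
            have hsub2 : ({p, (i', j')} : Finset (Fin m × Fin k)) ⊆
                (K ×ˢ (univ : Finset (Fin k))).filter (fun p => G p.1 p.2 = u) := by
              intro q hq
              rw [Finset.mem_insert, Finset.mem_singleton] at hq
              rw [Finset.mem_filter]
              rcases hq with hq | hq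
              · subst hq
                exact ⟨hpP, hpu⟩
              · subst hq
                exact ⟨Finset.mem_product.mpr ⟨hi', Finset.mem_univ _⟩, hj'⟩
            have hcard : ({p, (i', j')} : Finset (Fin m × Fin k)).card = 2 := by
              refine Finset.card_pair ?_
              intro hpe
              apply hne'
              rw [hpe]
            rw [← hcard]
            exact Finset.card_le_card hsub2
        have h2' : (2 : ℤ) ≤ (((K ×ˢ (univ : Finset (Fin k))).filter
          (fun p => G p.1 p.2 = u)).card : ℤ) := by exact_mod_cast h2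
        have h3 : ((((K ×ˢ (univ : Finset (Fin k))).filter
          (fun p => G p.1 p.2 = t ∨ ∃ i' ∈ K, i' ≠ p.1 ∧ G p.1 p.2 ∈ des G i')).filter
            (fun p => G p.1 p.2 = u)).card : ℤ)
          ≤ (((K ×ˢ (univ : Finset (Fin k))).filter (fun p => G p.1 p.2 = u)).card : ℤ) := by
          exact_mod_cast hsub
        linarith
  have htm : t ∈ vars G t K := by
    unfold vars
    exact Finset.mem_insert_self _ _
  have hcalc : ∑ u ∈ vars G t K,
      2 * ((((K ×ˢ (univ : Finset (Fin k))).filter (fun p => G p.1 p.2 = u)).card : ℤ) - 1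
        + (if u = t then 1 else 0))
      = 2 * (((k * K.card : ℕ) : ℤ) - ((vars G t K).card : ℤ) + 1) := by
    rw [← Finset.mul_sum, Finset.sum_add_distrib, Finset.sum_sub_distrib]
    rw [Finset.sum_ite_eq' (vars G t K) t, if_pos htm, ← hsum]
    push_cast
    simp
  have hex : ((exc G t K : ℕ) : ℤ)
      = ((k * K.card : ℕ) : ℤ) - ((vars G t K).card : ℤ) + 1 := by
    have hv := vars_card_le G t K
    unfold exc
    omega
  have hfin : (unf G t K : ℤ) ≤ 2 * ((exc G t K : ℕ) : ℤ) := by
    rw [hex, ← hcalc]
    exact hle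
  exact_mod_cast hfin

end KSat
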