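import Pool.Agent.W_MP_bd7f91_h12.StepB
import Pool.Agent.W_MP_bd7f91_h12.Unf

set_option autoImplicit false

open Finset
open scoped Classical

namespace KSat

variable {n k m : ℕ}

/-- Averaging over one coordinate: `∑_G ∑_e F (update G b e) = |E| ∑_G F G`. -/
theorem sum_update {E : Type} [Fintype E] (b : Fin m) (F : (Fin m → E) → ℕ) :
    ∑ G : Fin m → E, ∑ e : E, F (Function.update G b e) = Fintype.card E * ∑ G, F G := by
  have h1 : ∑ G : Fin m → E, ∑ e : E, F (Function.update G b e) =
      ∑ q : (Fin m → E) × E, F (Function.update q.1 b q.2) := by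
    rw [Fintype.sum_prod_type]
  have h2 : ∑ q : (Fin m → E) × E, F (Function.update q.1 b q.2) =
      ∑ q : (Fin m → E) × E, F q.1 := by
    apply Finset.sum_nbij' (fun q => (Function.update q.1 b q.2, q.1 b))
      (fun q => (Function.update q.1 b q.2, q.1 b))
    · intro q _
      exact Finset.mem_univ _
    · intro q _
      exact Finset.mem_univ _
    · rintro ⟨G, e⟩ _
      simp
    · rintro ⟨G, e⟩ _
      simp
    · rintro ⟨G, e⟩ _
      rfl
  rw [h1, h2, Fintype.sum_prod_type]
  simp only [Finset.sum_const, Finset.card_univ, smul_eq_mul]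
  rw [Finset.mul_sum]

/-- The excess when one clause is added: for injective clauses, if `b ∈ K`,
`exc K = exc (K.erase b) + |range (G b) ∩ vars (K.erase b)|`.
Proof: `vars K = vars (K.erase b) ∪ range (G b)` and `|range (G b)| = k`; `vars_card_le`. -/
theorem exc_erase (G : Fin m → Emb n k) (t : Fin n) (K : Finset (Fin m)) (b : Fin m) (hb : b ∈ K) :
    exc (fn G) t K = exc (fn G) t (K.erase b) +
      (univ.image (G b) ∩ vars (fn G) t (K.erase b)).card := by
  have h1 : vars (fn G) t K = univ.image (G b) ∪ vars (fn G) t (K.erase b) := by
    unfold vars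
    conv_lhs => rw [← Finset.insert_erase hb]
    rw [Finset.biUnion_insert]
    ext u
    simp only [Finset.mem_insert, Finset.mem_union]
    constructor
    · rintro (h | h | h)
      · exact Or.inr (Or.inl h)
      · exact Or.inl h
      · exact Or.inr (Or.inr h)
    · rintro (h | h | h)
      · exact Or.inr (Or.inl h)
      · exact Or.inl h
      · exact Or.inr (Or.inr h)
  have h2 : (univ.image (G b)).card = k := by
    rw [Finset.card_image_of_injective _ (G b).injective, Finset.card_univ, Fintype.card_fin]
  have h3 := Finset.card_union_add_card_inter (univ.image (G b)) (vars (fn G) t (K.erase b))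
  rw [← h1, h2] at h3
  have h4 := vars_card_le (fn G) t (K.erase b)
  have h5 := Finset.card_erase_add_one hb
  have h6 : (univ.image (G b) ∩ vars (fn G) t (K.erase b)).card ≤ k := by
    exact (Finset.card_le_card Finset.inter_subset_left).trans h2.le
  unfold exc
  rw [← h5]
  have h7 : k * ((K.erase b).card + 1) = k * (K.erase b).card + k := by ring
  rw [h7]
  omega

/-- the excess of the empty set -/
theorem Peel_exc_empty (G : Fin m → Emb n k) (t : Fin n) : exc (fn G) t ∅ = 0 := by
  unfold exc vars
  simp

/-- `vars` does not depend on the coordinates outside `K` -/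
theorem Peel_vars_update (G : Fin m → Emb n k) (t : Fin n) (K : Finset (Fin m)) (b : Fin m)
    (hb : b ∉ K) (e : Emb n k) :
    vars (fn (Function.update G b e)) t K = vars (fn G) t K := by
  unfold vars
  congr 1
  apply Finset.biUnion_congr rfl
  intro i hi
  have : i ≠ b := fun h => hb (h ▸ hi)
  unfold fn
  rw [Function.update_of_ne this]

theorem Peel_exc_update (G : Fin m → Emb n k) (t : Fin n) (K : Finset (Fin m)) (b : Fin m)
    (hb : b ∉ K) (e : Emb n k) :
    exc (fn (Function.update G b e)) t K = exc (fn G) t K := by
  unfold exc
  rw [Peel_vars_update G t K b hb e]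

/-- Expectation of the weight `4 ^ exc` over the formulas in which a given tree is present.
Proof by induction on `|K|`.  `|K| = 1`: `K = {r}`; `exc = |range (G r) ∩ {t}|` (`exc_erase`), average
over the coordinate `r` (`sum_update`, `root_bound` with `V = {t}`, `|V| = 1`).
Step: let `b ∈ K`, `b ≠ r`, be of maximal `h`; then `b ≠ p b'` for all `b' ∈ K`, `b' ≠ r`, so the
hypotheses hold for `K.erase b` and the conditions for `K.erase b` do not involve the coordinate `b`;
average over the coordinate `b` (`sum_update`): by `exc_erase` and `step_bound` (with `g = G (p b)`,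
`V = vars (fn G) t (K.erase b)`, `|V| ≤ k |K| + 1` by `vars_card_le`) the sum over `e` is at most
`24 k (n + 3 (k |K| + 1)) ^ (k - 1)` times the weight of `K.erase b`.  The constants for smaller
sets are smaller. -/
theorem tree_exp (t : Fin n) (K : Finset (Fin m)) (r : Fin m) (hr : r ∈ K) (p : Fin m → Fin m)
    (h : Fin m → ℕ) (hp : ∀ b ∈ K, b ≠ r → p b ∈ K ∧ h (p b) < h b) :
    (∑ G : Fin m → Emb n k, if (∀ b ∈ K, b ≠ r → AdjE (G b) (G (p b))) then
        4 ^ (exc (fn G) t K) else 0) * Fintype.card (Emb n k) ^ K.card ≤
      (24 * k * (n + 3 * (k * K.card + 1)) ^ (k - 1)) ^ (K.card - 1) * (n + 3) ^ k *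
        Fintype.card (Emb n k) ^ m := by
  obtain ⟨c, hc⟩ : ∃ c, c = K.card := ⟨_, rfl⟩
  induction c generalizing K with
  | zero =>
    exfalso
    have := Finset.card_pos.2 ⟨r, hr⟩
    omega
  | succ c ih =>
    by_cases hc0 : c = 0
    · -- a single clause
      have hK : K = {r} := by
        have h1 : K.card = 1 := by omega
        obtain ⟨a, ha⟩ := Finset.card_eq_one.1 h1
        rw [ha] at hr
        rw [ha, Finset.mem_singleton.1 hr]
      subst hK
      rw [Finset.card_singleton, pow_one, Nat.sub_self, pow_zero, one_mul]
      have h1 : (∑ G : Fin m → Emb n k, if (∀ b ∈ ({r} : Finset (Fin m)), b ≠ r →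
          AdjE (G b) (G (p b))) then 4 ^ (exc (fn G) t {r}) else 0) * Fintype.card (Emb n k) =
          ∑ G : Fin m → Emb n k, ∑ e : Emb n k,
            4 ^ (exc (fn (Function.update G r e)) t {r}) := by
        rw [sum_update r (fun G => 4 ^ (exc (fn G) t {r})), mul_comm]
        congr 1
        apply Finset.sum_congr rfl
        intro G _
        rw [if_pos]
        intro b hb hbr
        exact absurd (Finset.mem_singleton.1 hb) hbr
      rw [h1]
      have h2 : ∀ G : Fin m → Emb n k, ∑ e : Emb n k,
          4 ^ (exc (fn (Function.update G r e)) t {r}) ≤ (n + 3) ^ k := by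
        intro G
        have h3 := root_bound n k ({t} : Finset (Fin n))
        rw [Finset.card_singleton, mul_one] at h3
        refine le_trans (le_of_eq ?_) h3
        apply Finset.sum_congr rfl
        intro e _
        rw [exc_erase (Function.update G r e) t {r} r (Finset.mem_singleton_self r)]
        have h4 : ({r} : Finset (Fin m)).erase r = ∅ := by simp
        rw [h4, Peel_exc_empty, zero_add, Function.update_self]
        have h5 : vars (fn (Function.update G r e)) t ∅ = {t} := by
          unfold vars
          simp
        rw [h5]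
      refine (Finset.sum_le_sum (fun G _ => h2 G)).trans (le_of_eq ?_)
      rw [Finset.sum_const, Finset.card_univ, Fintype.card_fun, Fintype.card_fin, smul_eq_mul,
        mul_comm]
    · -- a leaf of maximal height
      have hne : (K.erase r).Nonempty := by
        rw [← Finset.card_pos, Finset.card_erase_of_mem hr]
        omega
      obtain ⟨b, hb, hmax⟩ := Finset.exists_max_image (K.erase r) h hne
      have hbK : b ∈ K := Finset.mem_of_mem_erase hb
      have hbr : b ≠ r := Finset.ne_of_mem_erase hb
      obtain ⟨K', hK'⟩ : ∃ K', K' = K.erase b := ⟨_, rfl⟩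
      have hbK' : b ∉ K' := by rw [hK']; exact Finset.notMem_erase b K
      have hcK' : K'.card = c := by
        rw [hK', Finset.card_erase_of_mem hbK]
        omega
      have hrK' : r ∈ K' := by
        rw [hK']
        exact Finset.mem_erase.2 ⟨hbr.symm, hr⟩
      have hpb : ∀ b' ∈ K, b' ≠ r → p b' ≠ b := by
        intro b' hb' hb'r hpe
        have h1 := (hp b' hb' hb'r).2
        have h2 := hmax b' (Finset.mem_erase.2 ⟨hb'r, hb'⟩)
        rw [hpe] at h1
        omega
      have hp' : ∀ b' ∈ K', b' ≠ r → p b' ∈ K' ∧ h (p b') < h b' := by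
        intro b' hb' hb'r
        have hb'K : b' ∈ K := by
          rw [hK'] at hb'
          exact Finset.mem_of_mem_erase hb'
        refine ⟨?_, (hp b' hb'K hb'r).2⟩
        rw [hK']
        exact Finset.mem_erase.2 ⟨hpb b' hb'K hb'r, (hp b' hb'K hb'r).1⟩
      have hIH := ih K' hrK' hp' hcK'.symm
      obtain ⟨A, hA⟩ : ∃ A, A = 24 * k * (n + 3 * (k * K.card + 1)) ^ (k - 1) := ⟨_, rfl⟩
      -- averaging over the coordinate `b`
      have h1 : (∑ G : Fin m → Emb n k, if (∀ b ∈ K, b ≠ r → AdjE (G b) (G (p b))) then
          4 ^ (exc (fn G) t K) else 0) * Fintype.card (Emb n k) ≤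
          (∑ G : Fin m → Emb n k, if (∀ b ∈ K', b ≠ r → AdjE (G b) (G (p b))) then
            4 ^ (exc (fn G) t K') else 0) * A := by
        rw [mul_comm, ← sum_update b (fun G => if (∀ b ∈ K, b ≠ r → AdjE (G b) (G (p b))) then
          4 ^ (exc (fn G) t K) else 0), Finset.sum_mul]
        apply Finset.sum_le_sum
        intro G _
        by_cases hG : ∀ b' ∈ K', b' ≠ r → AdjE (G b') (G (p b'))
        · rw [if_pos hG]
          have h2 : ∀ e : Emb n k, (if (∀ b' ∈ K, b' ≠ r →
              AdjE (Function.update G b e b') (Function.update G b e (p b'))) then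
              4 ^ (exc (fn (Function.update G b e)) t K) else 0) ≤
              4 ^ (exc (fn G) t K') * (if AdjE e (G (p b)) then
                4 ^ ((univ.image e ∩ vars (fn G) t K').card) else 0) := by
            intro e
            split_ifs with h3 h4
            · rw [exc_erase (Function.update G b e) t K b hbK, ← hK',
                Peel_exc_update G t K' b hbK' e, Peel_vars_update G t K' b hbK' e,
                Function.update_self, pow_add]
            · exfalso
              apply h4
              have h5 := h3 b hbK hbr
              rw [Function.update_self, Function.update_of_ne (hpb b hbK hbr)] at h5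
              exact h5
            · exact Nat.zero_le _
            · exact Nat.zero_le _
          refine (Finset.sum_le_sum (fun e _ => h2 e)).trans ?_
          rw [← Finset.mul_sum]
          apply Nat.mul_le_mul_left
          refine (step_bound n k (G (p b)) (vars (fn G) t K')).trans ?_
          rw [hA]
          apply Nat.mul_le_mul_left
          apply Nat.pow_le_pow_left
          have h6 := vars_card_le (fn G) t K'
          have h7 : k * K'.card ≤ k * K.card := Nat.mul_le_mul_left k (by omega)
          omega
        · rw [if_neg hG, zero_mul]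
          apply le_of_eq
          apply Finset.sum_eq_zero
          intro e _
          rw [if_neg]
          intro h3
          apply hG
          intro b' hb' hb'r
          have hb'K : b' ∈ K := by
            rw [hK'] at hb'
            exact Finset.mem_of_mem_erase hb'
          have h4 := h3 b' hb'K hb'r
          have hb'b : b' ≠ b := fun h => hbK' (h ▸ hb')
          rw [Function.update_of_ne hb'b, Function.update_of_ne (hpb b' hb'K hb'r)] at h4
          exact h4
      have h8 : (24 * k * (n + 3 * (k * K'.card + 1)) ^ (k - 1)) ^ (K'.card - 1) ≤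
          A ^ (K'.card - 1) := by
        apply Nat.pow_le_pow_left
        rw [hA]
        apply Nat.mul_le_mul_left
        apply Nat.pow_le_pow_left
        have h7 : k * K'.card ≤ k * K.card := Nat.mul_le_mul_left k (by omega)
        omega
      have h9 : K.card = K'.card + 1 := by omega
      have h10 : K.card - 1 = (K'.card - 1) + 1 := by omega
      rw [h10, ← hA]
      rw [h9, pow_succ]
      calc _ = ((∑ G : Fin m → Emb n k, if (∀ b ∈ K, b ≠ r → AdjE (G b) (G (p b))) then
            4 ^ (exc (fn G) t K) else 0) * Fintype.card (Emb n k)) *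
            Fintype.card (Emb n k) ^ K'.card := by ring
        _ ≤ ((∑ G : Fin m → Emb n k, if (∀ b ∈ K', b ≠ r → AdjE (G b) (G (p b))) then
            4 ^ (exc (fn G) t K') else 0) * A) * Fintype.card (Emb n k) ^ K'.card :=
            Nat.mul_le_mul_right _ h1
        _ = A * ((∑ G : Fin m → Emb n k, if (∀ b ∈ K', b ≠ r → AdjE (G b) (G (p b))) then
            4 ^ (exc (fn G) t K') else 0) * Fintype.card (Emb n k) ^ K'.card) := by ring
        _ ≤ A * ((24 * k * (n + 3 * (k * K'.card + 1)) ^ (k - 1)) ^ (K'.card - 1) *
            (n + 3) ^ k * Fintype.card (Emb n k) ^ m) := Nat.mul_le_mul_left _ hIH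
        _ ≤ A * (A ^ (K'.card - 1) * (n + 3) ^ k * Fintype.card (Emb n k) ^ m) := by
            apply Nat.mul_le_mul_left
            apply Nat.mul_le_mul_right
            apply Nat.mul_le_mul_right
            exact h8
        _ = _ := by ring

end KSat
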