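import Pool.Agent.W_MP_bd7f91_h12.Base

set_option autoImplicit false

open Finset
open scoped Classical

namespace KSat

variable {n k m : ℕ}

/-- The number of sign vectors with `PS`.
Proof.  For a position `(i, j)`, `i ∈ K`, which is not counted by `unf` the variable `G i j` is not
`t`, so `η (G i j) = some b`, and `PS` forces `s i j = b`.  So `s` is determined by its values at the
other `k m - (k |K| - unf)` positions (injection into the functions on the complement of the set of
forced positions, `Fintype.card_fun`, or induct over the forced positions). -/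
theorem sign_zero (G : Fin m → Fin k → Fin n) (η : Fin n → Option Bool) (t : Fin n)
    (hη : ∀ u, u ≠ t → ∃ b, η u = some b) (K : Finset (Fin m)) :
    (univ.filter (fun s : Fin m → Fin k → Bool => PS G s η K)).card * 2 ^ (k * K.card) ≤
      2 ^ (unf G t K) * 2 ^ (k * m) := by
  -- the forced positions
  obtain ⟨U, hU⟩ : ∃ U : Finset (Fin m × Fin k), U = (K ×ˢ (univ : Finset (Fin k))).filter
    (fun p => G p.1 p.2 = t ∨ ∃ i' ∈ K, i' ≠ p.1 ∧ G p.1 p.2 ∈ des G i') := ⟨_, rfl⟩
  obtain ⟨Fo, hFo⟩ : ∃ Fo : Finset (Fin m × Fin k), Fo = (K ×ˢ (univ : Finset (Fin k))) \ U :=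
    ⟨_, rfl⟩
  have hUsub : U ⊆ K ×ˢ (univ : Finset (Fin k)) := by
    rw [hU]
    exact Finset.filter_subset _ _
  have hcard : Fo.card + unf G t K = k * K.card := by
    have h1 := Finset.card_sdiff_add_card_eq_card hUsub
    rw [← hFo, Finset.card_product, Finset.card_univ, Fintype.card_fin] at h1
    have h2 : U.card = unf G t K := by rw [hU]; rfl
    rw [← h2, h1, mul_comm]
  have hforced : ∀ p ∈ Fo, ∃ b : Bool, ∀ s : Fin m → Fin k → Bool, PS G s η K →
      s p.1 p.2 = b := by
    intro p hp
    rw [hFo, Finset.mem_sdiff] at hp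
    obtain ⟨hp1, hp2⟩ := hp
    have hpK : p.1 ∈ K := (Finset.mem_product.1 hp1).1
    have h3 : ¬ (G p.1 p.2 = t ∨ ∃ i' ∈ K, i' ≠ p.1 ∧ G p.1 p.2 ∈ des G i') := by
      intro h
      apply hp2
      rw [hU]
      exact Finset.mem_filter.2 ⟨hp1, h⟩
    push Not at h3
    obtain ⟨b, hb⟩ := hη _ h3.1
    refine ⟨b, fun s hs => ?_⟩
    rcases hs p.1 hpK p.2 with ⟨i', hi', hne, hmem⟩ | h4
    · exact absurd hmem (h3.2 i' hi' hne)
    · exact (h4 b hb).symm
  choose! b hb using hforced
  -- restriction to the unforced positions is injective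
  have hinj : (univ.filter (fun s : Fin m → Fin k → Bool => PS G s η K)).card ≤
      Fintype.card ({p : Fin m × Fin k // p ∉ Fo} → Bool) := by
    rw [← Finset.card_univ]
    apply Finset.card_le_card_of_injOn (fun s => fun p => s p.1.1 p.1.2)
    · intro s _
      exact Finset.mem_coe.2 (Finset.mem_univ _)
    · intro s hs s' hs' h
      rw [Finset.mem_coe, Finset.mem_filter] at hs hs'
      funext i j
      by_cases hp : (i, j) ∈ Fo
      · have h5 := hb (i, j) hp s hs.2
        have h6 := hb (i, j) hp s' hs'.2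
        simp only at h5 h6
        rw [h5, h6]
      · exact congrFun h ⟨(i, j), hp⟩
  have hc2 : Fintype.card ({p : Fin m × Fin k // p ∉ Fo} → Bool) = 2 ^ (k * m - Fo.card) := by
    rw [Fintype.card_fun, Fintype.card_bool, Fintype.card_subtype_compl, Fintype.card_prod,
      Fintype.card_fin, Fintype.card_fin, Fintype.card_coe, mul_comm m k]
  have hFle : Fo.card ≤ k * m := by
    have h1 := Finset.card_le_univ Fo
    rw [Fintype.card_prod, Fintype.card_fin, Fintype.card_fin] at h1
    rw [mul_comm k m]
    exact h1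
  calc _ ≤ 2 ^ (k * m - Fo.card) * 2 ^ (k * K.card) := by
        apply Nat.mul_le_mul_right
        rw [← hc2]
        exact hinj
    _ = 2 ^ (unf G t K) * 2 ^ (k * m) := by
        rw [← pow_add, ← pow_add]
        congr 1
        omega

end KSat
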