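import Mathlib

set_option autoImplicit false

/-!
Random `k`-SAT: a formula is a sequence of `m` clauses, a clause is a set of exactly `k` literals
on `k` distinct variables; solutions, `D`-paths, `D`-connected components.
-/

open Finset
open scoped Classical

namespace KSat

/-- a literal: a variable and the value that makes it true -/
abbrev Lit (n : ℕ) := Fin n × Bool

/-- a `k`-clause: exactly `k` literals whose variables are pairwise distinct -/
def IsClause (n k : ℕ) (c : Finset (Lit n)) : Prop :=
  c.card = k ∧ ∀ l ∈ c, ∀ l' ∈ c, l.1 = l'.1 → l = l'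

/-- the set of all `k`-clauses on `n` variables -/
abbrev Clause (n k : ℕ) := {c : Finset (Lit n) // IsClause n k c}

/-- a `k`-CNF with `m` clauses (ordered, repetitions allowed) -/
abbrev Formula (n k m : ℕ) := Fin m → Clause n k

/-- the assignment `σ` satisfies `Φ` -/
def Satisfies {n k m : ℕ} (Φ : Formula n k m) (σ : Fin n → Bool) : Prop :=
  ∀ i, ∃ l ∈ (Φ i).1, σ l.1 = l.2

/-- the set of satisfying assignments -/
noncomputable def Sol {n k m : ℕ} (Φ : Formula n k m) : Finset (Fin n → Bool) :=
  univ.filter (Satisfies Φ)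

/-- `σ` and `τ` are joined by a `D`-path of satisfying assignments -/
def Joined {n k m : ℕ} (Φ : Formula n k m) (D : ℝ) (σ τ : Fin n → Bool) : Prop :=
  Relation.ReflTransGen (fun a b => a ∈ Sol Φ ∧ b ∈ Sol Φ ∧ (hammingDist a b : ℝ) ≤ D) σ τ

/-- `C` is a `D`-connected component of the set of satisfying assignments -/
def IsComponent {n k m : ℕ} (Φ : Formula n k m) (D : ℝ) (C : Finset (Fin n → Bool)) : Prop :=
  ∃ σ ∈ Sol Φ, C = (Sol Φ).filter (Joined Φ D σ)

/-- some `D`-connected component contains at least the fraction `1 - ε` of all solutions (in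
particular there is a solution) -/
def Giant {n k m : ℕ} (Φ : Formula n k m) (D ε : ℝ) : Prop :=
  ∃ C, IsComponent Φ D C ∧ (1 - ε) * ((Sol Φ).card : ℝ) ≤ (C.card : ℝ)

end KSat
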