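import Pool.Agent.W_MP_bd7f91_h12.Base

set_option autoImplicit false

open Finset
open scoped Classical

namespace KSat

/-- the weight of a vertex -/
noncomputable def StepB_w {n : ℕ} (V : Finset (Fin n)) (v : Fin n) : ℕ := if v ∈ V then 4 else 1

theorem StepB_w_le {n : ℕ} (V : Finset (Fin n)) (v : Fin n) : StepB_w V v ≤ 4 := by
  unfold StepB_w
  split_ifs <;> norm_num

theorem StepB_w_sum {n : ℕ} (V : Finset (Fin n)) :
    ∑ v, StepB_w V v = n + 3 * V.card := by
  have h1 : ∀ v : Fin n, StepB_w V v = 1 + 3 * (if v ∈ V then 1 else 0) := by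
    intro v
    unfold StepB_w
    split_ifs <;> norm_num
  rw [Finset.sum_congr rfl (fun v _ => h1 v), Finset.sum_add_distrib, ← Finset.mul_sum]
  simp

theorem StepB_pow_le {n k : ℕ} (V : Finset (Fin n)) (f : Fin k → Fin n) :
    4 ^ ((univ.image f ∩ V).card) ≤ ∏ j, StepB_w V (f j) := by
  have h1 : ∏ j, StepB_w V (f j) = 4 ^ ((univ.filter (fun j => f j ∈ V)).card) := by
    unfold StepB_w
    rw [Finset.prod_ite]
    simp
  rw [h1]
  apply Nat.pow_le_pow_right (by norm_num)
  have h2 : univ.image f ∩ V ⊆ (univ.filter (fun j => f j ∈ V)).image f := by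
    intro v hv
    rw [Finset.mem_inter, Finset.mem_image] at hv
    obtain ⟨⟨j, -, rfl⟩, hv⟩ := hv
    exact Finset.mem_image_of_mem _ (Finset.mem_filter.2 ⟨Finset.mem_univ _, hv⟩)
  exact (Finset.card_le_card h2).trans Finset.card_image_le

theorem StepB_sum_emb_le {n k : ℕ} (F : (Fin k → Fin n) → ℕ) :
    ∑ e : Emb n k, F e ≤ ∑ f : Fin k → Fin n, F f := by
  have h1 : ∑ e : Emb n k, F e
      = ∑ f ∈ (univ : Finset (Emb n k)).image (fun e : Emb n k => (⇑e : Fin k → Fin n)), F f := by
    rw [Finset.sum_image]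
    intro e _ e' _ h
    exact DFunLike.coe_injective h
  rw [h1]
  exact Finset.sum_le_sum_of_subset (Finset.subset_univ _)

theorem StepB_sum_fun {n k : ℕ} (V : Finset (Fin n)) :
    ∑ f : Fin k → Fin n, ∏ j, StepB_w V (f j) = (n + 3 * V.card) ^ k := by
  have h := Finset.prod_univ_sum (fun _ : Fin k => (univ : Finset (Fin n)))
    (fun (_ : Fin k) (v : Fin n) => StepB_w V v)
  rw [Fintype.piFinset_univ] at h
  rw [← h, Finset.prod_const, StepB_w_sum]
  simp

/-- Weighted number of injections.
Proof.  The sum over injections is at most the sum over all functions `e : Fin k → Fin n` of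
`∏ j, (if e j ∈ V then 4 else 1)`, which is `(n + 3 |V|) ^ k` (`Finset.prod_univ_sum` /
`Fintype.piFinset`), if `|V|` elements of `Fin n` have the weight `4` and the others `1`. -/
theorem root_bound (n k : ℕ) (V : Finset (Fin n)) :
    ∑ e : Emb n k, 4 ^ ((univ.image e ∩ V).card) ≤ (n + 3 * V.card) ^ k := by
  calc ∑ e : Emb n k, 4 ^ ((univ.image e ∩ V).card)
      ≤ ∑ e : Emb n k, ∏ j, StepB_w V (e j) := by
        apply Finset.sum_le_sum
        intro e _
        exact StepB_pow_le V e
    _ ≤ ∑ f : Fin k → Fin n, ∏ j, StepB_w V (f j) :=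
        StepB_sum_emb_le (fun f => ∏ j, StepB_w V (f j))
    _ = (n + 3 * V.card) ^ k := StepB_sum_fun V

/-- the sum over the functions with a given value at one place -/
theorem StepB_pair {n k : ℕ} (V : Finset (Fin n)) (a : Fin k) (u : Fin n) :
    ∑ f : Fin k → Fin n, (if f a = u then ∏ j, StepB_w V (f j) else 0) ≤
      4 * (n + 3 * V.card) ^ (k - 1) := by
  have h := Finset.prod_univ_sum (fun _ : Fin k => (univ : Finset (Fin n)))
    (fun (j : Fin k) (v : Fin n) => if j = a then (if v = u then StepB_w V v else 0)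
      else StepB_w V v)
  rw [Fintype.piFinset_univ] at h
  have h1 : ∀ f : Fin k → Fin n, (if f a = u then ∏ j, StepB_w V (f j) else 0)
      = ∏ j, (if j = a then (if f j = u then StepB_w V (f j) else 0) else StepB_w V (f j)) := by
    intro f
    by_cases hf : f a = u
    · rw [if_pos hf]
      apply Finset.prod_congr rfl
      intro j _
      by_cases hj : j = a
      · rw [if_pos hj, hj, if_pos hf]
      · rw [if_neg hj]
    · rw [if_neg hf]
      symm
      apply Finset.prod_eq_zero (Finset.mem_univ a)
      rw [if_pos rfl, if_neg hf]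
  rw [Finset.sum_congr rfl (fun f _ => h1 f), ← h, ← Finset.mul_prod_erase univ _ (Finset.mem_univ a)]
  have h2 : ∑ v, (if a = a then (if v = u then StepB_w V v else 0) else StepB_w V v) ≤ 4 := by
    simp only [if_true]
    rw [Finset.sum_ite_eq' univ u (fun v => StepB_w V v)]
    simp only [Finset.mem_univ, if_true]
    exact StepB_w_le V u
  have h3 : ∏ j ∈ univ.erase a,
      ∑ v, (if j = a then (if v = u then StepB_w V v else 0) else StepB_w V v)
      = (n + 3 * V.card) ^ (k - 1) := by
    rw [Finset.prod_congr rfl (g := fun _ => n + 3 * V.card), Finset.prod_const,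
      Finset.card_erase_of_mem (Finset.mem_univ a)]
    · simp
    · intro j hj
      rw [← StepB_w_sum]
      apply Finset.sum_congr rfl
      intro v _
      rw [if_neg (Finset.ne_of_mem_erase hj)]
  rw [h3]
  exact Nat.mul_le_mul_right _ h2

theorem StepB_card_lt {k : ℕ} : (univ.filter (fun j : Fin k => j.val < 3)).card ≤ 3 := by
  have h : (univ.filter (fun j : Fin k => j.val < 3)).card
      = ((univ.filter (fun j : Fin k => j.val < 3)).image (fun j => j.val)).card := by
    rw [Finset.card_image_of_injective _ Fin.val_injective]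
  rw [h]
  have h2 : (univ.filter (fun j : Fin k => j.val < 3)).image (fun j => j.val) ⊆ range 3 := by
    intro x hx
    rw [Finset.mem_image] at hx
    obtain ⟨j, hj, rfl⟩ := hx
    exact Finset.mem_range.2 (Finset.mem_filter.1 hj).2
  exact (Finset.card_le_card h2).trans (by simp)

/-- Weighted number of injections adjacent to a given one.
Proof.  `AdjE e g` implies `e a = g b` for one of the at most `6 k` pairs `(a, b)` with `a.val < 3` or
`b.val < 3`.  For a given pair the sum over all functions `e` with `e a = g b` of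
`∏ j, (if e j ∈ V then 4 else 1)` is at most `4 (n + 3 |V|) ^ (k - 1)`. -/
theorem step_bound (n k : ℕ) (g : Emb n k) (V : Finset (Fin n)) :
    ∑ e : Emb n k, (if AdjE e g then 4 ^ ((univ.image e ∩ V).card) else 0) ≤
      24 * k * (n + 3 * V.card) ^ (k - 1) := by
  set T : Finset (Fin k) := univ.filter (fun j : Fin k => j.val < 3) with hT
  have h1 : ∀ e : Emb n k, (if AdjE e g then 4 ^ ((univ.image e ∩ V).card) else 0) ≤
      (∑ a, ∑ b ∈ T, (if e a = g b then ∏ j, StepB_w V (e j) else 0)) +
      (∑ b, ∑ a ∈ T, (if e a = g b then ∏ j, StepB_w V (e j) else 0)) := by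
    intro e
    by_cases h : AdjE e g
    · rw [if_pos h]
      rcases h with ⟨a, b, hb, hab⟩ | ⟨b, a, ha, hab⟩
      · apply le_add_right
        refine (StepB_pow_le V e).trans ?_
        have hbT : b ∈ T := Finset.mem_filter.2 ⟨Finset.mem_univ _, hb⟩
        calc ∏ j, StepB_w V (e j) = (if e a = g b then ∏ j, StepB_w V (e j) else 0) := by
              rw [if_pos hab]
          _ ≤ ∑ b ∈ T, (if e a = g b then ∏ j, StepB_w V (e j) else 0) :=
              Finset.single_le_sum (f := fun b => if e a = g b then ∏ j, StepB_w V (e j) else 0)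
                (fun _ _ => Nat.zero_le _) hbT
          _ ≤ _ :=
              Finset.single_le_sum
                (f := fun a => ∑ b ∈ T, (if e a = g b then ∏ j, StepB_w V (e j) else 0))
                (fun _ _ => Nat.zero_le _) (Finset.mem_univ a)
      · apply le_add_left
        refine (StepB_pow_le V e).trans ?_
        have haT : a ∈ T := Finset.mem_filter.2 ⟨Finset.mem_univ _, ha⟩
        calc ∏ j, StepB_w V (e j) = (if e a = g b then ∏ j, StepB_w V (e j) else 0) := by
              rw [if_pos hab.symm]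
          _ ≤ ∑ a ∈ T, (if e a = g b then ∏ j, StepB_w V (e j) else 0) :=
              Finset.single_le_sum (f := fun a => if e a = g b then ∏ j, StepB_w V (e j) else 0)
                (fun _ _ => Nat.zero_le _) haT
          _ ≤ _ :=
              Finset.single_le_sum
                (f := fun b => ∑ a ∈ T, (if e a = g b then ∏ j, StepB_w V (e j) else 0))
                (fun _ _ => Nat.zero_le _) (Finset.mem_univ b)
    · rw [if_neg h]
      exact Nat.zero_le _
  have h2 : ∀ a b : Fin k, ∑ e : Emb n k, (if e a = g b then ∏ j, StepB_w V (e j) else 0) ≤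
      4 * (n + 3 * V.card) ^ (k - 1) := by
    intro a b
    exact (StepB_sum_emb_le (fun f => if f a = g b then ∏ j, StepB_w V (f j) else 0)).trans
      (StepB_pair V a (g b))
  have hTc : T.card ≤ 3 := StepB_card_lt
  have h3 : ∑ e : Emb n k, ∑ a, ∑ b ∈ T, (if e a = g b then ∏ j, StepB_w V (e j) else 0) ≤
      k * (3 * (4 * (n + 3 * V.card) ^ (k - 1))) := by
    rw [Finset.sum_comm]
    have : ∀ a ∈ (univ : Finset (Fin k)),
        ∑ e : Emb n k, ∑ b ∈ T, (if e a = g b then ∏ j, StepB_w V (e j) else 0) ≤
        3 * (4 * (n + 3 * V.card) ^ (k - 1)) := by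
      intro a _
      rw [Finset.sum_comm]
      refine (Finset.sum_le_card_nsmul _ _ _ (fun b _ => h2 a b)).trans ?_
      rw [smul_eq_mul]
      exact Nat.mul_le_mul_right _ hTc
    refine (Finset.sum_le_card_nsmul _ _ _ this).trans ?_
    simp
  have h4 : ∑ e : Emb n k, ∑ b, ∑ a ∈ T, (if e a = g b then ∏ j, StepB_w V (e j) else 0) ≤
      k * (3 * (4 * (n + 3 * V.card) ^ (k - 1))) := by
    rw [Finset.sum_comm]
    have : ∀ b ∈ (univ : Finset (Fin k)),
        ∑ e : Emb n k, ∑ a ∈ T, (if e a = g b then ∏ j, StepB_w V (e j) else 0) ≤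
        3 * (4 * (n + 3 * V.card) ^ (k - 1)) := by
      intro b _
      rw [Finset.sum_comm]
      refine (Finset.sum_le_card_nsmul _ _ _ (fun a _ => h2 a b)).trans ?_
      rw [smul_eq_mul]
      exact Nat.mul_le_mul_right _ hTc
    refine (Finset.sum_le_card_nsmul _ _ _ this).trans ?_
    simp
  refine (Finset.sum_le_sum (fun e _ => h1 e)).trans ?_
  rw [Finset.sum_add_distrib]
  refine (Nat.add_le_add h3 h4).trans (le_of_eq ?_)
  ring

end KSat
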